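import Mathlib

/-!
# The formal setting of Murre's conjectures

Definitions for formal results on Murre's conjectures (problem MP_38de51_ag).

`MotivicHomology C F` records the formal structure carried by the category `C` of Chow motives
with rational coefficients over a field, together with a Weil homology theory with coefficients
in the field `F`: a rigid symmetric tensor category with Tate objects, and a tensor functor to
graded finite-dimensional vector spaces, symmetric with the Koszul sign rule.
-/

open CategoryTheory MonoidalCategory Limits TensorProduct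

universe w v u

namespace Pool.Agent.Helper15.Murre

/-- The Tate objects `1(l)` and a Weil homology theory `H_*` on a rigid tensor category `C`
(the example to keep in mind: Chow motives with rational coefficients over a field `k`). -/
structure MotivicHomology (C : Type u) [Category.{v} C] [Preadditive C] [Linear ℚ C]
    [MonoidalCategory C] [SymmetricCategory C] [RigidCategory C] (F : Type w) [Field F] where
  /-- the Tate object `1(l)` -/
  T : ℤ → C
  /-- `1(0)` is the unit object -/
  tateZero : T 0 ≅ 𝟙_ C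
  /-- `1(a+b) = 1(a) ⊗ 1(b)` -/
  tateAdd : ∀ a b, T (a + b) ≅ T a ⊗ T b
  /-- `1(a)` has dual `1(-a)` -/
  tateDual : ∀ a, (T a)ᘁ ≅ T (-a)
  /-- the endomorphisms of the unit object are the rational numbers, `CH_0(Spec k) = ℚ` -/
  endUnit : ∀ f : 𝟙_ C ⟶ 𝟙_ C, ∃ q : ℚ, f = q • 𝟙 (𝟙_ C)
  /-- the (total) homology functor `H_*` -/
  H : C ⥤ ModuleCat.{w} F
  /-- Kunneth formula: `H_*` is a tensor functor -/
  monoidal : H.Monoidal
  /-- `H_*` is additive -/
  additive : H.Additive
  /-- `H_*(M)` is finite-dimensional -/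
  finite : ∀ M, Module.Finite F (H.obj M)
  /-- the subspace `H_i(M)` of `H_*(M)` -/
  gr : ∀ M : C, ℤ → Submodule F (H.obj M)
  /-- `H_*(M)` is the direct sum of the `H_i(M)` -/
  isInternal : ∀ M, DirectSum.IsInternal (gr M)
  /-- morphisms preserve the grading -/
  map_gr : ∀ {M N : C} (f : M ⟶ N) (i : ℤ) (x : H.obj M), x ∈ gr M i → (H.map f).hom x ∈ gr N i
  /-- cross products add degrees -/
  mul_gr : ∀ (M N : C) (i j : ℤ) (x : H.obj M) (y : H.obj N), x ∈ gr M i → y ∈ gr N j →
    (Functor.LaxMonoidal.μ H M N).hom (x ⊗ₜ[F] y) ∈ gr (M ⊗ N) (i + j)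
  /-- cross products are graded commutative -/
  koszul : ∀ (M N : C) (i j : ℤ) (x : H.obj M) (y : H.obj N), x ∈ gr M i → y ∈ gr N j →
    (H.map (β_ M N).hom).hom ((Functor.LaxMonoidal.μ H M N).hom (x ⊗ₜ[F] y)) =
      (i * j).negOnePow • (Functor.LaxMonoidal.μ H N M).hom (y ⊗ₜ[F] x)
  /-- `H_*(1(l))` is concentrated in degree `2l` -/
  tate : ∀ l, gr (T l) (2 * l) = ⊤
  /-- `H_*(1(l))` is one-dimensional -/
  tateRank : ∀ l, Module.finrank F (H.obj (T l)) = 1

variable {C : Type u} [Category.{v} C] [Preadditive C] [Linear ℚ C]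
  [MonoidalCategory C] [SymmetricCategory C] [RigidCategory C] {F : Type w} [Field F]

/-- The Chow group `CH_l(M) = Hom(1(l), M)`. -/
abbrev MotivicHomology.CH (W : MotivicHomology C F) (l : ℤ) (M : C) : Type v := W.T l ⟶ M

/-- The subspace `CH_l(M)_hom` of classes with zero image in homology. -/
def MotivicHomology.CHhom (W : MotivicHomology C F) (l : ℤ) (M : C) :
    Submodule ℚ (W.CH l M) where
  carrier := {α | W.H.map α = 0}
  add_mem' := by
    intro a b ha hb
    have := W.additive
    simp only [Set.mem_ofPred_eq] at *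
    rw [Functor.map_add, ha, hb, add_zero]
  zero_mem' := by
    have := W.additive
    simp only [Set.mem_ofPred_eq, Functor.map_zero]
  smul_mem' := by
    intro q a ha
    simp only [Set.mem_ofPred_eq] at *
    have h : a ≫ (q • 𝟙 M) = q • a := by simp
    rw [← h, Functor.map_comp, ha, zero_comp]

/-- A Chow-Kunneth decomposition `M = ⊕ M_i`, given by the corresponding complete system of
orthogonal idempotents `p i` of `M` (so `M_i` is the image of `p i`), almost all of them zero;
the condition `H_*(M_i) = H_i(M)` says that `p i` acts on `H_j(M)` as the identity for `j = i`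
and as zero for `j ≠ i`. -/
structure CK (W : MotivicHomology C F) (M : C) where
  /-- the projector onto `M_i` -/
  p : ℤ → (M ⟶ M)
  idem : ∀ i, p i ≫ p i = p i
  orth : ∀ i j, i ≠ j → p i ≫ p j = 0
  finite : (Function.support p).Finite
  sum : ∑ᶠ i, p i = 𝟙 M
  homology : ∀ (i j : ℤ) (x : W.H.obj M), x ∈ W.gr M j →
    (W.H.map (p i)).hom x = if j = i then x else 0

variable {W : MotivicHomology C F} {M : C}

/-- `CH_l(M_i)`, as a subspace of `CH_l(M)`. -/
def CK.CH (D : CK W M) (l i : ℤ) : Submodule ℚ (W.CH l M) :=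
  LinearMap.range (Linear.rightComp ℚ (W.T l) (D.p i))

/-- `F^ν CH_l(M) = ⊕_{i ≥ 2l + ν} CH_l(M_i)`. -/
def CK.Fil (D : CK W M) (l ν : ℤ) : Submodule ℚ (W.CH l M) :=
  ⨆ i : {i : ℤ // 2 * l + ν ≤ i}, D.CH l i

/-- (B) for the decomposition `D`: `CH_l(M_i) = 0` whenever `i < 2l`. -/
def CK.MurreB (D : CK W M) : Prop := ∀ l i : ℤ, i < 2 * l → D.CH l i = ⊥

/-- (D) for the decomposition `D`: `CH_l(M_{2l})_hom = 0` for all `l`. -/
def CK.MurreD (D : CK W M) : Prop := ∀ l : ℤ, D.CH l (2 * l) ⊓ W.CHhom l M = ⊥

variable (W M) in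
/-- (A): `M` has a Chow-Kunneth decomposition. -/
def MurreA : Prop := Nonempty (CK W M)

variable (W M) in
/-- (C): the filtration does not depend on the Chow-Kunneth decomposition. -/
def MurreC : Prop := ∀ D D' : CK W M, ∀ l ν : ℤ, D.Fil l ν = D'.Fil l ν

end Pool.Agent.Helper15.Murre
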