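import Mathlib
import Pool.Agent.Helper15.Murre.Defs

open CategoryTheory MonoidalCategory Limits TensorProduct

universe w v' u' v u

namespace Pool.Agent.Helper15.Murre

variable {C : Type u} [Category.{v} C] [Preadditive C] [Linear ℚ C]
  [MonoidalCategory C] [SymmetricCategory C] [RigidCategory C] {F : Type w} [Field F]
variable {C' : Type u'} [Category.{v'} C'] [Preadditive C'] [Linear ℚ C']
  [MonoidalCategory C'] [SymmetricCategory C'] [RigidCategory C']

/-- `Φ` is the base change functor `X ↦ X_K` along a field extension `K/k`, in the formal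
setting: `C` stands for the motives over `k`, `C'` for the motives over `K`. -/
structure BaseChange (W : MotivicHomology C F) (W' : MotivicHomology C' F) (Φ : C ⥤ C') where
  additive : Φ.Additive
  /-- `CH(X)_ℚ → CH(X_K)_ℚ` is injective -/
  faithful : Φ.Faithful
  /-- Tate objects are compatible with base change -/
  tate : ∀ l, W'.T l ≅ Φ.obj (W.T l)
  /-- homology is compatible with base change -/
  comparison : W.H ≅ Φ ⋙ W'.H
  comparison_gr : ∀ (X : C) (i : ℤ) (x : W.H.obj X),
    x ∈ W.gr X i ↔ (comparison.hom.app X).hom x ∈ W'.gr (Φ.obj X) i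

/-- If `N_Ω` has a Chow-Kunneth decomposition, then the Kunneth projectors of `N` are defined
over `k`, up to homological equivalence (specialize to an algebraic closure of `k`, then average
over the conjugates). -/
def KunnethDescends (W' : MotivicHomology C' F) (Φ : C ⥤ C') : Prop :=
  ∀ (N : C) (D : CK W' (Φ.obj N)) (i : ℤ), ∃ y : N ⟶ N,
    W'.H.map (Φ.map y) = W'.H.map (D.p i)

end Pool.Agent.Helper15.Murre
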