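import Mathlib
import Pool.Agent.Helper15.Murre.Defs

open CategoryTheory MonoidalCategory Limits TensorProduct

universe w v u

namespace Pool.Agent.Helper15.Murre

variable {C : Type u} [Category.{v} C] [Preadditive C] [Linear ℚ C]
  [MonoidalCategory C] [SymmetricCategory C] [RigidCategory C] {F : Type w} [Field F]
variable {W : MotivicHomology C F} {M : C}

lemma MotivicHomology.map_comp_apply (W : MotivicHomology C F) {X Y Z : C} (f : X ⟶ Y)
    (g : Y ⟶ Z) (x : W.H.obj X) :
    (W.H.map (f ≫ g)).hom x = (W.H.map g).hom ((W.H.map f).hom x) := by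
  rw [Functor.map_comp]; rfl

lemma MotivicHomology.map_id_apply (W : MotivicHomology C F) {X : C} (x : W.H.obj X) :
    (W.H.map (𝟙 X)).hom x = x := by
  rw [CategoryTheory.Functor.map_id]; rfl

lemma MotivicHomology.map_add_apply (W : MotivicHomology C F) {X Y : C} (f g : X ⟶ Y)
    (x : W.H.obj X) : (W.H.map (f + g)).hom x = (W.H.map f).hom x + (W.H.map g).hom x := by
  have := W.additive
  rw [Functor.map_add]; rfl

lemma MotivicHomology.map_sub_apply (W : MotivicHomology C F) {X Y : C} (f g : X ⟶ Y)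
    (x : W.H.obj X) : (W.H.map (f - g)).hom x = (W.H.map f).hom x - (W.H.map g).hom x := by
  have := W.additive
  rw [Functor.map_sub]; rfl

lemma MotivicHomology.map_zero' (W : MotivicHomology C F) {X Y : C} :
    W.H.map (0 : X ⟶ Y) = 0 := by
  have := W.additive
  exact Functor.map_zero _ _ _

lemma MotivicHomology.map_zero_apply (W : MotivicHomology C F) {X Y : C} (x : W.H.obj X) :
    (W.H.map (0 : X ⟶ Y)).hom x = 0 := by
  rw [W.map_zero']; rfl

/-- homogeneous elements span the homology -/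
lemma MotivicHomology.induction (W : MotivicHomology C F) {X : C} {P : W.H.obj X → Prop}
    (h1 : ∀ j, ∀ x ∈ W.gr X j, P x) (h2 : ∀ x y, P x → P y → P (x + y)) (x : W.H.obj X) :
    P x := by
  have h := (W.isInternal X).submodule_iSup_eq_top
  have hx : x ∈ ⨆ i, W.gr X i := by rw [h]; trivial
  induction hx using Submodule.iSup_induction' with
  | mem j x hx => exact h1 j x hx
  | zero => exact h1 0 0 (Submodule.zero_mem _)
  | add x y _ _ hx hy => exact h2 x y hx hy

lemma MotivicHomology.hext (W : MotivicHomology C F) {X : C} {V : ModuleCat.{w} F}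
    {f g : W.H.obj X ⟶ V} (h : ∀ j, ∀ x ∈ W.gr X j, f.hom x = g.hom x) : f = g := by
  ext x
  induction x using W.induction with
  | h1 j x hx => exact h j x hx
  | h2 x y hx hy => rw [map_add, map_add, hx, hy]

lemma MotivicHomology.eq_zero_of_mem (W : MotivicHomology C F) {X : C} {i j : ℤ} (hij : i ≠ j)
    {x : W.H.obj X} (hi : x ∈ W.gr X i) (hj : x ∈ W.gr X j) : x = 0 := by
  have h := (W.isInternal X).submodule_iSupIndep
  have := h.pairwiseDisjoint hij
  exact (Submodule.disjoint_def.1 this) x hi hj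

/-- a finite set of indices outside which all projectors vanish -/
noncomputable def CK.s (D : CK W M) : Finset ℤ := D.finite.toFinset

lemma CK.p_eq_zero (D : CK W M) {i : ℤ} (h : i ∉ D.s) : D.p i = 0 := by
  by_contra h'
  exact h (by simpa [CK.s] using h')

lemma CK.sum_s (D : CK W M) : ∑ i ∈ D.s, D.p i = 𝟙 M := by
  rw [← D.sum, finsum_eq_sum _ D.finite]; rfl

lemma CK.comp_left (D : CK W M) {X : C} (f : X ⟶ M) : f = ∑ i ∈ D.s, f ≫ D.p i := by
  rw [← Preadditive.comp_sum, D.sum_s, Category.comp_id]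

lemma CK.comp_right (D : CK W M) {X : C} (f : M ⟶ X) : f = ∑ i ∈ D.s, D.p i ≫ f := by
  rw [← Preadditive.sum_comp, D.sum_s, Category.id_comp]

lemma CK.ext_comp (D : CK W M) {X : C} {f g : X ⟶ M} (h : ∀ i, f ≫ D.p i = g ≫ D.p i) :
    f = g := by
  rw [D.comp_left f, D.comp_left g]
  exact Finset.sum_congr rfl fun i _ => h i

lemma CK.ext_comp' (D : CK W M) {X : C} {f g : M ⟶ X} (h : ∀ i, D.p i ≫ f = D.p i ≫ g) :
    f = g := by
  rw [D.comp_right f, D.comp_right g]
  exact Finset.sum_congr rfl fun i _ => h i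

lemma CK.ext_both (D : CK W M) {f g : M ⟶ M}
    (h : ∀ i j, D.p i ≫ f ≫ D.p j = D.p i ≫ g ≫ D.p j) : f = g := by
  apply D.ext_comp'
  intro i
  apply D.ext_comp
  intro j
  simpa using h i j

lemma CK.mem_CH (D : CK W M) {l i : ℤ} {α : W.CH l M} :
    α ∈ D.CH l i ↔ α ≫ D.p i = α := by
  constructor
  · rintro ⟨β, rfl⟩
    simp [Linear.rightComp, D.idem]
  · intro h
    exact ⟨α, h⟩

lemma CK.comp_p_mem (D : CK W M) {l : ℤ} (α : W.CH l M) (i : ℤ) : α ≫ D.p i ∈ D.CH l i := by
  rw [D.mem_CH, Category.assoc, D.idem]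

lemma CK.MurreB_iff (D : CK W M) :
    D.MurreB ↔ ∀ l i : ℤ, i < 2 * l → ∀ α : W.CH l M, α ≫ D.p i = 0 := by
  constructor
  · intro h l i hi α
    have := D.comp_p_mem α i
    rw [h l i hi] at this
    simpa using this
  · intro h l i hi
    rw [eq_bot_iff]
    intro α hα
    rw [D.mem_CH] at hα
    have := h l i hi α
    rw [hα] at this
    simpa using this

lemma CK.MurreD_iff (D : CK W M) :
    D.MurreD ↔ ∀ l : ℤ, ∀ α : W.CH l M, α ≫ D.p (2 * l) = α → W.H.map α = 0 →
      α = 0 := by
  constructor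
  · intro h l α h1 h2
    have : α ∈ D.CH l (2 * l) ⊓ W.CHhom l M := ⟨D.mem_CH.2 h1, h2⟩
    rw [h l] at this
    simpa using this
  · intro h l
    rw [eq_bot_iff]
    rintro α ⟨h1, h2⟩
    have := h l α (D.mem_CH.1 h1) h2
    simpa using this

/-- description of the filtration: `α ∈ F^ν` iff its components of index `< 2l+ν` vanish -/
lemma CK.mem_Fil (D : CK W M) {l ν : ℤ} {α : W.CH l M} :
    α ∈ D.Fil l ν ↔ ∀ i, i < 2 * l + ν → α ≫ D.p i = 0 := by
  constructor
  · intro h i hi
    unfold CK.Fil at h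
    induction h using Submodule.iSup_induction' with
    | mem j x hx =>
      rw [D.mem_CH] at hx
      rw [← hx, Category.assoc, D.orth _ _ (by have := j.2; omega), comp_zero]
    | zero => simp
    | add x y _ _ hx hy => rw [Preadditive.add_comp, hx, hy, add_zero]
  · intro h
    rw [D.comp_left α]
    apply Submodule.sum_mem
    intro i _
    by_cases hi : i < 2 * l + ν
    · rw [h i hi]; exact Submodule.zero_mem _
    · exact Submodule.mem_iSup_of_mem ⟨i, by omega⟩ (D.comp_p_mem α i)

lemma MurreC_iff : MurreC W M ↔ ∀ D D' : CK W M, ∀ l i j : ℤ, j < i → ∀ α : W.CH l M,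
    α ≫ D.p i ≫ D'.p j = 0 := by
  constructor
  · intro h D D' l i j hij α
    have h1 : α ≫ D.p i ∈ D.Fil l (i - 2 * l) := by
      rw [D.mem_Fil]
      intro a ha
      rw [Category.assoc, D.orth _ _ (by omega), comp_zero]
    rw [h D D' l, D'.mem_Fil] at h1
    simpa using h1 j (by omega)
  · intro h
    have key : ∀ D D' : CK W M, ∀ l ν : ℤ, D.Fil l ν ≤ D'.Fil l ν := by
      intro D D' l ν α hα
      rw [D.mem_Fil] at hα
      rw [D'.mem_Fil]
      intro j hj
      rw [D.comp_left α, Preadditive.sum_comp]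
      apply Finset.sum_eq_zero
      intro i _
      by_cases hi : i < 2 * l + ν
      · rw [hα i hi, zero_comp]
      · rw [Category.assoc]
        exact h D D' l i j (by omega) α
    intro D D' l ν
    exact le_antisymm (key D D' l ν) (key D' D l ν)

end Pool.Agent.Helper15.Murre
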