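import Mathlib
import Pool.Agent.Helper15.Murre.Core

open CategoryTheory MonoidalCategory Limits TensorProduct

universe w v u

namespace Pool.Agent.Helper15.Murre

variable {C : Type u} [Category.{v} C] [Preadditive C] [Linear ℚ C]
  [MonoidalCategory C] [SymmetricCategory C] [RigidCategory C] {F : Type w} [Field F]
variable {W : MotivicHomology C F} {M : C}

/-- no nonzero maps `M_i → M_j` for `j < i` -/
def CK.Tri (D : CK W M) : Prop := ∀ i j, j < i → ∀ f : M ⟶ M, D.p i ≫ f ≫ D.p j = 0

/-- no `M_i` has a nonzero direct summand with zero homology -/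
def CK.NoPh (D : CK W M) : Prop := ∀ i (t : M ⟶ M), D.p i ≫ t = t → t ≫ D.p i = t →
  t ≫ t = t → W.H.map t = 0 → t = 0

lemma CK.pow_strict (D : CK W M) (X : End M)
    (h : ∀ a b, b ≤ a → D.p a ≫ X.asHom ≫ D.p b = 0) (m : ℕ) :
    ∀ a b : ℤ, b < a + m → D.p a ≫ (X ^ m : End M).asHom ≫ D.p b = 0 := by
  induction m with
  | zero =>
    intro a b hab
    have : (X ^ 0 : End M).asHom = 𝟙 M := rfl
    rw [this, Category.id_comp, D.orth _ _ (by simp at hab; omega)]
  | succ m ih =>
    intro a b hab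
    have : (X ^ (m + 1) : End M).asHom = (X ^ m : End M).asHom ≫ X.asHom := by
      rw [pow_succ']; rfl
    rw [this, Category.assoc, ← Category.assoc (D.p a), D.comp_left (D.p a ≫ (X ^ m : End M).asHom),
      Preadditive.sum_comp]
    apply Finset.sum_eq_zero
    intro c _
    by_cases hc : c < a + m
    · have := ih a c hc
      simp only [Category.assoc]
      rw [← Category.assoc (D.p a), ← Category.assoc (D.p a ≫ _), Category.assoc (D.p a), this,
        zero_comp]
    · have := h c b (by push_cast at hab; omega)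
      simp only [Category.assoc]
      rw [this, comp_zero, comp_zero]

lemma CK.exists_bounds (D : CK W M) : ∃ A B : ℤ, ∀ i, D.p i ≠ 0 → A ≤ i ∧ i ≤ B := by
  by_cases hs : D.s.Nonempty
  · refine ⟨D.s.min' hs, D.s.max' hs, fun i hi => ?_⟩
    have : i ∈ D.s := by by_contra h; exact hi (D.p_eq_zero h)
    exact ⟨D.s.min'_le _ this, D.s.le_max' _ this⟩
  · refine ⟨0, 0, fun i hi => ?_⟩
    exfalso
    apply hi
    apply D.p_eq_zero
    intro h
    exact hs ⟨i, h⟩

lemma CK.nilpotent_of_strict (D : CK W M) (X : End M)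
    (h : ∀ a b, b ≤ a → D.p a ≫ X.asHom ≫ D.p b = 0) : IsNilpotent X := by
  obtain ⟨A, B, hAB⟩ := D.exists_bounds
  refine ⟨(B - A + 1).toNat, ?_⟩
  have key : (X ^ ((B - A + 1).toNat) : End M).asHom = 0 := by
    apply D.ext_both
    intro i j
    rw [zero_comp, comp_zero]
    by_cases hi : D.p i = 0
    · rw [hi, zero_comp]
    by_cases hj : D.p j = 0
    · rw [hj, comp_zero, comp_zero]
    have := hAB i hi
    have := hAB j hj
    apply D.pow_strict X h
    have := Int.self_le_toNat (B - A + 1)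
    omega
  exact key

/-- the diagonal part of an endomorphism -/
noncomputable def CK.diag (D : CK W M) (f : M ⟶ M) : M ⟶ M := ∑ i ∈ D.s, D.p i ≫ f ≫ D.p i

lemma CK.p_comp_diag (D : CK W M) (f : M ⟶ M) (i : ℤ) :
    D.p i ≫ D.diag f = D.p i ≫ f ≫ D.p i := by
  unfold CK.diag
  rw [Preadditive.comp_sum]
  by_cases hi : i ∈ D.s
  · rw [Finset.sum_eq_single_of_mem i hi]
    · rw [← Category.assoc, D.idem]
    · intro j _ hj
      rw [← Category.assoc, D.orth _ _ hj.symm, zero_comp]
  · rw [D.p_eq_zero hi]; simp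

lemma CK.diag_comp_p (D : CK W M) (f : M ⟶ M) (i : ℤ) :
    D.diag f ≫ D.p i = D.p i ≫ f ≫ D.p i := by
  unfold CK.diag
  rw [Preadditive.sum_comp]
  by_cases hi : i ∈ D.s
  · rw [Finset.sum_eq_single_of_mem i hi]
    · simp only [Category.assoc, D.idem]
    · intro j _ hj
      simp only [Category.assoc]
      rw [D.orth _ _ hj, comp_zero, comp_zero]
  · rw [D.p_eq_zero hi]; simp

lemma CK.Tri.diag_block {D : CK W M} (h : D.Tri) (f g : M ⟶ M) (i : ℤ) :
    D.p i ≫ f ≫ g ≫ D.p i = D.p i ≫ f ≫ D.p i ≫ g ≫ D.p i := by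
  have : D.p i ≫ f ≫ g ≫ D.p i = ∑ j ∈ D.s, D.p i ≫ f ≫ D.p j ≫ g ≫ D.p i := by
    conv_lhs => rw [D.comp_right (g ≫ D.p i)]
    simp only [Preadditive.comp_sum]
  rw [this]
  by_cases hi : i ∈ D.s
  · rw [Finset.sum_eq_single_of_mem i hi]
    intro j _ hj
    rcases lt_or_gt_of_ne hj with hlt | hgt
    · have := h i j hlt f
      rw [← Category.assoc f, ← Category.assoc (D.p i), this, zero_comp]
    · have := h j i hgt g
      rw [this, comp_zero, comp_zero]
  · rw [D.p_eq_zero hi]; simp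

end Pool.Agent.Helper15.Murre
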