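import Mathlib
import Pool.Agent.Helper15.Murre.Tri

open CategoryTheory MonoidalCategory Limits TensorProduct

universe w v u

namespace Pool.Agent.Helper15.Murre

variable {C : Type u} [Category.{v} C] [Preadditive C] [Linear ℚ C]
  [MonoidalCategory C] [SymmetricCategory C] [RigidCategory C] {F : Type w} [Field F]
variable {W : MotivicHomology C F} {M N : C}

lemma CK.Tri.zero3 {D : CK W M} (h : D.Tri) {a b : ℤ} (hb : b ≠ a) (f g : M ⟶ M) :
    D.p a ≫ f ≫ D.p b ≫ g ≫ D.p a = 0 := by
  rcases lt_or_gt_of_ne hb with hlt | hgt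
  · have := h a b hlt f
    rw [← Category.assoc f, ← Category.assoc (D.p a), this, zero_comp]
  · have := h b a hgt g
    rw [this]; simp

/-- the ideal of endomorphisms of a direct summand whose diagonal blocks vanish -/
def CK.Tri.ideal {D : CK W M} (h : D.Tri) (R : Retract N M) : TwoSidedIdeal (End N) :=
  TwoSidedIdeal.mk' {x : End N | ∀ a, D.p a ≫ R.r ≫ x.asHom ≫ R.i ≫ D.p a = 0}
    (by intro a; simp [End.asHom])
    (by
      intro x y hx hy a
      have : (x + y : End N).asHom = x.asHom + y.asHom := rfl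
      rw [this, Preadditive.add_comp, Preadditive.comp_add, Preadditive.comp_add, hx a, hy a,
        add_zero])
    (by
      intro x hx a
      have : (-x : End N).asHom = - x.asHom := rfl
      rw [this, Preadditive.neg_comp, Preadditive.comp_neg, Preadditive.comp_neg, hx a, neg_zero])
    (by
      intro x y hy a
      have h1 : (x * y : End N).asHom = y.asHom ≫ x.asHom := rfl
      have h2 := h.diag_block (R.r ≫ y.asHom ≫ R.i) (R.r ≫ x.asHom ≫ R.i) a
      have h3 := hy a
      simp only [Category.assoc, Retract.retract_assoc] at h2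
      rw [h1]
      simp only [Category.assoc]
      rw [h2, ← Category.assoc R.i, ← Category.assoc y.asHom, ← Category.assoc R.r,
        ← Category.assoc (D.p a), h3, zero_comp])
    (by
      intro x y hx a
      have h1 : (x * y : End N).asHom = y.asHom ≫ x.asHom := rfl
      have h2 := h.diag_block (R.r ≫ y.asHom ≫ R.i) (R.r ≫ x.asHom ≫ R.i) a
      have h3 := hx a
      simp only [Category.assoc, Retract.retract_assoc] at h2
      rw [h1]
      simp only [Category.assoc]
      rw [h2, h3]; simp)

lemma CK.Tri.mem_ideal {D : CK W M} (h : D.Tri) (R : Retract N M) (x : End N) :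
    x ∈ h.ideal R ↔ ∀ a, D.p a ≫ R.r ≫ x.asHom ≫ R.i ≫ D.p a = 0 := by
  unfold CK.Tri.ideal
  rw [TwoSidedIdeal.mem_mk']
  rfl

lemma CK.Tri.nilpotent_of_mem {D : CK W M} (h : D.Tri) (R : Retract N M) (x : End N)
    (hx : x ∈ h.ideal R) : IsNilpotent x := by
  rw [h.mem_ideal] at hx
  let X : End M := R.r ≫ x.asHom ≫ R.i
  have hX : IsNilpotent X := by
    apply D.nilpotent_of_strict
    intro a b hab
    rcases eq_or_lt_of_le hab with rfl | hlt
    · simpa [X, End.asHom] using hx b
    · exact h a b hlt X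
  obtain ⟨m, hm⟩ := hX
  refine ⟨m, ?_⟩
  have key : ∀ m : ℕ, R.i ≫ (X ^ m : End M).asHom = (x ^ m : End N).asHom ≫ R.i := by
    intro m
    induction m with
    | zero =>
      have h1 : (X ^ 0 : End M).asHom = 𝟙 M := rfl
      have h2 : (x ^ 0 : End N).asHom = 𝟙 N := rfl
      rw [h1, h2]; simp
    | succ m ih =>
      have h1 : (X ^ (m + 1) : End M).asHom = (X ^ m : End M).asHom ≫ X.asHom := by
        rw [pow_succ']; rfl
      have h2 : (x ^ (m + 1) : End N).asHom = (x ^ m : End N).asHom ≫ x.asHom := by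
        rw [pow_succ']; rfl
      rw [h1, h2, ← Category.assoc, ih]
      simp [X, End.asHom]
  have h1 := key m
  have h2 : (X ^ m : End M).asHom = 0 := hm
  rw [h2, comp_zero] at h1
  have h3 : (x ^ m : End N).asHom = 0 := by
    have := congrArg (· ≫ R.r) h1
    simpa using this.symm
  exact h3

lemma CK.Tri.H_of_mem {D : CK W M} (h : D.Tri) (R : Retract N M) (x : End N)
    (hx : x ∈ h.ideal R) : W.H.map x.asHom = 0 := by
  rw [h.mem_ideal] at hx
  apply W.hext
  intro j z hz
  have hz' : (W.H.map R.i).hom z ∈ W.gr M j := W.map_gr _ _ _ hz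
  have h1 := congrArg (fun f => (W.H.map f).hom ((W.H.map R.i).hom z)) (hx j)
  have h2 : (W.H.map (R.r ≫ x.asHom ≫ R.i)).hom ((W.H.map R.i).hom z) ∈ W.gr M j :=
    W.map_gr _ _ _ hz'
  simp only [W.map_comp_apply, W.map_zero_apply] at h1 h2
  rw [D.homology j j _ hz', if_pos rfl, D.homology j j _ h2, if_pos rfl] at h1
  have h3 : x.asHom = R.i ≫ (R.r ≫ x.asHom ≫ R.i) ≫ R.r := by simp
  rw [h3]
  simp only [W.map_comp_apply]
  rw [h1, map_zero]
  rfl

/-- **(A) for direct summands**: if there are no maps `M_i → M_j` for `j < i`, then every direct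
summand of `M` has a Chow-Kunneth decomposition. -/
theorem CK.Tri.exists_CK {D : CK W M} (h : D.Tri) (R : Retract N M) : Nonempty (CK W N) := by
  classical
  let J := h.ideal R
  let φ := J.ringCon.mk'
  have hker : ∀ x : End N, φ x = 0 ↔ x ∈ J := by
    intro x
    have h1 := TwoSidedIdeal.ker_ringCon_mk' J
    rw [← TwoSidedIdeal.mem_ker, h1]
  have heq : ∀ x y : End N, φ x = φ y ↔ x - y ∈ J := by
    intro x y
    rw [← hker, map_sub, sub_eq_zero]
  let x : ℤ → End N := fun n => R.i ≫ D.p n ≫ R.r
  let I := {n // n ∈ D.s}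
  have hcomp : ∀ n m : ℤ, x n * x m - (if n = m then x n else 0) ∈ J := by
    intro n m
    rw [h.mem_ideal]
    intro a
    have h1 : (x n * x m - (if n = m then x n else 0) : End N).asHom
        = (R.i ≫ D.p m ≫ R.r) ≫ (R.i ≫ D.p n ≫ R.r)
          - (if n = m then R.i ≫ D.p n ≫ R.r else 0) := by
      split_ifs <;> rfl
    rw [h1]
    simp only [Preadditive.sub_comp, Preadditive.comp_sub, Category.assoc]
    have z1 : ∀ b, b ≠ a → ∀ f g : M ⟶ M, D.p a ≫ f ≫ D.p b ≫ g ≫ D.p a = 0 :=
      fun b hb f g => h.zero3 hb f g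
    have d1 : ∀ f g : M ⟶ M, D.p a ≫ f ≫ D.p a ≫ g ≫ D.p a = D.p a ≫ f ≫ g ≫ D.p a :=
      fun f g => (h.diag_block f g a).symm
    by_cases hm : m = a
    · subst hm
      by_cases hn : n = m
      · subst hn
        simp only [if_true, Category.assoc]
        have e1 := d1 (R.r ≫ R.i) (R.r ≫ R.i ≫ D.p n ≫ R.r ≫ R.i)
        have e2 := d1 (R.r ≫ R.i ≫ R.r ≫ R.i) (R.r ≫ R.i)
        have e3 := d1 (R.r ≫ R.i) (R.r ≫ R.i)
        simp only [Category.assoc, Retract.retract_assoc] at e1 e2 e3
        rw [e1, e3, sub_self]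
      · have e1 := z1 n hn (R.r ≫ R.i ≫ D.p m ≫ R.r ≫ R.i) (R.r ≫ R.i)
        simp only [Category.assoc] at e1
        rw [e1, if_neg hn]
        simp
    · have e1 := z1 m hm (R.r ≫ R.i) (R.r ≫ R.i ≫ D.p n ≫ R.r ≫ R.i)
      simp only [Category.assoc] at e1
      rw [e1]
      by_cases hn : n = m
      · subst hn
        have e2 := z1 n hm (R.r ≫ R.i) (R.r ≫ R.i)
        simp only [Category.assoc] at e2
        simp only [if_true, Category.assoc]
        rw [e2, sub_self]
      · rw [if_neg hn]
        simp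
  have hx1 : ∑ n ∈ D.s, x n = 1 := by
    have : (∑ n ∈ D.s, x n : End N) = R.i ≫ (∑ n ∈ D.s, D.p n) ≫ R.r := by
      rw [Preadditive.sum_comp, Preadditive.comp_sum]
    rw [this, D.sum_s]
    simp
  have hco : CompleteOrthogonalIdempotents (fun n : I => φ (x n)) := by
    refine ⟨⟨?_, ?_⟩, ?_⟩
    · intro n
      change φ (x n) * φ (x n) = φ (x n)
      rw [← map_mul, heq]
      simpa using hcomp n n
    · intro n m hnm
      change φ (x n) * φ (x m) = 0
      rw [← map_mul, ← map_zero φ, heq]
      have := hcomp n m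
      rwa [if_neg (by intro h; exact hnm (Subtype.ext h))] at this
    · rw [← map_sum, ← map_one φ]
      congr 1
      rw [← hx1]
      exact (Finset.sum_coe_sort D.s x)
  obtain ⟨e, he, hφe⟩ := CompleteOrthogonalIdempotents.lift_of_isNilpotent_ker φ
    (fun y hy => h.nilpotent_of_mem R y ((hker y).1 hy)) hco (fun n => ⟨x n, rfl⟩)
  have hex : ∀ n : I, e n - x n ∈ J := by
    intro n
    rw [← heq]
    exact congrFun hφe n
  have hH : ∀ (n : I), W.H.map (e n).asHom = W.H.map (x n).asHom := by
    intro n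
    have := W.additive
    have h1 := h.H_of_mem R _ (hex n)
    have h2 : (e n - x n : End N).asHom = (e n).asHom - (x n).asHom := rfl
    rw [h2, Functor.map_sub, sub_eq_zero] at h1
    exact h1
  refine ⟨⟨fun n => if hn : n ∈ D.s then (e ⟨n, hn⟩).asHom else 0, ?_, ?_, ?_, ?_, ?_⟩⟩
  · intro n
    split_ifs with hn
    · exact he.idem ⟨n, hn⟩
    · simp
  · intro n m hnm
    split_ifs with hn hm hm
    · exact he.ortho (i := ⟨m, hm⟩) (j := ⟨n, hn⟩) (by intro h; exact hnm (congrArg Subtype.val h).symm)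
    all_goals simp
  · refine D.s.finite_toSet.subset ?_
    intro n hn
    by_contra h'
    apply hn
    simp only [Finset.mem_coe] at h'
    simp [h']
  · rw [finsum_eq_sum_of_support_subset (s := D.s)]
    · rw [← Finset.sum_coe_sort]
      have h1 : ∀ n : {n // n ∈ D.s}, (if hn : (n : ℤ) ∈ D.s then (e ⟨n, hn⟩).asHom else 0)
          = (e n).asHom := by
        intro n
        simp [n.2]
      simp only [h1]
      exact he.complete
    · intro n hn
      by_contra h'
      apply hn
      simp only [Finset.mem_coe] at h'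
      simp [h']
  · intro n j z hz
    have hxH : (W.H.map (x n).asHom).hom z = if j = n then z else 0 := by
      change (W.H.map (R.i ≫ D.p n ≫ R.r)).hom z = _
      simp only [W.map_comp_apply]
      rw [D.homology n j _ (W.map_gr _ _ _ hz)]
      split_ifs with hjn
      · rw [← W.map_comp_apply, R.retract, W.map_id_apply]
      · rw [map_zero]
    by_cases hn : n ∈ D.s
    · rw [dif_pos hn, hH ⟨n, hn⟩, hxH]
    · rw [dif_neg hn, ← hxH]
      have : (x n).asHom = 0 := by
        change R.i ≫ D.p n ≫ R.r = 0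
        rw [D.p_eq_zero hn]; simp
      rw [this]

end Pool.Agent.Helper15.Murre
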