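import Mathlib
import Pool.Agent.Helper15.Murre.Lift

open CategoryTheory MonoidalCategory Limits TensorProduct

universe w v u

namespace Pool.Agent.Helper15.Murre

variable {C : Type u} [Category.{v} C] [Preadditive C] [Linear ℚ C]
  [MonoidalCategory C] [SymmetricCategory C] [RigidCategory C] {F : Type w} [Field F]
variable {W : MotivicHomology C F} {M N : C}

/-- the off-weight diagonal blocks of a pure summand vanish -/
lemma CK.Tri.block_zero {D : CK W M} (h : D.Tri) (hph : D.NoPh) (R : Retract N M) (E : CK W N)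
    {a n : ℤ} (han : a ≠ n) : D.p a ≫ R.r ≫ E.p n ≫ R.i ≫ D.p a = 0 := by
  apply hph a
  · rw [← Category.assoc, D.idem]
  · simp only [Category.assoc, D.idem]
  · have h1 := h.diag_block (R.r ≫ E.p n ≫ R.i) (R.r ≫ E.p n ≫ R.i) a
    simp only [Category.assoc, Retract.retract_assoc] at h1
    simp only [Category.assoc]
    rw [← Category.assoc (D.p a) (D.p a), D.idem, ← h1, ← Category.assoc (E.p n) (E.p n), E.idem]
  · apply W.hext
    intro j x hx
    simp only [W.map_comp_apply]
    rw [D.homology a j x hx]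
    split_ifs with h1
    · rw [E.homology n j _ (W.map_gr _ _ _ hx), if_neg (fun h2 => han (h1.symm.trans h2))]
      simp
    · simp

/-- every projector of every Chow-Kunneth decomposition of a direct summand of `M` factors
through the corresponding projector of `M` -/
lemma CK.Tri.factor {D : CK W M} (h : D.Tri) (hph : D.NoPh) (R : Retract N M) (E : CK W N)
    (n : ℤ) : ∃ (f : N ⟶ M) (g : M ⟶ N), E.p n = f ≫ D.p n ≫ g := by
  let c : End N := E.p n - E.p n ≫ R.i ≫ D.p n ≫ R.r ≫ E.p n
  have hc : c ∈ h.ideal R := by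
    rw [h.mem_ideal]
    intro a
    have h1 : c.asHom = E.p n - E.p n ≫ R.i ≫ D.p n ≫ R.r ≫ E.p n := rfl
    rw [h1]
    simp only [Preadditive.sub_comp, Preadditive.comp_sub, Category.assoc]
    by_cases han : a = n
    · subst han
      have h2 := h.diag_block (R.r ≫ E.p a ≫ R.i) (R.r ≫ E.p a ≫ R.i) a
      simp only [Category.assoc, Retract.retract_assoc] at h2
      rw [← h2, ← Category.assoc (E.p a) (E.p a), E.idem, sub_self]
    · have h2 := h.zero3 (Ne.symm han) (R.r ≫ E.p n ≫ R.i) (R.r ≫ E.p n ≫ R.i)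
      simp only [Category.assoc] at h2
      rw [h2, h.block_zero hph R E han, sub_zero]
  obtain ⟨m, hm⟩ := h.nilpotent_of_mem R c hc
  -- `E_n = (E_n - c) (1 + c + ... + c^(m-1))`
  have hEc : E.p n ≫ c.asHom = c.asHom := by
    change E.p n ≫ (E.p n - E.p n ≫ R.i ≫ D.p n ≫ R.r ≫ E.p n) = _
    rw [Preadditive.comp_sub, E.idem, ← Category.assoc (E.p n) (E.p n), E.idem]
  let w : End N := ∑ k ∈ Finset.range m, c ^ k
  have hw : (1 - c) * w = 1 := by
    have := mul_neg_geom_sum c m
    rw [hm, sub_zero] at this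
    exact this
  have hw2 : w * (1 - c) = 1 := by
    have := geom_sum_mul_neg c m
    rw [hm, sub_zero] at this
    exact this
  have h3 : (E.p n - c.asHom) ≫ w.asHom = E.p n := by
    have h4 : (E.p n - c.asHom) = E.p n ≫ (1 - c : End N).asHom := by
      change _ = E.p n ≫ (𝟙 N - c.asHom)
      rw [Preadditive.comp_sub, Category.comp_id, hEc]
    rw [h4, Category.assoc]
    have h5 : (1 - c : End N).asHom ≫ w.asHom = 𝟙 N := hw2
    rw [h5, Category.comp_id]
  refine ⟨E.p n ≫ R.i, R.r ≫ E.p n ≫ w.asHom, ?_⟩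
  conv_lhs => rw [← h3]
  have h6 : E.p n - c.asHom = E.p n ≫ R.i ≫ D.p n ≫ R.r ≫ E.p n := by
    change E.p n - (E.p n - E.p n ≫ R.i ≫ D.p n ≫ R.r ≫ E.p n) = _
    rw [sub_sub_cancel]
  rw [h6]
  simp only [Category.assoc]

/-- **(C) for direct summands.** -/
theorem CK.Tri.murreC {D : CK W M} (h : D.Tri) (hph : D.NoPh) (R : Retract N M) :
    MurreC W N := by
  rw [MurreC_iff]
  intro E E' l i j hij α
  obtain ⟨f, g, h1⟩ := h.factor hph R E i
  obtain ⟨f', g', h2⟩ := h.factor hph R E' j
  have h3 := h i j hij (g ≫ f')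
  rw [h1, h2]
  simp only [Category.assoc] at h3 ⊢
  rw [← Category.assoc (D.p i), ← Category.assoc (D.p i ≫ g), ← Category.assoc ((D.p i ≫ g) ≫ f')]
  simp only [Category.assoc]
  rw [← Category.assoc f', ← Category.assoc g, ← Category.assoc (D.p i)]
  simp only [Category.assoc]
  have h4 : D.p i ≫ g ≫ f' ≫ D.p j ≫ g' = 0 := by
    have := congrArg (· ≫ g') h3
    simpa using this
  rw [h4]; simp

/-- **(B) for direct summands.** -/
theorem CK.Tri.murreB {D : CK W M} (h : D.Tri) (hph : D.NoPh) (hB : D.MurreB) (R : Retract N M)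
    (E : CK W N) : E.MurreB := by
  rw [CK.MurreB_iff] at hB ⊢
  intro l i hi α
  obtain ⟨f, g, h1⟩ := h.factor hph R E i
  have h2 := hB l i hi (α ≫ f)
  rw [h1, ← Category.assoc, ← Category.assoc, h2, zero_comp]

/-- **(D) for direct summands.** -/
theorem CK.Tri.murreD {D : CK W M} (h : D.Tri) (hph : D.NoPh) (hD : D.MurreD) (R : Retract N M)
    (E : CK W N) : E.MurreD := by
  rw [CK.MurreD_iff] at hD ⊢
  intro l α hα hH
  obtain ⟨f, g, h1⟩ := h.factor hph R E (2 * l)
  have h2 := hD l (α ≫ f ≫ D.p (2 * l)) (by simp only [Category.assoc, D.idem])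
    (by rw [Functor.map_comp, hH, zero_comp])
  rw [← hα, h1, ← Category.assoc f, ← Category.assoc α, h2, zero_comp]

end Pool.Agent.Helper15.Murre
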