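import Mathlib
import Pool.Agent.Helper15.Murre.Summand

open CategoryTheory MonoidalCategory Limits TensorProduct

universe w v u

namespace Pool.Agent.Helper15.Murre

variable {C : Type u} [Category.{v} C] [Preadditive C] [Linear ℚ C]
  [MonoidalCategory C] [SymmetricCategory C] [MonoidalPreadditive C] [MonoidalLinear ℚ C] [RigidCategory C]
  {F : Type w} [Field F]
variable {W : MotivicHomology C F} {M N : C}

variable (W) in
/-- `1(l) ⊗ 1(-l) = 1` -/
noncomputable def MotivicHomology.tateInv (l : ℤ) : W.T l ⊗ W.T (-l) ≅ 𝟙_ C :=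
  (W.tateAdd l (-l)).symm ≪≫ eqToIso (by rw [add_neg_cancel]) ≪≫ W.tateZero

variable (W) in
/-- `1(-l) ⊗ 1(l) = 1` -/
noncomputable def MotivicHomology.tateInv' (l : ℤ) : W.T (-l) ⊗ W.T l ≅ 𝟙_ C :=
  (W.tateAdd (-l) l).symm ≪≫ eqToIso (by rw [neg_add_cancel]) ≪≫ W.tateZero

/-- `End(1(l)) = ℚ` -/
lemma MotivicHomology.endTate (l : ℤ) (f : W.T l ⟶ W.T l) : ∃ q : ℚ, f = q • 𝟙 _ := by
  obtain ⟨q, hq⟩ := W.endUnit ((W.tateInv l).inv ≫ (f ▷ W.T (-l)) ≫ (W.tateInv l).hom)
  refine ⟨q, ?_⟩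
  have h1 : f ▷ W.T (-l) = q • 𝟙 _ := by
    have : f ▷ W.T (-l) = (W.tateInv l).hom ≫
        ((W.tateInv l).inv ≫ (f ▷ W.T (-l)) ≫ (W.tateInv l).hom) ≫ (W.tateInv l).inv := by simp
    rw [this, hq]
    simp
  have h2 : f ▷ (W.T (-l) ⊗ W.T l) = q • 𝟙 _ := by
    rw [whiskerRight_tensor, h1]
    simp [MonoidalLinear.smul_whiskerRight]
  have h3 : f ▷ (𝟙_ C) = q • 𝟙 _ := by
    have h4 := whisker_exchange f (W.tateInv' l).hom
    have h5 : f ▷ (𝟙_ C) = (W.T l ◁ (W.tateInv' l).inv) ≫ (W.T l ◁ (W.tateInv' l).hom) ≫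
        f ▷ (𝟙_ C) := by
      rw [← Category.assoc, ← MonoidalCategory.whiskerLeft_comp]
      simp
    rw [h5, h4, h2]
    simp only [Linear.smul_comp, Linear.comp_smul, Category.id_comp]
    rw [← MonoidalCategory.whiskerLeft_comp]
    simp
  have h6 : f = (ρ_ _).inv ≫ f ▷ (𝟙_ C) ≫ (ρ_ _).hom := by simp
  rw [h6, h3]
  simp

/-- a homologically trivial endomorphism of `1(l)` is zero -/
lemma MotivicHomology.endTate_eq_zero (l : ℤ) (f : W.T l ⟶ W.T l)
    (hf : W.H.map f = 0) : f = 0 := by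
  obtain ⟨q, rfl⟩ := W.endTate l f
  by_cases hq : q = 0
  · simp [hq]
  exfalso
  have h1 : (q • 𝟙 (W.T l)) ≫ (q⁻¹ • 𝟙 (W.T l)) = 𝟙 _ := by
    simp [smul_smul, hq]
  have h2 := congrArg W.H.map h1
  rw [Functor.map_comp, hf, zero_comp, CategoryTheory.Functor.map_id] at h2
  have h3 : Subsingleton (W.H.obj (W.T l)) := by
    refine ⟨fun a b => ?_⟩
    have h4 : ∀ a, (𝟙 (W.H.obj (W.T l)) : _ ⟶ _).hom a = 0 := by
      intro a
      rw [← h2]; rfl
    have ha := h4 a
    have hb := h4 b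
    simp only [ModuleCat.id_apply] at ha hb
    rw [ha, hb]
  have h5 := W.tateRank l
  rw [Module.finrank_zero_of_subsingleton] at h5
  omega

omit [MonoidalPreadditive C] [MonoidalLinear ℚ C] in
lemma MotivicHomology.mem_gr_tate (l : ℤ) (x : W.H.obj (W.T l)) : x ∈ W.gr (W.T l) (2 * l) := by
  rw [W.tate]; trivial

omit [MonoidalPreadditive C] [MonoidalLinear ℚ C] in
/-- conjugating a Chow-Kunneth decomposition by an automorphism acting trivially on homology -/
noncomputable def CK.conj (D : CK W M) (u : M ≅ M) (hu : W.H.map u.hom = 𝟙 _) :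
    CK W M where
  p a := u.inv ≫ D.p a ≫ u.hom
  idem a := by
    simp only [Category.assoc, Iso.hom_inv_id_assoc]
    rw [← Category.assoc (D.p a) (D.p a), D.idem]
  orth a b hab := by
    simp only [Category.assoc, Iso.hom_inv_id_assoc]
    rw [← Category.assoc (D.p a) (D.p b), D.orth a b hab]; simp
  finite := by
    refine D.finite.subset ?_
    intro a ha h
    apply ha
    simp [h]
  sum := by
    rw [finsum_eq_sum_of_support_subset (s := D.s)]
    · rw [← Preadditive.comp_sum, ← Preadditive.sum_comp, D.sum_s]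
      simp
    · intro a ha
      by_contra h
      apply ha
      simp [D.p_eq_zero (i := a) (by simpa using h)]
  homology a j x hx := by
    have h1 : W.H.map u.inv = 𝟙 _ := by
      have h2 : W.H.map u.inv ≫ W.H.map u.hom = 𝟙 _ := by
        rw [← Functor.map_comp]; simp
      rwa [hu, Category.comp_id] at h2
    have h3 : W.H.map (u.inv ≫ D.p a ≫ u.hom) = W.H.map (D.p a) := by
      rw [Functor.map_comp, Functor.map_comp, hu, h1]
      simp
    rw [h3, D.homology a j x hx]

/-- If `1(l)` is a direct summand of `M` and `M` satisfies (C), then `CH_l(M_i) = 0` for `i < 2l`,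
for every Chow-Kunneth decomposition of `M`. -/
theorem MurreC.vanish (hC : MurreC W M) (l : ℤ) (R : Retract (W.T l) M) (D : CK W M) (i : ℤ)
    (hi : i < 2 * l) (α : W.CH l M) : α ≫ D.p i = 0 := by
  have hadd := W.additive
  set f : W.T l ⟶ M := α ≫ D.p i with hf
  have hfi : f ≫ D.p i = f := by rw [hf, Category.assoc, D.idem]
  have hf2 : f ≫ D.p (2 * l) = 0 := by
    rw [hf, Category.assoc, D.orth _ _ (by omega), comp_zero]
  -- the component of the retraction of weight `2l` is the identity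
  have hc : ∀ j, j ≠ 2 * l → R.i ≫ D.p j ≫ R.r = 0 := by
    intro j hj
    apply W.endTate_eq_zero
    apply W.hext
    intro a x hx
    simp only [W.map_comp_apply]
    rw [D.homology j (2 * l) _ (W.map_gr _ _ _ (W.mem_gr_tate l x)), if_neg (Ne.symm hj)]
    simp
  have hc1 : R.i ≫ D.p (2 * l) ≫ R.r = 𝟙 _ := by
    have h1 := D.comp_left R.i
    have h2 : R.i ≫ R.r = ∑ j ∈ D.s, R.i ≫ D.p j ≫ R.r := by
      conv_lhs => rw [h1]
      rw [Preadditive.sum_comp]
      simp
    rw [R.retract] at h2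
    by_cases hm : 2 * l ∈ D.s
    · rw [Finset.sum_eq_single_of_mem _ hm (fun j _ hj => hc j hj)] at h2
      exact h2.symm
    · rw [Finset.sum_eq_zero] at h2
      · rw [D.p_eq_zero hm, ← h2.symm]; simp [← h2]
      · intro j hj
        exact hc j (by rintro rfl; exact hm hj)
  set n : M ⟶ M := D.p (2 * l) ≫ R.r ≫ f with hn
  have hnn : n ≫ n = 0 := by
    rw [hn]
    simp only [Category.assoc]
    rw [← Category.assoc f, hf2]
    simp
  let u : M ≅ M :=
    { hom := 𝟙 M + n
      inv := 𝟙 M - n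
      hom_inv_id := by
        rw [Preadditive.add_comp, Preadditive.comp_sub, Preadditive.comp_sub, hnn]; simp
      inv_hom_id := by
        rw [Preadditive.sub_comp, Preadditive.comp_add, Preadditive.comp_add, hnn]; simp }
  have hfH : W.H.map f = 0 := by
    apply W.hext
    intro a x _
    rw [← hfi, W.map_comp_apply,
      D.homology i (2 * l) _ (W.map_gr _ _ _ (W.mem_gr_tate l x)), if_neg (by omega)]
    rfl
  have hu : W.H.map u.hom = 𝟙 _ := by
    change W.H.map (𝟙 M + n) = _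
    rw [Functor.map_add, CategoryTheory.Functor.map_id, hn, Functor.map_comp, Functor.map_comp,
      hfH]
    simp
  -- compare the two filtrations
  have h1 : (R.i ≫ D.p (2 * l)) ≫ u.hom ∈ (D.conj u hu).Fil l 0 := by
    rw [CK.mem_Fil]
    intro a ha
    change ((R.i ≫ D.p (2 * l)) ≫ u.hom) ≫ (u.inv ≫ D.p a ≫ u.hom) = 0
    simp only [Category.assoc, Iso.hom_inv_id_assoc]
    rw [← Category.assoc (D.p (2 * l)), D.orth _ _ (by omega)]
    simp
  rw [hC (D.conj u hu) D, CK.mem_Fil] at h1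
  have h2 := h1 i (by omega)
  have h3 : (R.i ≫ D.p (2 * l)) ≫ u.hom = R.i ≫ D.p (2 * l) + f := by
    change (R.i ≫ D.p (2 * l)) ≫ (𝟙 M + n) = _
    rw [Preadditive.comp_add, Category.comp_id, hn]
    congr 1
    have h4 : (R.i ≫ D.p (2 * l)) ≫ D.p (2 * l) ≫ R.r ≫ f
        = (R.i ≫ (D.p (2 * l) ≫ D.p (2 * l)) ≫ R.r) ≫ f := by simp only [Category.assoc]
    rw [h4, D.idem, hc1, Category.id_comp]
  rw [h3, Preadditive.add_comp, Category.assoc, D.orth _ _ (by omega), comp_zero, zero_add,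
    hfi] at h2
  exact h2

end Pool.Agent.Helper15.Murre
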