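import Mathlib
import Pool.Agent.Helper15.Murre.Tate
import Pool.Agent.Helper15.Murre.BC

open CategoryTheory MonoidalCategory Limits TensorProduct

universe w v' u' v u

namespace Pool.Agent.Helper15.Murre

section one

variable {C : Type u} [Category.{v} C] [Preadditive C] [Linear ℚ C]
  [MonoidalCategory C] [SymmetricCategory C] [RigidCategory C] {F : Type w} [Field F]
variable {W : MotivicHomology C F} {M N : C}

/-- lifting a Chow-Kunneth decomposition modulo a nil ideal acting trivially on homology -/
lemma exists_CK_of_lift (J : TwoSidedIdeal (End N)) (hnil : ∀ x ∈ J, IsNilpotent x)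
    (hH0 : ∀ x ∈ J, W.H.map x.asHom = 0) (s : Finset ℤ) (x : ℤ → End N)
    (hcomp : ∀ n m, x n * x m - (if n = m then x n else 0) ∈ J)
    (hsum : ∑ n ∈ s, x n - 1 ∈ J)
    (hhom : ∀ n ∈ s, ∀ j, ∀ z ∈ W.gr N j, (W.H.map (x n).asHom).hom z = if j = n then z else 0)
    (hs : ∀ n, n ∉ s → ∀ z ∈ W.gr N n, z = 0) : Nonempty (CK W N) := by
  classical
  let φ := J.ringCon.mk'
  have hker : ∀ x : End N, φ x = 0 ↔ x ∈ J := by
    intro x
    have h1 := TwoSidedIdeal.ker_ringCon_mk' J
    rw [← TwoSidedIdeal.mem_ker, h1]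
  have heq : ∀ x y : End N, φ x = φ y ↔ x - y ∈ J := by
    intro x y
    rw [← hker, map_sub, sub_eq_zero]
  let I := {n // n ∈ s}
  have hco : CompleteOrthogonalIdempotents (fun n : I => φ (x n)) := by
    refine ⟨⟨?_, ?_⟩, ?_⟩
    · intro n
      change φ (x n) * φ (x n) = φ (x n)
      rw [← map_mul, heq]
      simpa using hcomp n n
    · intro n m hnm
      change φ (x n) * φ (x m) = 0
      rw [← map_mul, ← map_zero φ, heq]
      have := hcomp n m
      rwa [if_neg (by intro h; exact hnm (Subtype.ext h))] at this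
    · rw [← map_sum, ← map_one φ, heq]
      convert hsum using 2
      exact (Finset.sum_coe_sort s x)
  obtain ⟨e, he, hφe⟩ := CompleteOrthogonalIdempotents.lift_of_isNilpotent_ker φ
    (fun y hy => hnil y ((hker y).1 hy)) hco (fun n => ⟨x n, rfl⟩)
  have hex : ∀ n : I, e n - x n ∈ J := by
    intro n
    rw [← heq]
    exact congrFun hφe n
  have hH : ∀ (n : I), W.H.map (e n).asHom = W.H.map (x n).asHom := by
    intro n
    have := W.additive
    have h1 := hH0 _ (hex n)
    have h2 : (e n - x n : End N).asHom = (e n).asHom - (x n).asHom := rfl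
    rw [h2, Functor.map_sub, sub_eq_zero] at h1
    exact h1
  refine ⟨⟨fun n => if hn : n ∈ s then (e ⟨n, hn⟩).asHom else 0, ?_, ?_, ?_, ?_, ?_⟩⟩
  · intro n
    split_ifs with hn
    · exact he.idem ⟨n, hn⟩
    · simp
  · intro n m hnm
    split_ifs with hn hm hm
    · exact he.ortho (i := ⟨m, hm⟩) (j := ⟨n, hn⟩)
        (by intro h; exact hnm (congrArg Subtype.val h).symm)
    all_goals simp
  · refine s.finite_toSet.subset ?_
    intro n hn
    by_contra h'
    apply hn
    simp only [Finset.mem_coe] at h'
    simp [h']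
  · rw [finsum_eq_sum_of_support_subset (s := s)]
    · rw [← Finset.sum_coe_sort]
      have h1 : ∀ n : {n // n ∈ s}, (if hn : (n : ℤ) ∈ s then (e ⟨n, hn⟩).asHom else 0)
          = (e n).asHom := by
        intro n
        simp [n.2]
      simp only [h1]
      exact he.complete
    · intro n hn
      by_contra h'
      apply hn
      simp only [Finset.mem_coe] at h'
      simp [h']
  · intro n j z hz
    by_cases hn : n ∈ s
    · rw [dif_pos hn, hH ⟨n, hn⟩, hhom n hn j z hz]
    · rw [dif_neg hn, W.map_zero_apply]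
      split_ifs with hj
      · subst hj
        exact (hs j hn z hz).symm
      · rfl

/-- maps between projectors of lower weight vanish -/
lemma CK.Tri.between {D : CK W M} (h : D.Tri) (hph : D.NoPh) {X Y : C} (R : Retract X M)
    (R' : Retract Y M) (E : CK W X) (E' : CK W Y) (i j : ℤ) (hij : j < i) (f : X ⟶ Y) :
    E.p i ≫ f ≫ E'.p j = 0 := by
  obtain ⟨u, v, h1⟩ := h.factor hph R E i
  obtain ⟨u', v', h2⟩ := h.factor hph R' E' j
  have h3 := h i j hij (v ≫ f ≫ u')
  rw [h1, h2]
  have h4 := congrArg (fun t => u ≫ t ≫ v') h3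
  simpa using h4

lemma CK.Tri.tri_of_retract {D : CK W M} (h : D.Tri) (hph : D.NoPh) (R : Retract N M)
    (E : CK W N) : E.Tri := fun i j hij f => h.between hph R R E E i j hij f

lemma CK.Tri.noPh_of_retract {D : CK W M} (h : D.Tri) (hph : D.NoPh) (R : Retract N M)
    (E : CK W N) : E.NoPh := by
  intro i t _ _ ht hH
  let T : End N := t
  have hmem : T ∈ h.ideal R := by
    rw [h.mem_ideal]
    intro a
    apply hph a
    · rw [← Category.assoc, D.idem]
    · simp only [Category.assoc, D.idem]
    · have h1 := h.diag_block (R.r ≫ t ≫ R.i) (R.r ≫ t ≫ R.i) a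
      simp only [Category.assoc, Retract.retract_assoc] at h1
      change (D.p a ≫ R.r ≫ t ≫ R.i ≫ D.p a) ≫ (D.p a ≫ R.r ≫ t ≫ R.i ≫ D.p a) = _
      simp only [Category.assoc]
      rw [← Category.assoc (D.p a) (D.p a), D.idem, ← h1, ← Category.assoc t t, ht]
    · change W.H.map (D.p a ≫ R.r ≫ t ≫ R.i ≫ D.p a) = 0
      rw [Functor.map_comp, Functor.map_comp, Functor.map_comp, hH]
      simp
  obtain ⟨m, hm⟩ := h.nilpotent_of_mem R _ hmem
  have key : ∀ m : ℕ, T ^ (m + 1) = T := by
    intro m
    induction m with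
    | zero => exact pow_one _
    | succ m ih => rw [pow_succ, ih]; exact ht
  have h1 := key m
  have h2 : T ^ (m + 1) = 0 := by
    rw [pow_succ, hm, zero_mul]
  rw [h2] at h1
  exact h1.symm

lemma CK.Tri.mem_refl {D : CK W M} (h : D.Tri) (x : End M) :
    x ∈ h.ideal (Retract.refl M) ↔ ∀ a, D.p a ≫ x.asHom ≫ D.p a = 0 := by
  rw [h.mem_ideal]
  simp [Retract.refl]

/-- two Chow-Kunneth decompositions agree modulo the nil ideal -/
lemma CK.Tri.sub_mem {D : CK W M} (h : D.Tri) (hph : D.NoPh) (E : CK W M) (i : ℤ) :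
    ((E.p i - D.p i : M ⟶ M) : End M) ∈ h.ideal (Retract.refl M) := by
  rw [h.mem_refl]
  intro a
  change D.p a ≫ (E.p i - D.p i) ≫ D.p a = 0
  rw [Preadditive.sub_comp, Preadditive.comp_sub]
  by_cases hai : a = i
  · subst hai
    have h1 : D.p a = D.p a ≫ E.p a ≫ D.p a := by
      have h2 : D.p a = ∑ n ∈ E.s, D.p a ≫ E.p n ≫ D.p a := by
        rw [← Preadditive.comp_sum, ← Preadditive.sum_comp, E.sum_s, Category.id_comp, D.idem]
      conv_lhs => rw [h2]
      have h3 : ∀ n, n ≠ a → D.p a ≫ E.p n ≫ D.p a = 0 := by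
        intro n hn
        have := h.block_zero hph (Retract.refl M) E (Ne.symm hn)
        simpa [Retract.refl] using this
      by_cases ha : a ∈ E.s
      · rw [Finset.sum_eq_single_of_mem a ha (fun n _ hn => h3 n hn)]
      · rw [E.p_eq_zero ha, Finset.sum_eq_zero]
        · simp
        · intro n hn
          exact h3 n (by rintro rfl; exact ha hn)
    rw [← h1, D.idem, D.idem, sub_self]
  · have := h.block_zero hph (Retract.refl M) E hai
    have h2 : D.p a ≫ E.p i ≫ D.p a = 0 := by simpa [Retract.refl] using this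
    rw [h2, ← Category.assoc, D.orth a i hai]
    simp

end one

section two

variable {C : Type u} [Category.{v} C] [Preadditive C] [Linear ℚ C]
  [MonoidalCategory C] [SymmetricCategory C] [RigidCategory C] {F : Type w} [Field F]
variable {C' : Type u'} [Category.{v'} C'] [Preadditive C'] [Linear ℚ C']
  [MonoidalCategory C'] [SymmetricCategory C'] [RigidCategory C']

/-- The action of the group `G` of a Galois extension `K/k` on the endomorphisms of the motives
`X_K` with `X` defined over `k`. -/
structure GaloisAction (W' : MotivicHomology C' F) (Φ : C ⥤ C') (G : Type*) [Group G] where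
  /-- the Galois group acts by ring automorphisms on the endomorphisms of `X_K` -/
  act : ∀ X : C, G →* RingAut (End (Φ.obj X))
  /-- every endomorphism of `X_K` is defined over a finite extension of `k` -/
  orbit_finite : ∀ (X : C) (f : End (Φ.obj X)), (Set.range fun g => act X g f).Finite
  /-- Galois invariant endomorphisms of `X_K` are defined over `k` -/
  fixed : ∀ (X : C) (f : End (Φ.obj X)), (∀ g, act X g f = f) → ∃ f₀ : X ⟶ X, Φ.map f₀ = f
  /-- the conjugates of the projectors of a Chow-Kunneth decomposition of `X_K` act on homology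
  in the same way -/
  homology : ∀ (X : C) (g : G) (D : CK W' (Φ.obj X)) (i j : ℤ), ∀ x ∈ W'.gr (Φ.obj X) j,
    (W'.H.map (act X g (D.p i)).asHom).hom x = if j = i then x else 0

variable {W : MotivicHomology C F} {W' : MotivicHomology C' F} {Φ : C ⥤ C'}
  {G : Type*} [Group G]

/-- the comparison isomorphism -/
noncomputable def BaseChange.comp (B : BaseChange W W' Φ) (X : C) :
    W.H.obj X ≃ₗ[F] W'.H.obj (Φ.obj X) := (B.comparison.app X).toLinearEquiv

lemma BaseChange.comp_nat (B : BaseChange W W' Φ) {X Y : C} (f : X ⟶ Y) (x : W.H.obj X) :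
    B.comp Y ((W.H.map f).hom x) = (W'.H.map (Φ.map f)).hom (B.comp X x) := by
  have h := B.comparison.hom.naturality f
  exact congrArg (fun t => t.hom x) h

lemma BaseChange.comp_gr (B : BaseChange W W' Φ) (X : C) (i : ℤ) (x : W.H.obj X) :
    x ∈ W.gr X i ↔ B.comp X x ∈ W'.gr (Φ.obj X) i := B.comparison_gr X i x

/-- the base change of a Chow-Kunneth decomposition -/
noncomputable def CK.baseChange (B : BaseChange W W' Φ) {N : C} (E : CK W N) :
    CK W' (Φ.obj N) :=
  have hadd := B.additive
  { p := fun i => Φ.map (E.p i)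
    idem := fun i => by rw [← Functor.map_comp, E.idem]
    orth := fun i j hij => by rw [← Functor.map_comp, E.orth i j hij, Functor.map_zero]
    finite := E.finite.subset (fun i hi h => hi (by
      have : E.p i = 0 := h
      simp [this]))
    sum := by
      rw [finsum_eq_sum_of_support_subset (s := E.s)]
      · rw [← Functor.map_sum, E.sum_s, CategoryTheory.Functor.map_id]
      · intro i hi
        by_contra h
        apply hi
        simp [E.p_eq_zero (i := i) (by simpa using h)]
    homology := by
      intro i j x hx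
      obtain ⟨y, rfl⟩ := (B.comp N).surjective x
      rw [← B.comp_gr] at hx
      rw [← B.comp_nat, E.homology i j y hx]
      split_ifs
      · rfl
      · exact map_zero _ }

/-- the projector `p i`, as an element of the endomorphism ring -/
def CK.e {C : Type u} [Category.{v} C] [Preadditive C] [Linear ℚ C]
    [MonoidalCategory C] [SymmetricCategory C] [RigidCategory C] {F : Type w} [Field F]
    {W : MotivicHomology C F} {M : C} (D : CK W M) (i : ℤ) : End M := D.p i

/-- the conjugate of a Chow-Kunneth decomposition -/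
noncomputable def CK.galois (A : GaloisAction W' Φ G) {N : C}
    (D : CK W' (Φ.obj N))
    (g : G) : CK W' (Φ.obj N) where
  p i := (A.act N g (D.e i)).asHom
  idem i := by
    have h1 : D.e i * D.e i = D.e i := D.idem i
    have h2 := congrArg (A.act N g) h1
    rw [map_mul] at h2
    exact h2
  orth i j hij := by
    have h1 : D.e j * D.e i = 0 := D.orth i j hij
    have h2 := congrArg (A.act N g) h1
    rw [map_mul, map_zero] at h2
    exact h2
  finite := D.finite.subset (fun i hi h => hi (by
    have h1 : D.e i = 0 := h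
    change (A.act N g (D.e i)).asHom = 0
    rw [h1, map_zero]))
  sum := by
    rw [finsum_eq_sum_of_support_subset (s := D.s)]
    · have h1 : (∑ i ∈ D.s, D.e i) = 1 := D.sum_s
      have h2 := congrArg (A.act N g) h1
      rw [map_sum, map_one] at h2
      exact h2
    · intro i hi
      by_contra h
      apply hi
      have h1 : D.e i = 0 := D.p_eq_zero (i := i) (by simpa using h)
      change (A.act N g (D.e i)).asHom = 0
      rw [h1, map_zero]
  homology i j x hx := A.homology N g D i j x hx

/-- base change on endomorphism rings -/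
noncomputable def BaseChange.onEnd (B : BaseChange W W' Φ) (N : C) :
    End N →+* End (Φ.obj N) :=
  have hadd := B.additive
  { toFun := fun f => Φ.map f
    map_one' := Φ.map_id N
    map_mul' := fun f g => Φ.map_comp g f
    map_zero' := Φ.map_zero _ _
    map_add' := fun f g => Φ.map_add }

/-- the main descent step: a Chow-Kunneth decomposition of `N_K` without maps from higher to
lower weights and without phantoms gives a Chow-Kunneth decomposition of `N` -/
theorem GaloisAction.exists_CK (B : BaseChange W W' Φ) (A : GaloisAction W' Φ G) {N : C}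
    (D : CK W' (Φ.obj N)) (h : D.Tri) (hph : D.NoPh) : Nonempty (CK W N) := by
  classical
  have hadd := B.additive
  have hfaith := B.faithful
  let J' := h.ideal (Retract.refl (Φ.obj N))
  let φ := B.onEnd N
  have hsmul : ∀ (q : ℚ) (z : End (Φ.obj N)), z ∈ J' → q • z ∈ J' := by
    intro q z hz
    have : q • z = (q • 1) * z := by rw [smul_mul_assoc, one_mul]
    rw [this]
    exact J'.mul_mem_left _ _ hz
  -- averaging
  have hav : ∀ i, ∃ y : End N, φ y - D.e i ∈ J' := by
    intro i
    let O := (A.orbit_finite N (D.e i)).toFinset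
    have hO : ∀ y, y ∈ O ↔ ∃ g, A.act N g (D.e i) = y := by
      intro y; simp [O]
    have hOne : O.Nonempty := ⟨D.e i, (hO _).2 ⟨1, by simp⟩⟩
    have hcard : (O.card : ℚ) ≠ 0 := by
      have := Finset.card_pos.2 hOne
      positivity
    let x : End (Φ.obj N) := (O.card : ℚ)⁻¹ • ∑ y ∈ O, y
    have hx : ∀ g, A.act N g x = x := by
      intro g
      have h1 : A.act N g x = (O.card : ℚ)⁻¹ • A.act N g (∑ y ∈ O, y) :=
        map_rat_smul (A.act N g) _ _
      rw [h1, map_sum]
      congr 1
      refine Finset.sum_nbij (fun y => A.act N g y) ?_ ?_ ?_ (fun _ _ => rfl)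
      · intro y hy
        obtain ⟨g', rfl⟩ := (hO y).1 hy
        refine (hO _).2 ⟨g * g', ?_⟩
        rw [map_mul]; rfl
      · intro y _ y' _ hyy
        exact (A.act N g).injective hyy
      · intro y hy
        obtain ⟨g', rfl⟩ := (hO y).1 hy
        refine ⟨A.act N (g⁻¹ * g') (D.e i), (hO _).2 ⟨_, rfl⟩, ?_⟩
        have : A.act N g (A.act N (g⁻¹ * g') (D.e i)) = A.act N (g * (g⁻¹ * g')) (D.e i) := by
          rw [map_mul (A.act N) g]; rfl
        change A.act N g (A.act N (g⁻¹ * g') (D.e i)) = _
        rw [this, mul_inv_cancel_left]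
    obtain ⟨y, hy⟩ := A.fixed N x hx
    refine ⟨y, ?_⟩
    have h2 : φ y = x := hy
    rw [h2]
    have h3 : x - D.e i = (O.card : ℚ)⁻¹ • ∑ y ∈ O, (y - D.e i) := by
      rw [Finset.sum_sub_distrib, smul_sub, Finset.sum_const, ← Nat.cast_smul_eq_nsmul ℚ,
        smul_smul, inv_mul_cancel₀ hcard, one_smul]
    rw [h3]
    apply hsmul
    apply sum_mem
    intro y hy
    obtain ⟨g, rfl⟩ := (hO y).1 hy
    exact h.sub_mem hph (D.galois A g) i
  choose y hy using hav
  let J : TwoSidedIdeal (End N) := J'.comap φ
  have hJ : ∀ z, z ∈ J ↔ φ z ∈ J' := fun z => TwoSidedIdeal.mem_comap φ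
  -- computations modulo `J'`
  have hyH : ∀ i, W'.H.map (φ (y i)).asHom = W'.H.map (D.p i) := by
    intro i
    have := W'.additive
    have h1 := h.H_of_mem _ _ (hy i)
    have h2 : (φ (y i) - D.e i : End _).asHom = (φ (y i)).asHom - D.p i := rfl
    rw [h2, Functor.map_sub, sub_eq_zero] at h1
    exact h1
  have hcompH : ∀ (f : N ⟶ N) (z : W.H.obj N), B.comp N ((W.H.map f).hom z) =
      (W'.H.map (φ f).asHom).hom (B.comp N z) := fun f z => B.comp_nat f z
  apply exists_CK_of_lift (W := W) J ?_ ?_ D.s y ?_ ?_ ?_ ?_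
  · intro z hz
    obtain ⟨m, hm⟩ := h.nilpotent_of_mem _ _ ((hJ z).1 hz)
    refine ⟨m, ?_⟩
    have h1 : φ (z ^ m) = 0 := by rw [map_pow, hm]
    have h2 : Φ.map (z ^ m : End N).asHom = Φ.map 0 := by
      rw [Functor.map_zero]; exact h1
    exact Φ.map_injective h2
  · intro z hz
    have h1 := h.H_of_mem _ _ ((hJ z).1 hz)
    ext a
    apply (B.comp N).injective
    rw [hcompH, h1]
    change (0 : W'.H.obj _) = B.comp N 0
    rw [map_zero]
  · intro n m
    rw [hJ, map_sub, map_mul]
    have h1 : φ (y n) * φ (y m) - φ (if n = m then y n else 0) =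
        (φ (y n) - D.e n) * φ (y m) + D.e n * (φ (y m) - D.e m) +
          (D.e n * D.e m - φ (if n = m then y n else 0)) := by
      rw [sub_mul, mul_sub]; abel
    rw [h1]
    refine J'.add_mem (J'.add_mem (J'.mul_mem_right _ _ (hy n)) (J'.mul_mem_left _ _ (hy m))) ?_
    by_cases hnm : n = m
    · subst hnm
      rw [if_pos rfl]
      have h2 : D.e n * D.e n = D.e n := D.idem n
      rw [h2, ← neg_sub]
      exact J'.neg_mem (hy n)
    · rw [if_neg hnm, map_zero, sub_zero]
      have h2 : D.e n * D.e m = 0 := D.orth m n (Ne.symm hnm)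
      rw [h2]
      exact J'.zero_mem
  · rw [hJ, map_sub, map_sum, map_one]
    have h1 : (∑ i ∈ D.s, D.e i) = 1 := D.sum_s
    rw [← h1, ← Finset.sum_sub_distrib]
    apply sum_mem
    intro i _
    exact hy i
  · intro n _ j z hz
    apply (B.comp N).injective
    rw [hcompH, hyH, D.homology n j _ ((B.comp_gr N j z).1 hz)]
    split_ifs
    · rfl
    · rw [map_zero]
  · intro n hn z hz
    apply (B.comp N).injective
    have h1 := D.homology n n _ ((B.comp_gr N n z).1 hz)
    rw [D.p_eq_zero hn, W'.map_zero_apply, if_pos rfl] at h1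
    rw [← h1, map_zero]

end two

end Pool.Agent.Helper15.Murre
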