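import Mathlib
import Pool.Agent.Helper15.Murre.Core

open CategoryTheory MonoidalCategory Limits TensorProduct

universe w v u

namespace Pool.Agent.Helper15.Murre

variable {C : Type u} [Category.{v} C] [Preadditive C] [Linear ℚ C]
  [MonoidalCategory C] [SymmetricCategory C] [RigidCategory C] {F : Type w} [Field F]
variable {W : MotivicHomology C F} {M N : C}

/-- the cross product in homology -/
noncomputable def MotivicHomology.cross (W : MotivicHomology C F) {M N : C} (x : W.H.obj M)
    (y : W.H.obj N) : W.H.obj (M ⊗ N) :=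
  letI := W.monoidal
  (Functor.LaxMonoidal.μ W.H M N).hom (x ⊗ₜ[F] y)

lemma MotivicHomology.cross_mem (W : MotivicHomology C F) {M N : C} {i j : ℤ} {x : W.H.obj M}
    {y : W.H.obj N} (hx : x ∈ W.gr M i) (hy : y ∈ W.gr N j) : W.cross x y ∈ W.gr (M ⊗ N) (i + j) :=
  W.mul_gr M N i j x y hx hy

lemma MotivicHomology.cross_swap (W : MotivicHomology C F) {M N : C} {i j : ℤ} {x : W.H.obj M}
    {y : W.H.obj N} (hx : x ∈ W.gr M i) (hy : y ∈ W.gr N j) :
    (W.H.map (β_ M N).hom).hom (W.cross x y) = (i * j).negOnePow • W.cross y x :=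
  W.koszul M N i j x y hx hy

lemma MotivicHomology.cross_add_left (W : MotivicHomology C F) {M N : C} (x x' : W.H.obj M)
    (y : W.H.obj N) : W.cross (x + x') y = W.cross x y + W.cross x' y := by
  unfold MotivicHomology.cross
  rw [TensorProduct.add_tmul, map_add]

lemma MotivicHomology.cross_add_right (W : MotivicHomology C F) {M N : C} (x : W.H.obj M)
    (y y' : W.H.obj N) : W.cross x (y + y') = W.cross x y + W.cross x y' := by
  unfold MotivicHomology.cross
  rw [TensorProduct.tmul_add, map_add]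

lemma MotivicHomology.cross_zero_left (W : MotivicHomology C F) {M N : C} (y : W.H.obj N) :
    W.cross (0 : W.H.obj M) y = 0 := by
  unfold MotivicHomology.cross
  rw [TensorProduct.zero_tmul, map_zero]

lemma MotivicHomology.cross_zero_right (W : MotivicHomology C F) {M N : C} (x : W.H.obj M) :
    W.cross x (0 : W.H.obj N) = 0 := by
  unfold MotivicHomology.cross
  rw [TensorProduct.tmul_zero, map_zero]

lemma MotivicHomology.cross_smul_left (W : MotivicHomology C F) {M N : C} (c : F)
    (x : W.H.obj M) (y : W.H.obj N) : W.cross (c • x) y = c • W.cross x y := by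
  unfold MotivicHomology.cross
  rw [← TensorProduct.smul_tmul', map_smul]

lemma MotivicHomology.cross_smul_right (W : MotivicHomology C F) {M N : C} (c : F)
    (x : W.H.obj M) (y : W.H.obj N) : W.cross x (c • y) = c • W.cross x y := by
  unfold MotivicHomology.cross
  rw [TensorProduct.tmul_smul, map_smul]

lemma MotivicHomology.map_tensorHom_cross (W : MotivicHomology C F) {M N M' N' : C} (f : M ⟶ M')
    (g : N ⟶ N') (x : W.H.obj M) (y : W.H.obj N) :
    (W.H.map (f ⊗ₘ g)).hom (W.cross x y) = W.cross ((W.H.map f).hom x) ((W.H.map g).hom y) := by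
  let _ := W.monoidal
  have h := Functor.LaxMonoidal.μ_natural W.H f g
  have h2 := congrArg (fun t => t.hom (x ⊗ₜ[F] y)) h
  exact h2.symm

lemma MotivicHomology.map_whiskerRight_cross (W : MotivicHomology C F) {M N M' : C} (f : M ⟶ M')
    (x : W.H.obj M) (y : W.H.obj N) :
    (W.H.map (f ▷ N)).hom (W.cross x y) = W.cross ((W.H.map f).hom x) y := by
  have h := W.map_tensorHom_cross f (𝟙 N) x y
  rw [W.map_id_apply] at h
  rw [← h]
  simp [MonoidalCategory.tensorHom_def]

lemma MotivicHomology.map_whiskerLeft_cross (W : MotivicHomology C F) {M N N' : C} (g : N ⟶ N')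
    (x : W.H.obj M) (y : W.H.obj N) :
    (W.H.map (M ◁ g)).hom (W.cross x y) = W.cross x ((W.H.map g).hom y) := by
  have h := W.map_tensorHom_cross (𝟙 M) g x y
  rw [W.map_id_apply] at h
  rw [← h]
  simp [MonoidalCategory.tensorHom_def]

lemma MotivicHomology.cross_assoc (W : MotivicHomology C F) {X Y Z : C} (x : W.H.obj X)
    (y : W.H.obj Y) (z : W.H.obj Z) :
    (W.H.map (α_ X Y Z).hom).hom (W.cross (W.cross x y) z) = W.cross x (W.cross y z) := by
  let _ := W.monoidal
  have h := Functor.LaxMonoidal.associativity W.H X Y Z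
  have h2 := congrArg (fun t => t.hom ((x ⊗ₜ[F] y) ⊗ₜ[F] z)) h
  exact h2

lemma MotivicHomology.cross_assoc' (W : MotivicHomology C F) {X Y Z : C} (x : W.H.obj X)
    (y : W.H.obj Y) (z : W.H.obj Z) :
    (W.H.map (α_ X Y Z).inv).hom (W.cross x (W.cross y z)) = W.cross (W.cross x y) z := by
  rw [← W.cross_assoc, ← W.map_comp_apply, Iso.hom_inv_id, W.map_id_apply]

/-- the unit of the homology of the unit object -/
noncomputable def MotivicHomology.unit (W : MotivicHomology C F) : W.H.obj (𝟙_ C) :=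
  letI := W.monoidal
  (Functor.LaxMonoidal.ε W.H).hom (1 : F)

lemma MotivicHomology.unit_cross (W : MotivicHomology C F) {X : C} (x : W.H.obj X) :
    (W.H.map (λ_ X).hom).hom (W.cross W.unit x) = x := by
  let _ := W.monoidal
  have h := Functor.LaxMonoidal.left_unitality W.H X
  have h2 := congrArg (fun t => t.hom ((1 : F) ⊗ₜ[F] x)) h
  have h3 : (λ_ (W.H.obj X)).hom.hom ((1 : F) ⊗ₜ[F] x) = x := by
    have := ModuleCat.MonoidalCategory.leftUnitor_hom_apply (1 : F) x
    rw [one_smul] at this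
    exact this
  exact h2.symm.trans h3

lemma MotivicHomology.cross_unit (W : MotivicHomology C F) {X : C} (x : W.H.obj X) :
    (W.H.map (ρ_ X).hom).hom (W.cross x W.unit) = x := by
  let _ := W.monoidal
  have h := Functor.LaxMonoidal.right_unitality W.H X
  have h2 := congrArg (fun t => t.hom (x ⊗ₜ[F] (1 : F))) h
  have h3 : (ρ_ (W.H.obj X)).hom.hom (x ⊗ₜ[F] (1 : F)) = x := by
    have := ModuleCat.MonoidalCategory.rightUnitor_hom_apply x (1 : F)
    rw [one_smul] at this
    exact this
  exact h2.symm.trans h3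

lemma MotivicHomology.unit_cross' (W : MotivicHomology C F) {X : C} (x : W.H.obj X) :
    (W.H.map (λ_ X).inv).hom x = W.cross W.unit x := by
  have h := W.unit_cross x
  conv_lhs => rw [← h, ← W.map_comp_apply, Iso.hom_inv_id, W.map_id_apply]

lemma MotivicHomology.cross_unit' (W : MotivicHomology C F) {X : C} (x : W.H.obj X) :
    (W.H.map (ρ_ X).inv).hom x = W.cross x W.unit := by
  have h := W.cross_unit x
  conv_lhs => rw [← h, ← W.map_comp_apply, Iso.hom_inv_id, W.map_id_apply]

/-- the homology of `M ⊗ N` is spanned by the cross products of homogeneous elements -/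
lemma MotivicHomology.cross_induction (W : MotivicHomology C F) {M N : C}
    {P : W.H.obj (M ⊗ N) → Prop}
    (h1 : ∀ i j, ∀ x ∈ W.gr M i, ∀ y ∈ W.gr N j, P (W.cross x y))
    (h2 : ∀ x y, P x → P y → P (x + y)) (z : W.H.obj (M ⊗ N)) : P z := by
  let _ := W.monoidal
  have hsurj : ∃ t : ((W.H.obj M) ⊗[F] (W.H.obj N) : Type _),
      (Functor.LaxMonoidal.μ W.H M N).hom t = z := by
    refine ⟨(Functor.OplaxMonoidal.δ W.H M N).hom z, ?_⟩
    have := Functor.Monoidal.δ_μ W.H M N
    exact congrArg (fun t => t.hom z) this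
  obtain ⟨t, rfl⟩ := hsurj
  have hP0 : P 0 := by
    have := h1 0 0 0 (Submodule.zero_mem _) 0 (Submodule.zero_mem _)
    rwa [W.cross_zero_left] at this
  have key : ∀ x y, P (W.cross x y) := by
    intro x y
    induction x using W.induction with
    | h1 i x hx =>
      induction y using W.induction with
      | h1 j y hy => exact h1 i j x hx y hy
      | h2 y y' hy hy' => rw [W.cross_add_right]; exact h2 _ _ hy hy'
    | h2 x x' hx hx' => rw [W.cross_add_left]; exact h2 _ _ hx hx'
  induction t with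
  | zero => rw [map_zero]; exact hP0
  | tmul x y => exact key x y
  | add a b ha hb => rw [map_add]; exact h2 _ _ ha hb

lemma MotivicHomology.unit_mem (W : MotivicHomology C F) (x : W.H.obj (𝟙_ C)) :
    x ∈ W.gr (𝟙_ C) 0 := by
  have h1 : (W.H.map W.tateZero.inv).hom x ∈ W.gr (W.T 0) (2 * 0) := by
    rw [W.tate]; trivial
  have h2 := W.map_gr W.tateZero.hom _ _ h1
  rw [← W.map_comp_apply, Iso.inv_hom_id, W.map_id_apply] at h2
  simpa using h2

/-- if `H_*(f)` and `H_*(g)` have values in degrees `a` and `b`, then `H_*(f ⊗ g)` has values in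
degree `a + b` -/
lemma MotivicHomology.tensor_range (W : MotivicHomology C F) {M N M' N' : C} (f : M ⟶ M')
    (g : N ⟶ N') (a b : ℤ) (hf : ∀ x, (W.H.map f).hom x ∈ W.gr M' a)
    (hg : ∀ x, (W.H.map g).hom x ∈ W.gr N' b) (z : W.H.obj (M ⊗ N)) :
    (W.H.map (f ⊗ₘ g)).hom z ∈ W.gr (M' ⊗ N') (a + b) := by
  induction z using W.cross_induction with
  | h1 i j x hx y hy =>
    rw [W.map_tensorHom_cross]
    exact W.cross_mem (hf x) (hg y)
  | h2 x y hx hy =>
    rw [map_add]
    exact Submodule.add_mem _ hx hy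

lemma MotivicHomology.range_of_pure (W : MotivicHomology C F) {M N : C} (f : M ⟶ N) (a : ℤ)
    (hf : ∀ j, j ≠ a → ∀ x ∈ W.gr M j, (W.H.map f).hom x = 0) (x : W.H.obj M) :
    (W.H.map f).hom x ∈ W.gr N a := by
  induction x using W.induction with
  | h1 j x hx =>
    by_cases hj : j = a
    · subst hj; exact W.map_gr _ _ _ hx
    · rw [hf j hj x hx]; exact Submodule.zero_mem _
  | h2 x y hx hy =>
    rw [map_add]
    exact Submodule.add_mem _ hx hy

lemma MotivicHomology.pure_of_range (W : MotivicHomology C F) {M N : C} (f : M ⟶ N) (a : ℤ)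
    (hf : ∀ x, (W.H.map f).hom x ∈ W.gr N a) {j : ℤ} (hj : j ≠ a) {x : W.H.obj M}
    (hx : x ∈ W.gr M j) : (W.H.map f).hom x = 0 :=
  W.eq_zero_of_mem hj (W.map_gr _ _ _ hx) (hf x)

/-- tensor products with homologically trivial morphisms are homologically trivial -/
lemma MotivicHomology.H_tensor_zero (W : MotivicHomology C F) {X Y X' Y' : C} (f : X ⟶ Y)
    (g : X' ⟶ Y') (h : W.H.map f = 0) : W.H.map (f ⊗ₘ g) = 0 := by
  ext z
  induction z using W.cross_induction with
  | h1 i j x hx y hy =>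
    rw [W.map_tensorHom_cross, h]
    exact W.cross_zero_left _
  | h2 x y hx hy => rw [map_add, map_add, hx, hy]

lemma MotivicHomology.H_tensor_zero' (W : MotivicHomology C F) {X Y X' Y' : C} (f : X ⟶ Y)
    (g : X' ⟶ Y') (h : W.H.map g = 0) : W.H.map (f ⊗ₘ g) = 0 := by
  ext z
  induction z using W.cross_induction with
  | h1 i j x hx y hy =>
    rw [W.map_tensorHom_cross, h]
    exact W.cross_zero_right _
  | h2 x y hx hy => rw [map_add, map_add, hx, hy]

/-- the duality pairing in homology is nondegenerate -/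
lemma MotivicHomology.pairing (W : MotivicHomology C F) {M : C} (y : W.H.obj (Mᘁ))
    (h : ∀ m : W.H.obj M, (W.H.map (ε_ M (Mᘁ))).hom (W.cross y m) = 0) : y = 0 := by
  -- the zigzag identity
  have key : ∀ z : W.H.obj (M ⊗ Mᘁ), (W.H.map ((ε_ M (Mᘁ)) ▷ (Mᘁ))).hom
      ((W.H.map (α_ (Mᘁ) M (Mᘁ)).inv).hom (W.cross y z)) = 0 := by
    intro z
    induction z using W.cross_induction with
    | h1 i j m _ w _ =>
      rw [W.cross_assoc', W.map_whiskerRight_cross, h, W.cross_zero_left]
    | h2 a b ha hb => rw [W.cross_add_right, map_add, map_add, ha, hb, add_zero]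
  have h1 := ExactPairing.coevaluation_evaluation M (Mᘁ)
  have h2 := congrArg (fun t => (W.H.map t).hom ((W.H.map (ρ_ (Mᘁ)).inv).hom y)) h1
  simp only [W.map_comp_apply] at h2
  have h3 : (W.H.map ((Mᘁ) ◁ (η_ M (Mᘁ)))).hom ((W.H.map (ρ_ (Mᘁ)).inv).hom y)
      = W.cross y ((W.H.map (η_ M (Mᘁ))).hom W.unit) := by
    rw [W.cross_unit', W.map_whiskerLeft_cross]
  rw [h3, key, ← W.map_comp_apply (ρ_ (Mᘁ)).inv, Iso.inv_hom_id, W.map_id_apply] at h2
  have h4 := congrArg (W.H.map (λ_ (Mᘁ)).hom).hom h2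
  rw [map_zero, ← W.map_comp_apply, Iso.inv_hom_id, W.map_id_apply] at h4
  exact h4.symm

/-- if `H_*(p)` is concentrated in degree `a`, then `H_*` of the transpose of `p` is concentrated
in degree `-a` -/
lemma MotivicHomology.dual_range (W : MotivicHomology C F) {M N : C} (p : M ⟶ N) (a : ℤ)
    (hp : ∀ x, (W.H.map p).hom x ∈ W.gr N a) {n : ℤ} (hn : n ≠ -a) {y : W.H.obj (Nᘁ)}
    (hy : y ∈ W.gr (Nᘁ) n) : (W.H.map (pᘁ)).hom y = 0 := by
  apply W.pairing
  intro m
  rw [← W.map_whiskerRight_cross, ← W.map_comp_apply, rightAdjointMate_comp_evaluation,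
    W.map_comp_apply, W.map_whiskerLeft_cross]
  have h1 : (W.H.map (ε_ N (Nᘁ))).hom (W.cross y ((W.H.map p).hom m)) ∈ W.gr (𝟙_ C) (n + a) :=
    W.map_gr _ _ _ (W.cross_mem hy (hp m))
  exact W.eq_zero_of_mem (by omega) h1 (W.unit_mem _)

end Pool.Agent.Helper15.Murre
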