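import Mathlib
import Pool.Agent.Helper15.Murre.Tate

open CategoryTheory MonoidalCategory Limits TensorProduct

universe w v u

namespace Pool.Agent.Helper15.Murre

section construct

variable {C : Type u} [Category.{v} C] [Preadditive C] [Linear ℚ C]
  [MonoidalCategory C] [SymmetricCategory C] [RigidCategory C]
  {F : Type w} [Field F]
variable {W : MotivicHomology C F} {M N : C}

/-- Constructor: it is enough to check that `p i` acts as zero on `H_j` for `j ≠ i`. -/
noncomputable def CK.ofPure (s : Finset ℤ) (p : ℤ → (M ⟶ M)) (hs : ∀ i, i ∉ s → p i = 0)
    (idem : ∀ i, p i ≫ p i = p i) (orth : ∀ i j, i ≠ j → p i ≫ p j = 0)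
    (sum : ∑ i ∈ s, p i = 𝟙 M)
    (hH : ∀ i j, j ≠ i → ∀ x ∈ W.gr M j, (W.H.map (p i)).hom x = 0) : CK W M where
  p := p
  idem := idem
  orth := orth
  finite := s.finite_toSet.subset (fun i hi => by
    by_contra h
    exact hi (hs i (by simpa using h)))
  sum := by
    rw [finsum_eq_sum_of_support_subset (s := s), sum]
    intro i hi
    by_contra h
    exact hi (hs i (by simpa using h))
  homology i j x hx := by
    have := W.additive
    by_cases hij : j = i
    · subst hij
      rw [if_pos rfl]
      have h1 := congrArg (fun t => (W.H.map t).hom x) sum
      simp only [W.map_id_apply, Functor.map_sum] at h1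
      rw [ModuleCat.hom_sum, LinearMap.sum_apply] at h1
      by_cases hj : j ∈ s
      · rwa [Finset.sum_eq_single_of_mem _ hj (fun k _ hk => hH k j (Ne.symm hk) x hx)] at h1
      · rw [Finset.sum_eq_zero] at h1
        · rw [hs j hj, ← h1, map_zero]
        · intro k hk
          exact hH k j (by rintro rfl; exact hj hk) x hx
    · rw [if_neg hij, hH i j hij x hx]

/-- move a homologically trivial summand `t` of `M_a` to weight `b` -/
noncomputable def CK.move (D : CK W M) (a b : ℤ) (hab : a ≠ b) (t : M ⟶ M) (h1 : D.p a ≫ t = t)
    (h2 : t ≫ D.p a = t) (ht : t ≫ t = t) (hH : W.H.map t = 0) : CK W M :=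
  have hz1 : ∀ i, i ≠ a → D.p i ≫ t = 0 := fun i hi => by
    rw [← h1, ← Category.assoc, D.orth _ _ hi, zero_comp]
  have hz2 : ∀ i, i ≠ a → t ≫ D.p i = 0 := fun i hi => by
    rw [← h2, Category.assoc, D.orth _ _ (Ne.symm hi), comp_zero]
  { p := fun i => D.p i - (if i = a then t else 0) + (if i = b then t else 0)
    idem := by
      intro i
      by_cases hia : i = a
      · subst hia
        simp only [if_true, if_neg hab, add_zero]
        rw [Preadditive.sub_comp, Preadditive.comp_sub, Preadditive.comp_sub, D.idem, h1, h2, ht]
        simp
      · by_cases hib : i = b
        · subst hib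
          simp only [if_true, if_neg hia, sub_zero]
          rw [Preadditive.add_comp, Preadditive.comp_add, Preadditive.comp_add, D.idem,
            hz1 i hia, hz2 i hia, ht]
          simp
        · simp only [if_neg hia, if_neg hib, sub_zero, add_zero, D.idem]
    orth := by
      intro i j hij
      simp only [Preadditive.add_comp, Preadditive.comp_add, Preadditive.sub_comp,
        Preadditive.comp_sub, D.orth i j hij]
      by_cases hia : i = a
      · subst hia
        have hja : ¬ j = i := fun h => hij h.symm
        simp only [if_true, if_neg hab, if_neg hja]
        rw [hz2 j hja]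
        split_ifs with hjb
        · simp [h1, ht]
        · simp
      · by_cases hja : j = a
        · subst hja
          simp only [if_true, if_neg hia, if_neg hab]
          rw [hz1 i hia]
          split_ifs with hib
          · simp [h2, ht]
          · simp
        · simp only [if_neg hia, if_neg hja]
          split_ifs with hib hjb
          · exact absurd (hib.trans hjb.symm) hij
          · simp [hz2 j hja]
          · simp [hz1 i hia]
          · simp
    finite := by
      refine ((D.finite.union (Set.finite_singleton a)).union (Set.finite_singleton b)).subset ?_
      intro i hi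
      by_contra h
      simp only [Set.mem_union, Set.mem_singleton_iff, not_or] at h
      apply hi
      have : D.p i = 0 := by simpa using h.1.1
      simp [this, h.1.2, h.2]
    sum := by
      classical
      let s := D.s ∪ {a, b}
      rw [finsum_eq_sum_of_support_subset (s := s)]
      · rw [Finset.sum_add_distrib, Finset.sum_sub_distrib, Finset.sum_ite_eq' s a,
          Finset.sum_ite_eq' s b, if_pos (by simp [s]), if_pos (by simp [s]), sub_add_cancel]
        rw [← D.sum_s]
        symm
        apply Finset.sum_subset
        · intro i hi; simp [s, hi]
        · intro i _ hi; exact D.p_eq_zero hi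
      · intro i hi
        by_contra h
        simp only [s, Finset.coe_union, Set.mem_union, Finset.mem_coe, not_or,
          Finset.coe_insert, Finset.coe_singleton, Set.mem_insert_iff,
          Set.mem_singleton_iff] at h
        apply hi
        simp [D.p_eq_zero h.1, h.2.1, h.2.2]
    homology := by
      intro i j x hx
      have := W.additive
      have e1 : ∀ c : ℤ, W.H.map (if i = c then t else 0) = 0 := by
        intro c; split_ifs
        · exact hH
        · exact W.map_zero'
      have e2 : W.H.map (D.p i - (if i = a then t else 0) + (if i = b then t else 0))
          = W.H.map (D.p i) := by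
        rw [Functor.map_add, Functor.map_sub, e1, e1, sub_zero, add_zero]
      rw [e2, D.homology i j x hx] }

end construct

end Pool.Agent.Helper15.Murre
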