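import Mathlib
import Pool.Agent.Helper15.Murre.Prod
import Pool.Agent.Helper15.Murre.Cross

open CategoryTheory MonoidalCategory Limits TensorProduct

universe w v u

namespace Pool.Agent.Helper15.Murre

variable {C : Type u} [Category.{v} C] [Preadditive C] [Linear ℚ C]
  [MonoidalCategory C] [SymmetricCategory C] [MonoidalPreadditive C] [RigidCategory C]
  {F : Type w} [Field F]
variable {W : MotivicHomology C F} {M N : C}

section homology

omit [MonoidalPreadditive C]

/-- pure idempotents have pure tensor product -/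
lemma MotivicHomology.tensor_idem (p : M ⟶ M) (q : N ⟶ N) (a b : ℤ)
    (hpa : ∀ i, i ≠ a → ∀ x ∈ W.gr M i, (W.H.map p).hom x = 0)
    (hqb : ∀ i, i ≠ b → ∀ x ∈ W.gr N i, (W.H.map q).hom x = 0) (n : ℤ) (hn : n ≠ a + b)
    (x : W.H.obj (M ⊗ N)) (hx : x ∈ W.gr (M ⊗ N) n) : (W.H.map (p ⊗ₘ q)).hom x = 0 :=
  W.pure_of_range _ (a + b)
    (W.tensor_range p q a b (W.range_of_pure p a hpa) (W.range_of_pure q b hqb)) hn hx

lemma MotivicHomology.dual_idem (p : M ⟶ M) (a : ℤ)
    (hpa : ∀ i, i ≠ a → ∀ x ∈ W.gr M i, (W.H.map p).hom x = 0) (n : ℤ) (hn : n ≠ -a)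
    (x : W.H.obj (Mᘁ)) (hx : x ∈ W.gr (Mᘁ) n) : (W.H.map (pᘁ)).hom x = 0 :=
  W.dual_range p a (W.range_of_pure p a hpa) hn hx

end homology

omit [Linear ℚ C] [SymmetricCategory C] in
lemma mate_add (f g : M ⟶ N) : ((f + g)ᘁ : Nᘁ ⟶ Mᘁ) = fᘁ + gᘁ := by
  simp [rightAdjointMate, MonoidalPreadditive.add_whiskerRight,
    MonoidalPreadditive.whiskerLeft_add, Preadditive.add_comp, Preadditive.comp_add]

omit [Linear ℚ C] [SymmetricCategory C] in
lemma mate_zero : ((0 : M ⟶ N)ᘁ : Nᘁ ⟶ Mᘁ) = 0 := by
  have h := mate_add (0 : M ⟶ N) 0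
  rw [add_zero] at h
  exact left_eq_add.mp h

omit [Linear ℚ C] [SymmetricCategory C] in
/-- dualization as an additive map -/
noncomputable def mateHom (M N : C) : (M ⟶ N) →+ (Nᘁ ⟶ Mᘁ) where
  toFun f := fᘁ
  map_zero' := mate_zero
  map_add' := mate_add

omit [Linear ℚ C] [SymmetricCategory C] in
lemma mate_sum {ι : Type*} (s : Finset ι) (f : ι → (M ⟶ N)) :
    ((∑ i ∈ s, f i)ᘁ : Nᘁ ⟶ Mᘁ) = ∑ i ∈ s, (f i)ᘁ :=
  map_sum (mateHom M N) f s

/-- the dual Chow-Kunneth decomposition -/
noncomputable def CK.dual (D : CK W M) : CK W (Mᘁ) :=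
  CK.ofPure (D.s.map (Equiv.neg ℤ).toEmbedding) (fun i => (D.p (-i))ᘁ)
    (by
      intro i hi
      have : -i ∉ D.s := by
        intro h
        apply hi
        rw [Finset.mem_map]
        exact ⟨-i, h, by simp⟩
      simp only [D.p_eq_zero this, mate_zero])
    (by
      intro i
      rw [← comp_rightAdjointMate, D.idem])
    (by
      intro i j hij
      rw [← comp_rightAdjointMate, D.orth _ _ (by omega), mate_zero])
    (by
      rw [Finset.sum_map]
      simp only [Equiv.coe_toEmbedding, Equiv.neg_apply, neg_neg]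
      rw [← mate_sum, D.sum_s, rightAdjointMate_id])
    (by
      intro i j hij
      refine W.dual_idem _ (-i) ?_ j (by omega)
      intro k hk x hx
      rw [D.homology _ k x hx, if_neg hk])

/-- the product Chow-Kunneth decomposition -/
noncomputable def CK.tensor (D : CK W M) (E : CK W N) :
    CK W (M ⊗ N) := by
  classical
  exact CK.ofPure ((D.s ×ˢ E.s).image (fun x => x.1 + x.2))
    (fun n => ∑ a ∈ D.s, D.p a ⊗ₘ E.p (n - a))
    (by
      intro n hn
      apply Finset.sum_eq_zero
      intro a ha
      have : n - a ∉ E.s := by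
        intro h
        apply hn
        rw [Finset.mem_image]
        exact ⟨(a, n - a), by simp [ha, h], by simp⟩
      rw [E.p_eq_zero this]
      simp)
    (by
      intro n
      rw [Preadditive.sum_comp]
      apply Finset.sum_congr rfl
      intro a ha
      rw [Preadditive.comp_sum, Finset.sum_eq_single_of_mem a ha]
      · rw [MonoidalCategory.tensorHom_comp_tensorHom, D.idem, E.idem]
      · intro b _ hb
        rw [MonoidalCategory.tensorHom_comp_tensorHom, D.orth _ _ (Ne.symm hb)]
        simp)
    (by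
      intro n m hnm
      rw [Preadditive.sum_comp]
      apply Finset.sum_eq_zero
      intro a ha
      rw [Preadditive.comp_sum]
      apply Finset.sum_eq_zero
      intro b hb
      rw [MonoidalCategory.tensorHom_comp_tensorHom]
      by_cases hab : a = b
      · subst hab
        rw [E.orth _ _ (by omega)]; simp
      · rw [D.orth _ _ hab]; simp)
    (by
      have h1 : ∀ n, ∑ a ∈ D.s, D.p a ⊗ₘ E.p (n - a)
          = ∑ a ∈ D.s, ∑ b ∈ E.s, if a + b = n then D.p a ⊗ₘ E.p b else 0 := by
        intro n
        apply Finset.sum_congr rfl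
        intro a _
        by_cases h : n - a ∈ E.s
        · rw [Finset.sum_eq_single_of_mem _ h]
          · rw [if_pos (by omega)]
          · intro b _ hb
            rw [if_neg (by omega)]
        · rw [E.p_eq_zero h, Finset.sum_eq_zero]
          · simp
          · intro b hb
            rw [if_neg (by rintro h'; apply h; convert hb using 1; omega)]
      simp only [h1]
      rw [Finset.sum_comm]
      have h2 : ∀ a ∈ D.s, ∑ n ∈ (D.s ×ˢ E.s).image (fun x => x.1 + x.2),
          ∑ b ∈ E.s, (if a + b = n then D.p a ⊗ₘ E.p b else 0) = D.p a ⊗ₘ 𝟙 N := by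
        intro a ha
        rw [Finset.sum_comm]
        have h3 : ∀ b ∈ E.s, ∑ n ∈ (D.s ×ˢ E.s).image (fun x => x.1 + x.2),
            (if a + b = n then D.p a ⊗ₘ E.p b else 0) = D.p a ⊗ₘ E.p b := by
          intro b hb
          rw [Finset.sum_ite_eq, if_pos]
          rw [Finset.mem_image]
          exact ⟨(a, b), by simp [ha, hb], rfl⟩
        rw [Finset.sum_congr rfl h3, ← E.sum_s, MonoidalCategory.tensorHom_def]
        simp only [MonoidalCategory.tensorHom_def]
        rw [← Preadditive.comp_sum]
        congr 1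
        exact (whiskerLeft_sum M E.s E.p).symm
      rw [Finset.sum_congr rfl h2]
      simp only [MonoidalCategory.tensorHom_def, MonoidalCategory.whiskerLeft_id,
        Category.comp_id]
      have h4 : ∑ a ∈ D.s, D.p a ▷ N = (∑ a ∈ D.s, D.p a) ▷ N :=
        (sum_whiskerRight D.s D.p N).symm
      rw [h4, D.sum_s]
      simp)
    (by
      intro n j hj x hx
      have := W.additive
      rw [Functor.map_sum, ModuleCat.hom_sum, LinearMap.sum_apply]
      apply Finset.sum_eq_zero
      intro a _
      refine W.tensor_idem _ _ a (n - a) ?_ ?_ j (by omega) x hx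
      · intro i hi y hy
        rw [D.homology _ i y hy, if_neg hi]
      · intro i hi y hy
        rw [E.homology _ i y hy, if_neg hi])

end Pool.Agent.Helper15.Murre
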