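import Mathlib
import Pool.Agent.Helper15.Murre.Tensor

open CategoryTheory MonoidalCategory Limits TensorProduct

universe w v u

namespace Pool.Agent.Helper15.Murre

variable {C : Type u} [Category.{v} C] [Preadditive C] [Linear ℚ C]
  [MonoidalCategory C] [SymmetricCategory C] [MonoidalPreadditive C] [MonoidalLinear ℚ C] [RigidCategory C]
  {F : Type w} [Field F]
variable {W : MotivicHomology C F} {M N : C}

variable (W) in
/-- the element of `CH_0(M ⊗ Mᘁ)` attached to an endomorphism of `M` -/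
noncomputable def name (f : M ⟶ M) : W.CH 0 (M ⊗ Mᘁ) :=
  W.tateZero.hom ≫ η_ M (Mᘁ) ≫ f ▷ (Mᘁ)

omit [MonoidalLinear ℚ C] in
lemma name_injective {f : M ⟶ M} (h : name W f = 0) : f = 0 := by
  have h1 : η_ M (Mᘁ) ≫ f ▷ (Mᘁ) = 0 := by
    have := congrArg (W.tateZero.inv ≫ ·) h
    simpa [name] using this
  have h2 : (λ_ M).hom ≫ f = 0 := by
    have h3 := tensorRightHomEquiv_symm_naturality (Y := M) (Y' := Mᘁ) (Z := M)
      (η_ M (Mᘁ)) (f ▷ (Mᘁ))
    rw [h1] at h3
    have h4 : (tensorRightHomEquiv (𝟙_ C) M (Mᘁ) M).symm 0 = 0 := by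
      simp [tensorRightHomEquiv]
    have h5 : (tensorRightHomEquiv (𝟙_ C) M (Mᘁ) M).symm (η_ M (Mᘁ) ≫ f ▷ (Mᘁ))
        = (λ_ M).hom ≫ f := by
      simp
    rw [← h5, h1, h4]
  have := congrArg ((λ_ M).inv ≫ ·) h2
  simpa using this

omit [MonoidalPreadditive C] [MonoidalLinear ℚ C] in
lemma name_comp (f a b : M ⟶ M) : name W f ≫ (a ⊗ₘ (bᘁ)) = name W (b ≫ f ≫ a) := by
  unfold name
  simp only [Category.assoc]
  congr 1
  have h1 : f ▷ (Mᘁ) ≫ (a ⊗ₘ (bᘁ)) = (M ◁ (bᘁ)) ≫ (f ≫ a) ▷ (Mᘁ) := by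
    rw [MonoidalCategory.tensorHom_def', comp_whiskerRight, ← Category.assoc, ← Category.assoc,
      whisker_exchange]
  rw [h1, ← Category.assoc, coevaluation_comp_rightAdjointMate, Category.assoc,
    ← comp_whiskerRight]

variable (W) in
/-- if `M` has a Tate object as a direct summand, then `M ⊗ Mᘁ` has the unit as a direct
summand -/
noncomputable def unitRetract (l : ℤ) (R : Retract (W.T l) M) : Retract (W.T 0) (M ⊗ Mᘁ) :=
  let e : W.T 0 ≅ W.T l ⊗ (W.T l)ᘁ :=
    W.tateZero ≪≫ (W.tateInv l).symm ≪≫ whiskerLeftIso (W.T l) (W.tateDual l).symm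
  { i := e.hom ≫ (R.i ⊗ₘ (R.rᘁ))
    r := (R.r ⊗ₘ (R.iᘁ)) ≫ e.inv
    retract := by
      simp only [Category.assoc]
      rw [← Category.assoc (R.i ⊗ₘ _), MonoidalCategory.tensorHom_comp_tensorHom, R.retract,
        ← comp_rightAdjointMate, R.retract, rightAdjointMate_id]
      simp }

/-- (C) for `M ⊗ Mᘁ` gives the vanishing of all maps `M_i → M_j`, `j < i`. -/
theorem CK.tri_of_murreC (D : CK W M) (hC : MurreC W (M ⊗ Mᘁ)) (l : ℤ)
    (R : Retract (W.T l) M) : D.Tri := by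
  intro i j hij f
  apply name_injective (W := W)
  have h1 := hC.vanish 0 (unitRetract W l R) (D.tensor D.dual) (j - i) (by omega)
    (name W (D.p i ≫ f ≫ D.p j))
  have h2 : name W (D.p i ≫ f ≫ D.p j) ≫ (D.tensor D.dual).p (j - i)
      = name W (D.p i ≫ f ≫ D.p j) := by
    change _ ≫ (∑ a ∈ D.s, D.p a ⊗ₘ (D.p (-(j - i - a)))ᘁ) = _
    rw [Preadditive.comp_sum]
    by_cases hj : j ∈ D.s
    · rw [Finset.sum_eq_single_of_mem j hj]
      · rw [name_comp]
        congr 1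
        have : -(j - i - j) = i := by ring
        rw [this]
        simp only [Category.assoc, D.idem]
        rw [← Category.assoc, D.idem]
      · intro a _ ha
        rw [name_comp]
        have : D.p (-(j - i - a)) ≫ D.p i = 0 := D.orth _ _ (by omega)
        simp only [Category.assoc]
        rw [D.orth j a (Ne.symm ha)]
        simp [name]
    · rw [D.p_eq_zero hj]
      simp [name]
  rw [← h2, h1]

/-- (C) for `M ⊗ Mᘁ` gives the vanishing of direct summands of `M_i` without homology. -/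
theorem CK.noPh_of_murreC (D : CK W M) (hC : MurreC W (M ⊗ Mᘁ)) (l : ℤ)
    (R : Retract (W.T l) M) : D.NoPh := by
  intro i t h1 h2 ht hH
  apply name_injective (W := W)
  set E := D.tensor D.dual with hE
  let ε : M ⊗ Mᘁ ⟶ M ⊗ Mᘁ := t ⊗ₘ (tᘁ)
  have hE0 : E.p 0 = ∑ a ∈ D.s, D.p a ⊗ₘ (D.p (-(0 - a)))ᘁ := rfl
  have hne : ∀ a, a ≠ i → D.p a ≫ t = 0 := fun a ha => by
    rw [← h1, ← Category.assoc, D.orth _ _ ha, zero_comp]
  have hne' : ∀ a, a ≠ i → t ≫ D.p a = 0 := fun a ha => by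
    rw [← h2, Category.assoc, D.orth _ _ (Ne.symm ha), comp_zero]
  have hεε : ε ≫ ε = ε := by
    change (t ⊗ₘ (tᘁ)) ≫ (t ⊗ₘ (tᘁ)) = _
    rw [MonoidalCategory.tensorHom_comp_tensorHom, ht, ← comp_rightAdjointMate, ht]
  have hE1 : E.p 0 ≫ ε = ε := by
    rw [hE0, Preadditive.sum_comp]
    by_cases hi : i ∈ D.s
    · rw [Finset.sum_eq_single_of_mem i hi]
      · change _ ≫ (t ⊗ₘ (tᘁ)) = (t ⊗ₘ (tᘁ))
        rw [MonoidalCategory.tensorHom_comp_tensorHom, h1, ← comp_rightAdjointMate]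
        have : -(0 - i) = i := by ring
        rw [this, h2]
      · intro a _ ha
        change _ ≫ (t ⊗ₘ (tᘁ)) = 0
        rw [MonoidalCategory.tensorHom_comp_tensorHom, hne a ha]
        simp
    · have ht0 : t = 0 := by rw [← h1, D.p_eq_zero hi, zero_comp]
      have : ε = 0 := by
        change (t ⊗ₘ (tᘁ)) = 0
        rw [ht0]; simp
      rw [this, Finset.sum_congr rfl (g := fun _ => 0)]
      · simp
      · intro a _; simp
  have hE2 : ε ≫ E.p 0 = ε := by
    rw [hE0, Preadditive.comp_sum]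
    by_cases hi : i ∈ D.s
    · rw [Finset.sum_eq_single_of_mem i hi]
      · change (t ⊗ₘ (tᘁ)) ≫ _ = (t ⊗ₘ (tᘁ))
        rw [MonoidalCategory.tensorHom_comp_tensorHom, h2, ← comp_rightAdjointMate]
        have : -(0 - i) = i := by ring
        rw [this, h1]
      · intro a _ ha
        change (t ⊗ₘ (tᘁ)) ≫ _ = 0
        rw [MonoidalCategory.tensorHom_comp_tensorHom, hne' a ha]
        simp
    · have ht0 : t = 0 := by rw [← h1, D.p_eq_zero hi, zero_comp]
      have : ε = 0 := by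
        change (t ⊗ₘ (tᘁ)) = 0
        rw [ht0]; simp
      rw [this, Finset.sum_congr rfl (g := fun _ => 0)]
      · simp
      · intro a _; simp
  have hHε : W.H.map ε = 0 := W.H_tensor_zero t (tᘁ) hH
  have h3 := hC.vanish 0 (unitRetract W l R)
    (E.move 0 (-1) (by omega) ε hE1 hE2 hεε hHε) (-1) (by omega) (name W t)
  have h4 : (E.move 0 (-1) (by omega) ε hE1 hE2 hεε hHε).p (-1) = E.p (-1) + ε := by
    change E.p (-1) - (if (-1 : ℤ) = 0 then ε else 0) + (if (-1 : ℤ) = -1 then ε else 0) = _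
    rw [if_neg (by omega), if_pos rfl, sub_zero]
  rw [h4] at h3
  have h5 := congrArg (· ≫ ε) h3
  simp only [zero_comp, Category.assoc, Preadditive.add_comp] at h5
  have h6 : E.p (-1) ≫ ε = 0 := by
    rw [← hE1, ← Category.assoc, E.orth _ _ (by omega), zero_comp]
  rw [h6, hεε, zero_add] at h5
  have h7 : name W t ≫ ε = name W t := by
    change name W t ≫ (t ⊗ₘ (tᘁ)) = _
    rw [name_comp, ht, ht]
  rwa [h7] at h5

end Pool.Agent.Helper15.Murre
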