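import Mathlib
import Pool.Agent.Helper15.Murre.End

open CategoryTheory MonoidalCategory Limits TensorProduct

universe w v u

namespace Pool.Agent.Helper15.Murre

variable {C : Type u} [Category.{v} C] [Preadditive C] [Linear ℚ C]
  [MonoidalCategory C] [SymmetricCategory C] [MonoidalPreadditive C] [MonoidalLinear ℚ C] [RigidCategory C]
  {F : Type w} [Field F]
variable {W : MotivicHomology C F} {M N : C}

section iso

omit [MonoidalPreadditive C] [MonoidalLinear ℚ C]

/-- transport of a Chow-Kunneth decomposition along an isomorphism -/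
noncomputable def CK.ofIso (e : M ≅ N) (D : CK W M) : CK W N where
  p a := e.inv ≫ D.p a ≫ e.hom
  idem a := by
    simp only [Category.assoc, Iso.hom_inv_id_assoc]
    rw [← Category.assoc (D.p a) (D.p a), D.idem]
  orth a b hab := by
    simp only [Category.assoc, Iso.hom_inv_id_assoc]
    rw [← Category.assoc (D.p a) (D.p b), D.orth a b hab]; simp
  finite := by
    refine D.finite.subset ?_
    intro a ha h
    apply ha
    simp [h]
  sum := by
    rw [finsum_eq_sum_of_support_subset (s := D.s)]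
    · rw [← Preadditive.comp_sum, ← Preadditive.sum_comp, D.sum_s]
      simp
    · intro a ha
      by_contra h
      apply ha
      simp [D.p_eq_zero (i := a) (by simpa using h)]
  homology a j x hx := by
    simp only [W.map_comp_apply]
    rw [D.homology a j _ (W.map_gr _ _ _ hx)]
    split_ifs
    · rw [← W.map_comp_apply, e.inv_hom_id, W.map_id_apply]
    · simp

/-- (C) is invariant under isomorphism -/
lemma MurreC.ofIso (e : M ≅ N) (h : MurreC W M) : MurreC W N := by
  rw [MurreC_iff] at h ⊢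
  intro D D' l i j hij α
  have h1 := h (D.ofIso e.symm) (D'.ofIso e.symm) l i j hij (α ≫ e.inv)
  change (α ≫ e.inv) ≫ (e.hom ≫ D.p i ≫ e.inv) ≫ (e.hom ≫ D'.p j ≫ e.inv) = 0 at h1
  have h2 := congrArg (· ≫ e.hom) h1
  simpa using h2

end iso

omit [MonoidalLinear ℚ C] in
/-- whiskering with a Tate object is faithful -/
lemma whisker_faithful {X Y : C} (f : X ⟶ Y) (m : ℤ) (h : f ▷ (W.T m) = 0) : f = 0 := by
  have h1 : f ▷ (W.T m ⊗ W.T (-m)) = 0 := by
    rw [whiskerRight_tensor, h]
    simp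
  have h4 := whisker_exchange f (W.tateInv m).hom
  rw [h1, zero_comp] at h4
  have h5 : f ▷ (𝟙_ C) = 0 := by
    have : f ▷ (𝟙_ C) = (X ◁ (W.tateInv m).inv) ≫ (X ◁ (W.tateInv m).hom) ≫ f ▷ (𝟙_ C) := by
      rw [← Category.assoc, ← MonoidalCategory.whiskerLeft_comp]
      simp
    rw [this, h4, comp_zero]
  have h6 : f = (ρ_ _).inv ≫ f ▷ (𝟙_ C) ≫ (ρ_ _).hom := by simp
  rw [h6, h5]; simp

variable (W) in
/-- the Chow-Kunneth decomposition of the Tate object `1(n)`, which is pure of weight `2n` -/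
noncomputable def CK.tate (n : ℤ) : CK W (W.T n) :=
  CK.ofPure {2 * n} (fun i => if i = 2 * n then 𝟙 _ else 0)
    (fun i hi => if_neg (by simpa using hi))
    (by
      intro i
      split_ifs <;> simp)
    (by
      intro i j hij
      split_ifs with h1 h2
      · exact absurd (h1.trans h2.symm) hij
      all_goals simp)
    (by simp)
    (by
      intro i j hij x hx
      have hx0 : i = 2 * n → x = 0 := by
        intro h
        exact W.eq_zero_of_mem (by rw [← h]; exact hij) hx (W.mem_gr_tate n x)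
      split_ifs with h
      · rw [hx0 h, map_zero]
      · exact W.map_zero_apply _)

/-- the Tate twist of a Chow-Kunneth decomposition -/
noncomputable def CK.twist (D : CK W M) (n : ℤ) :
    CK W (M ⊗ W.T n) := D.tensor (CK.tate W n)

omit [MonoidalLinear ℚ C] in
lemma CK.twist_p (D : CK W M) (n m : ℤ) :
    (D.twist n).p m = D.p (m - 2 * n) ▷ (W.T n) := by
  change (∑ a ∈ D.s, D.p a ⊗ₘ (if m - a = 2 * n then 𝟙 (W.T n) else 0)) = _
  by_cases h : m - 2 * n ∈ D.s
  · rw [Finset.sum_eq_single_of_mem _ h]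
    · rw [if_pos (by omega)]
      simp
    · intro b _ hb
      rw [if_neg (by omega)]
      simp
  · rw [D.p_eq_zero h, Finset.sum_eq_zero]
    · simp
    · intro a ha
      rw [if_neg]
      · simp
      · intro h'
        apply h
        have : m - 2 * n = a := by omega
        rwa [this]

variable (W) in
/-- `M(n)(-n) = M` -/
noncomputable def untwist (M : C) (n : ℤ) : (M ⊗ W.T n) ⊗ W.T (-n) ≅ M :=
  (α_ _ _ _) ≪≫ whiskerLeftIso M (W.tateInv n) ≪≫ ρ_ M

omit [MonoidalPreadditive C] [MonoidalLinear ℚ C] in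
lemma untwist_natural (f : M ⟶ N) (n : ℤ) :
    (f ▷ (W.T n)) ▷ (W.T (-n)) ≫ (untwist W N n).hom = (untwist W M n).hom ≫ f := by
  unfold untwist
  simp only [Iso.trans_hom, whiskerLeftIso_hom, Category.assoc]
  rw [associator_naturality_left_assoc, ← whisker_exchange_assoc, rightUnitor_naturality]

variable (W) in
/-- `CH_l(M(n)) → CH_{l-n}(M)` -/
noncomputable def shiftCH (l n : ℤ) (α : W.CH l (M ⊗ W.T n)) : W.CH (l - n) M :=
  (eqToHom (by rw [sub_eq_add_neg]) ≫ (W.tateAdd l (-n)).hom) ≫ (α ▷ W.T (-n)) ≫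
    (untwist W M n).hom

omit [MonoidalLinear ℚ C] in
lemma shiftCH_injective (l n : ℤ) (α : W.CH l (M ⊗ W.T n)) (h : shiftCH W l n α = 0) :
    α = 0 := by
  apply whisker_faithful (W := W) α (-n)
  unfold shiftCH at h
  have h1 : W.T (l - n) = W.T (l + -n) := by rw [sub_eq_add_neg]
  have h2 : (W.tateAdd l (-n)).inv ≫ eqToHom h1.symm ≫
      ((eqToHom h1 ≫ (W.tateAdd l (-n)).hom) ≫ (α ▷ W.T (-n)) ≫ (untwist W M n).hom) ≫
        (untwist W M n).inv = 0 := by
    rw [h]; simp
  simpa using h2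

omit [MonoidalLinear ℚ C] in
lemma shiftCH_comp (D : CK W M) (l n m : ℤ)
    (α : W.CH l (M ⊗ W.T n)) :
    shiftCH W l n (α ≫ (D.twist n).p m) = shiftCH W l n α ≫ D.p (m - 2 * n) := by
  rw [CK.twist_p]
  unfold shiftCH
  simp only [comp_whiskerRight, Category.assoc]
  rw [untwist_natural]

omit [MonoidalPreadditive C] [MonoidalLinear ℚ C] in
lemma shiftCH_hom (l n : ℤ) (α : W.CH l (M ⊗ W.T n)) (h : W.H.map α = 0) :
    W.H.map (shiftCH W l n α) = 0 := by
  have h2 : W.H.map (α ▷ W.T (-n)) = 0 := by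
    have := W.H_tensor_zero α (𝟙 (W.T (-n))) h
    rwa [tensorHom_id] at this
  unfold shiftCH
  rw [Functor.map_comp, Functor.map_comp (W.H) (α ▷ _), h2]
  simp

/-- (D) passes to Tate twists -/
lemma CK.twist_murreD {D : CK W M} (hD : D.MurreD) (n : ℤ) :
    (D.twist n).MurreD := by
  rw [CK.MurreD_iff] at hD ⊢
  intro l α h1 h2
  apply shiftCH_injective
  apply hD (l - n)
  · have := shiftCH_comp D l n (2 * l) α
    rw [h1] at this
    rw [show 2 * (l - n) = 2 * l - 2 * n by ring]
    exact this.symm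
  · exact shiftCH_hom l n α h2

/-- (B) passes to Tate twists -/
lemma CK.twist_murreB {D : CK W M} (hB : D.MurreB) (n : ℤ) :
    (D.twist n).MurreB := by
  rw [CK.MurreB_iff] at hB ⊢
  intro l i hi α
  apply shiftCH_injective
  rw [shiftCH_comp]
  exact hB (l - n) (i - 2 * n) (by omega) _

variable (W) in
/-- if `1(l)` is a direct summand of `M`, then `1(l+n)` is a direct summand of `M(n)` -/
noncomputable def twistRetract (l n : ℤ) (R : Retract (W.T l) M) :
    Retract (W.T (l + n)) (M ⊗ W.T n) where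
  i := (W.tateAdd l n).hom ≫ R.i ▷ (W.T n)
  r := R.r ▷ (W.T n) ≫ (W.tateAdd l n).inv
  retract := by
    simp only [Category.assoc]
    rw [← Category.assoc (R.i ▷ _), ← comp_whiskerRight, R.retract]
    simp

variable (W) in
/-- `M(n) ⊗ M(n)ᘁ = M ⊗ Mᘁ` -/
noncomputable def twistEnd (M : C) (n : ℤ) :
    M ⊗ Mᘁ ≅ (M ⊗ W.T n) ⊗ (M ⊗ W.T n)ᘁ :=
  whiskerLeftIso M ((λ_ (Mᘁ)).symm ≪≫ whiskerRightIso (W.tateInv n).symm (Mᘁ) ≪≫
    whiskerRightIso (whiskerLeftIso (W.T n) (W.tateDual n).symm) (Mᘁ) ≪≫ α_ _ _ _) ≪≫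
  (α_ _ _ _).symm ≪≫ whiskerLeftIso (M ⊗ W.T n) (rightDualTensorIso M (W.T n)).symm

end Pool.Agent.Helper15.Murre
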