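import Mathlib
import Pool.Agent.Helper15.Murre.Twist

open CategoryTheory MonoidalCategory Limits TensorProduct

universe w v u

namespace Pool.Agent.Helper15.Murre

section basic

variable {C : Type u} [Category.{v} C] [Preadditive C] [Linear ℚ C]
  [MonoidalCategory C] [SymmetricCategory C] [RigidCategory C]
  {F : Type w} [Field F]
variable {W : MotivicHomology C F} {M N : C}

lemma CK.MurreD_iff' (D : CK W M) :
    D.MurreD ↔ ∀ l : ℤ, ∀ α : W.CH l M, W.H.map (α ≫ D.p (2 * l)) = 0 →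
      α ≫ D.p (2 * l) = 0 := by
  rw [CK.MurreD_iff]
  constructor
  · intro h l α hα
    exact h l _ (by rw [Category.assoc, D.idem]) hα
  · intro h l α h1 h2
    have := h l α (by rw [h1, h2])
    rwa [h1] at this

/-- components of `α` of weight different from `2l` are homologically trivial -/
lemma CK.H_comp_p (D : CK W M) {l i : ℤ} (hi : i ≠ 2 * l) (α : W.CH l M) :
    W.H.map (α ≫ D.p i) = 0 := by
  ext x
  rw [W.map_comp_apply, D.homology i (2 * l) _ (W.map_gr _ _ _ (W.mem_gr_tate l x)),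
    if_neg (Ne.symm hi)]
  rfl

end basic

variable {C : Type u} [Category.{v} C] [Preadditive C] [Linear ℚ C]
  [MonoidalCategory C] [SymmetricCategory C] [MonoidalPreadditive C] [RigidCategory C]
  {F : Type w} [Field F]
variable {W : MotivicHomology C F} {M N X : C}

lemma CK.tensor_p (D : CK W M) (E : CK W N) (n : ℤ) :
    (D.tensor E).p n = ∑ a ∈ D.s, D.p a ⊗ₘ E.p (n - a) := rfl

lemma CK.pure_comp_tensor (D : CK W M) (E : CK W N) (a b n : ℤ) :
    (D.p a ⊗ₘ E.p b) ≫ (D.tensor E).p n = if a + b = n then D.p a ⊗ₘ E.p b else 0 := by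
  rw [CK.tensor_p, Preadditive.comp_sum]
  by_cases ha : a ∈ D.s
  · rw [Finset.sum_eq_single_of_mem a ha]
    · rw [MonoidalCategory.tensorHom_comp_tensorHom, D.idem]
      split_ifs with h
      · have : n - a = b := by omega
        rw [this, E.idem]
      · rw [E.orth _ _ (by omega)]; simp
    · intro c _ hc
      rw [MonoidalCategory.tensorHom_comp_tensorHom, D.orth _ _ (Ne.symm hc)]; simp
  · rw [D.p_eq_zero ha]
    simp

lemma CK.tensor_comp_pure (D : CK W M) (E : CK W N) (a b n : ℤ) :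
    (D.tensor E).p n ≫ (D.p a ⊗ₘ E.p b) = if a + b = n then D.p a ⊗ₘ E.p b else 0 := by
  rw [CK.tensor_p, Preadditive.sum_comp]
  by_cases ha : a ∈ D.s
  · rw [Finset.sum_eq_single_of_mem a ha]
    · rw [MonoidalCategory.tensorHom_comp_tensorHom, D.idem]
      split_ifs with h
      · have : n - a = b := by omega
        rw [this, E.idem]
      · rw [E.orth _ _ (by omega)]; simp
    · intro c _ hc
      rw [MonoidalCategory.tensorHom_comp_tensorHom, D.orth _ _ hc]; simp
  · rw [D.p_eq_zero ha]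
    simp

omit [MonoidalPreadditive C] in
lemma CK.pure_idem (D : CK W M) (E : CK W N) (a b : ℤ) :
    (D.p a ⊗ₘ E.p b) ≫ (D.p a ⊗ₘ E.p b) = D.p a ⊗ₘ E.p b := by
  rw [MonoidalCategory.tensorHom_comp_tensorHom, D.idem, E.idem]

lemma CK.tensor_sum (D : CK W M) (E : CK W N) :
    ∑ a ∈ D.s, ∑ b ∈ E.s, (D.p a ⊗ₘ E.p b) = 𝟙 (M ⊗ N) := by
  have h2 : ∀ a ∈ D.s, ∑ b ∈ E.s, (D.p a ⊗ₘ E.p b) = D.p a ▷ N := by
    intro a _
    simp only [MonoidalCategory.tensorHom_def]
    rw [← Preadditive.comp_sum, ← whiskerLeft_sum M E.s E.p, E.sum_s]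
    simp
  rw [Finset.sum_congr rfl h2, ← sum_whiskerRight D.s D.p N, D.sum_s]
  simp

lemma CK.tensor_ext (D : CK W M) (E : CK W N) {f g : M ⊗ N ⟶ X}
    (h : ∀ a b, (D.p a ⊗ₘ E.p b) ≫ f = (D.p a ⊗ₘ E.p b) ≫ g) : f = g := by
  rw [← Category.id_comp f, ← Category.id_comp g, ← D.tensor_sum E]
  simp only [Preadditive.sum_comp]
  exact Finset.sum_congr rfl fun a _ => Finset.sum_congr rfl fun b _ => h a b

lemma CK.tensor_ext' (D : CK W M) (E : CK W N) {f g : X ⟶ M ⊗ N}
    (h : ∀ a b, f ≫ (D.p a ⊗ₘ E.p b) = g ≫ (D.p a ⊗ₘ E.p b)) : f = g := by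
  rw [← Category.comp_id f, ← Category.comp_id g, ← D.tensor_sum E]
  simp only [Preadditive.comp_sum]
  exact Finset.sum_congr rfl fun a _ => Finset.sum_congr rfl fun b _ => h a b

lemma CK.tensor_murreB_iff (D : CK W M) (E : CK W N) :
    (D.tensor E).MurreB ↔ ∀ l a b : ℤ, a + b < 2 * l → ∀ α : W.CH l (M ⊗ N),
      α ≫ (D.p a ⊗ₘ E.p b) = 0 := by
  rw [CK.MurreB_iff]
  constructor
  · intro h l a b hab α
    have h1 := h l (a + b) hab α
    have h2 := D.tensor_comp_pure E a b (a + b)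
    rw [if_pos rfl] at h2
    rw [← h2, ← Category.assoc, h1, zero_comp]
  · intro h l i hi α
    rw [CK.tensor_p, Preadditive.comp_sum]
    apply Finset.sum_eq_zero
    intro a _
    exact h l a (i - a) (by omega) α

lemma CK.tensor_murreD_iff (D : CK W M) (E : CK W N) :
    (D.tensor E).MurreD ↔ ∀ l a b : ℤ, a + b = 2 * l → ∀ α : W.CH l (M ⊗ N),
      W.H.map (α ≫ (D.p a ⊗ₘ E.p b)) = 0 → α ≫ (D.p a ⊗ₘ E.p b) = 0 := by
  rw [CK.MurreD_iff']
  constructor
  · intro h l a b hab α hα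
    have h2 := D.pure_comp_tensor E a b (2 * l)
    rw [if_pos hab] at h2
    have h1 := h l (α ≫ (D.p a ⊗ₘ E.p b)) (by rw [Category.assoc, h2, hα])
    rwa [Category.assoc, h2] at h1
  · intro h l α hα
    apply D.tensor_ext' E
    intro a b
    rw [zero_comp, Category.assoc, D.tensor_comp_pure E a b]
    split_ifs with hab
    · apply h l a b hab
      have h2 := D.tensor_comp_pure E a b (2 * l)
      rw [if_pos hab] at h2
      rw [← h2, ← Category.assoc, Functor.map_comp, hα, zero_comp]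
    · rw [comp_zero]

end Pool.Agent.Helper15.Murre
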