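import Mathlib
import Pool.Agent.Helper15.Murre.TensorComp

open CategoryTheory MonoidalCategory Limits TensorProduct

universe w v u

namespace Pool.Agent.Helper15.Murre

section basic

variable {C : Type u} [Category.{v} C] [Preadditive C] [Linear ℚ C]
  [MonoidalCategory C] [SymmetricCategory C] [RigidCategory C]
  {F : Type w} [Field F]
variable {W : MotivicHomology C F} {M N X : C}

/-- two Chow-Kunneth decompositions (of possibly different objects) correspond to each other
under some isomorphism -/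
def CK.Eqv (D : CK W M) (E : CK W N) : Prop :=
  ∃ e : M ≅ N, ∀ i, D.p i ≫ e.hom = e.hom ≫ E.p i

lemma CK.Eqv.refl (D : CK W M) : D.Eqv D := ⟨Iso.refl _, fun i => by simp⟩

lemma CK.Eqv.symm {D : CK W M} {E : CK W N} (h : D.Eqv E) : E.Eqv D := by
  obtain ⟨e, he⟩ := h
  refine ⟨e.symm, fun i => ?_⟩
  have h1 := congrArg (fun f => e.inv ≫ f ≫ e.inv) (he i)
  simpa using h1.symm

lemma CK.Eqv.trans {D : CK W M} {E : CK W N} {G : CK W X} (h : D.Eqv E) (h' : E.Eqv G) :
    D.Eqv G := by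
  obtain ⟨e, he⟩ := h
  obtain ⟨e', he'⟩ := h'
  refine ⟨e ≪≫ e', fun i => ?_⟩
  rw [Iso.trans_hom, ← Category.assoc, he, Category.assoc, he', Category.assoc]

lemma CK.Eqv.murreB {D : CK W M} {E : CK W N} (h : D.Eqv E) (hD : D.MurreB) : E.MurreB := by
  obtain ⟨e, he⟩ := h.symm
  rw [CK.MurreB_iff] at hD ⊢
  intro l i hi α
  have h1 := hD l i hi (α ≫ e.hom)
  rw [Category.assoc, ← he, ← Category.assoc] at h1
  have h2 := congrArg (· ≫ e.inv) h1
  simpa using h2

lemma CK.Eqv.murreD {D : CK W M} {E : CK W N} (h : D.Eqv E) (hD : D.MurreD) : E.MurreD := by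
  obtain ⟨e, he⟩ := h.symm
  rw [CK.MurreD_iff'] at hD ⊢
  intro l α hα
  have h1 := hD l (α ≫ e.hom) (by
    rw [Category.assoc, ← he, ← Category.assoc, Functor.map_comp, hα, zero_comp])
  rw [Category.assoc, ← he, ← Category.assoc] at h1
  have h2 := congrArg (· ≫ e.inv) h1
  simpa using h2

end basic

variable {C : Type u} [Category.{v} C] [Preadditive C] [Linear ℚ C]
  [MonoidalCategory C] [SymmetricCategory C] [MonoidalPreadditive C] [RigidCategory C]
  {F : Type w} [Field F]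
variable {W : MotivicHomology C F} {M N X Y : C}

lemma CK.Eqv.tensor {D : CK W M} {E : CK W N} {D' : CK W X} {E' : CK W Y} (h : D.Eqv D')
    (h' : E.Eqv E') : (D.tensor E).Eqv (D'.tensor E') := by
  obtain ⟨e, he⟩ := h
  obtain ⟨e', he'⟩ := h'
  refine ⟨e ⊗ᵢ e', fun n => ?_⟩
  apply D.tensor_ext E
  intro a b
  rw [← Category.assoc, D.pure_comp_tensor E a b n, ← Category.assoc]
  have h1 : (D.p a ⊗ₘ E.p b) ≫ (e ⊗ᵢ e').hom = (e ⊗ᵢ e').hom ≫ (D'.p a ⊗ₘ E'.p b) := by
    simp only [tensorIso_hom, MonoidalCategory.tensorHom_comp_tensorHom, he, he']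
  rw [h1, Category.assoc, D'.pure_comp_tensor E' a b n]
  split_ifs with hab
  · exact h1
  · simp

lemma CK.Eqv.twist {D : CK W M} {E : CK W N} (h : D.Eqv E) (n : ℤ) :
    (D.twist n).Eqv (E.twist n) := h.tensor (CK.Eqv.refl _)

/-- associativity of the product of Chow-Kunneth decompositions -/
lemma CK.tensor_assoc (D : CK W M) (E : CK W N) (G : CK W X) :
    ((D.tensor E).tensor G).Eqv (D.tensor (E.tensor G)) := by
  refine ⟨α_ M N X, fun n => ?_⟩
  apply (D.tensor E).tensor_ext G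
  intro k c
  have key : ∀ a b c : ℤ, ((D.p a ⊗ₘ E.p b) ⊗ₘ G.p c) ≫ ((D.tensor E).tensor G).p n ≫
      (α_ M N X).hom = ((D.p a ⊗ₘ E.p b) ⊗ₘ G.p c) ≫ (α_ M N X).hom ≫
        (D.tensor (E.tensor G)).p n := by
    intro a b c
    have h1 := D.pure_comp_tensor E a b (a + b)
    rw [if_pos rfl] at h1
    have h2 := E.pure_comp_tensor G b c (b + c)
    rw [if_pos rfl] at h2
    have h3 : ((D.p a ⊗ₘ E.p b) ⊗ₘ G.p c) ≫ ((D.tensor E).tensor G).p n
        = if a + b + c = n then ((D.p a ⊗ₘ E.p b) ⊗ₘ G.p c) else 0 := by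
      have h4 : ((D.p a ⊗ₘ E.p b) ⊗ₘ G.p c)
          = ((D.p a ⊗ₘ E.p b) ⊗ₘ G.p c) ≫ ((D.tensor E).p (a + b) ⊗ₘ G.p c) := by
        rw [MonoidalCategory.tensorHom_comp_tensorHom, h1, G.idem]
      conv_lhs => rw [h4]
      rw [Category.assoc, (D.tensor E).pure_comp_tensor G]
      split_ifs
      · rw [← h4]
      · simp
    have h5 : (D.p a ⊗ₘ (E.p b ⊗ₘ G.p c)) ≫ (D.tensor (E.tensor G)).p n
        = if a + b + c = n then (D.p a ⊗ₘ (E.p b ⊗ₘ G.p c)) else 0 := by
      have h4 : (D.p a ⊗ₘ (E.p b ⊗ₘ G.p c))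
          = (D.p a ⊗ₘ (E.p b ⊗ₘ G.p c)) ≫ (D.p a ⊗ₘ (E.tensor G).p (b + c)) := by
        rw [MonoidalCategory.tensorHom_comp_tensorHom, h2, D.idem]
      conv_lhs => rw [h4]
      rw [Category.assoc, D.pure_comp_tensor (E.tensor G), ← add_assoc]
      split_ifs
      · rw [← h4]
      · simp
    rw [← Category.assoc, h3, ← Category.assoc, MonoidalCategory.associator_naturality,
      Category.assoc, h5]
    split_ifs
    · rw [MonoidalCategory.associator_naturality]
    · simp
  have h6 : ((D.tensor E).p k ⊗ₘ G.p c) = ∑ a ∈ D.s, ((D.p a ⊗ₘ E.p (k - a)) ⊗ₘ G.p c) := by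
    rw [CK.tensor_p]
    simp only [MonoidalCategory.tensorHom_def]
    rw [sum_whiskerRight, Preadditive.sum_comp]
  rw [h6]
  simp only [Preadditive.sum_comp]
  exact Finset.sum_congr rfl fun a _ => key a _ c

/-- commutativity of the product of Chow-Kunneth decompositions -/
lemma CK.tensor_comm (D : CK W M) (E : CK W N) : (D.tensor E).Eqv (E.tensor D) := by
  refine ⟨β_ M N, fun n => ?_⟩
  apply D.tensor_ext E
  intro a b
  rw [← Category.assoc, D.pure_comp_tensor E a b n, ← Category.assoc,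
    BraidedCategory.braiding_naturality, Category.assoc, E.pure_comp_tensor D b a n, add_comm b a]
  split_ifs
  · rw [BraidedCategory.braiding_naturality]
  · simp

/-- `M(n)(m) = M(n+m)` -/
lemma CK.tate_tensor_tate (n m : ℤ) :
    ((CK.tate W n).tensor (CK.tate W m)).Eqv (CK.tate W (n + m)) := by
  refine ⟨(W.tateAdd n m).symm, fun k => ?_⟩
  apply (CK.tate W n).tensor_ext (CK.tate W m)
  intro a b
  rw [← Category.assoc, (CK.tate W n).pure_comp_tensor (CK.tate W m) a b k]
  have h1 : ∀ (n a : ℤ), (CK.tate W n).p a = if a = 2 * n then 𝟙 _ else 0 := fun _ _ => rfl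
  simp only [h1]
  by_cases ha : a = 2 * n
  · by_cases hb : b = 2 * m
    · subst ha hb
      simp only [if_true]
      by_cases hk : 2 * n + 2 * m = k
      · rw [if_pos hk, if_pos (by omega)]
        simp
      · rw [if_neg hk, if_neg (by omega)]
        simp
    · rw [if_neg hb]; simp
  · rw [if_neg ha]; simp

lemma CK.twist_tensor_twist (D : CK W M) (E : CK W N) (n m : ℤ) :
    ((D.twist n).tensor (E.twist m)).Eqv ((D.tensor E).twist (n + m)) := by
  -- (D T)(E T') = D (T (E T')) = D ((T E) T') = D ((E T) T') = D (E (T T')) = (D E) (T T')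
  refine (CK.tensor_assoc _ _ _).trans ?_
  refine ((CK.Eqv.refl D).tensor (CK.tensor_assoc _ _ _).symm).trans ?_
  refine ((CK.Eqv.refl D).tensor ((CK.tensor_comm _ _).tensor (CK.Eqv.refl _))).trans ?_
  refine ((CK.Eqv.refl D).tensor (CK.tensor_assoc _ _ _)).trans ?_
  refine (CK.tensor_assoc _ _ _).symm.trans ?_
  exact (CK.Eqv.refl _).tensor (CK.tate_tensor_tate n m)

/-- duals of Tate objects -/
lemma CK.tate_dual (n : ℤ) : (CK.tate W n).dual.Eqv (CK.tate W (-n)) := by
  refine ⟨W.tateDual n, fun k => ?_⟩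
  have h1 : (CK.tate W n).dual.p k = if k = 2 * (-n) then 𝟙 _ else 0 := by
    change ((CK.tate W n).p (-k))ᘁ = _
    have h2 : (CK.tate W n).p (-k) = if -k = 2 * n then 𝟙 _ else 0 := rfl
    rw [h2]
    by_cases hk : k = 2 * (-n)
    · rw [if_pos (by omega), if_pos hk, rightAdjointMate_id]
    · rw [if_neg (by omega), if_neg hk, mate_zero]
  have h2 : (CK.tate W (-n)).p k = if k = 2 * (-n) then 𝟙 _ else 0 := rfl
  rw [h1, h2]
  split_ifs <;> simp

end Pool.Agent.Helper15.Murre
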