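import Mathlib
import Pool.Agent.Helper15.Murre.CKIso

open CategoryTheory MonoidalCategory Limits TensorProduct

universe w v u

namespace Pool.Agent.Helper15.Murre

section basic

variable {C : Type u} [Category.{v} C] [Preadditive C] [Linear ℚ C]
  [MonoidalCategory C] [SymmetricCategory C] [RigidCategory C]
  {F : Type w} [Field F]
variable {W : MotivicHomology C F} {M N X Y : C}

/-- `f` kills the homologically trivial classes of dimension `l` with `w ≤ 2l` -/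
def Kill (W : MotivicHomology C F) (f : M ⟶ N) (w : ℤ) : Prop :=
  ∀ l : ℤ, w ≤ 2 * l → ∀ α : W.CH l M, W.H.map α = 0 → α ≫ f = 0

lemma Kill.mono {f : M ⟶ N} {w w' : ℤ} (h : Kill W f w) (hw : w ≤ w') : Kill W f w' :=
  fun l hl α hα => h l (hw.trans hl) α hα

lemma Kill.comp {f : M ⟶ N} {w : ℤ} (h : Kill W f w) (a : X ⟶ M) (b : N ⟶ Y) :
    Kill W (a ≫ f ≫ b) w := by
  intro l hl α hα
  have h1 := h l hl (α ≫ a) (by rw [Functor.map_comp, hα, zero_comp])
  rw [← Category.assoc, ← Category.assoc, h1, zero_comp]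

lemma Kill.comp_left {f : M ⟶ N} {w : ℤ} (h : Kill W f w) (a : X ⟶ M) :
    Kill W (a ≫ f) w := by
  have := h.comp a (𝟙 _)
  simpa using this

lemma Kill.comp_right {f : M ⟶ N} {w : ℤ} (h : Kill W f w) (b : N ⟶ Y) :
    Kill W (f ≫ b) w := by
  have := h.comp (𝟙 _) b
  simpa using this

lemma Kill.zero (w : ℤ) : Kill W (0 : M ⟶ N) w := fun _ _ _ _ => comp_zero

lemma Kill.add {f g : M ⟶ N} {w : ℤ} (hf : Kill W f w) (hg : Kill W g w) :
    Kill W (f + g) w := fun l hl α hα => by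
  rw [Preadditive.comp_add, hf l hl α hα, hg l hl α hα, add_zero]

lemma CK.murreB_iff_kill (D : CK W M) : D.MurreB ↔ ∀ i, Kill W (D.p i) (i + 1) := by
  rw [CK.MurreB_iff]
  constructor
  · intro h i l hl α _
    exact h l i (by omega) α
  · intro h l i hi α
    have h1 := h i l (by omega) (α ≫ D.p i) (D.H_comp_p (by omega) α)
    rwa [Category.assoc, D.idem] at h1

lemma CK.murreBD_iff_kill (D : CK W M) : (D.MurreB ∧ D.MurreD) ↔ ∀ i, Kill W (D.p i) i := by
  constructor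
  · rintro ⟨h, h'⟩ i l hl α hα
    rcases eq_or_lt_of_le hl with rfl | hlt
    · rw [CK.MurreD_iff'] at h'
      exact h' l α (by rw [Functor.map_comp, hα, zero_comp])
    · rw [CK.MurreB_iff] at h
      exact h l i hlt α
  · intro h
    refine ⟨D.murreB_iff_kill.2 fun i => (h i).mono (by omega), ?_⟩
    rw [CK.MurreD_iff']
    intro l α hα
    have h1 := h (2 * l) l le_rfl (α ≫ D.p (2 * l)) hα
    rwa [Category.assoc, D.idem] at h1

end basic

variable {C : Type u} [Category.{v} C] [Preadditive C] [Linear ℚ C]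
  [MonoidalCategory C] [SymmetricCategory C] [MonoidalPreadditive C] [RigidCategory C]
  {F : Type w} [Field F]
variable {W : MotivicHomology C F} {M N X Y Z : C}

omit [MonoidalPreadditive C] in
lemma shiftCH_comp' (l n : ℤ) (α : W.CH l (M ⊗ W.T n)) (f : M ⟶ N) :
    shiftCH W l n (α ≫ f ▷ W.T n) = shiftCH W l n α ≫ f := by
  unfold shiftCH
  simp only [comp_whiskerRight, Category.assoc]
  rw [untwist_natural]

lemma Kill.twist {f : M ⟶ N} {w : ℤ} (h : Kill W f w) (n : ℤ) :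
    Kill W (f ▷ W.T n) (w + 2 * n) := by
  intro l hl α hα
  apply shiftCH_injective
  rw [shiftCH_comp']
  exact h (l - n) (by omega) _ (shiftCH_hom l n α hα)

lemma Kill.of_tensor {D : CK W M} {E : CK W N} (h : (D.tensor E).MurreB ∧ (D.tensor E).MurreD)
    (i j : ℤ) : Kill W (D.p i ⊗ₘ E.p j) (i + j) := by
  rw [CK.murreBD_iff_kill] at h
  have h1 := (h (i + j)).comp_right (D.p i ⊗ₘ E.p j)
  rwa [D.tensor_comp_pure E, if_pos rfl] at h1

lemma murreB_tensor_of_kill {D : CK W M} {E : CK W N}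
    (h : ∀ i j, Kill W (D.p i ⊗ₘ E.p j) (i + j + 1)) : (D.tensor E).MurreB := by
  rw [CK.tensor_murreB_iff]
  intro l i j hij α
  have h1 := h i j l (by omega) (α ≫ (D.p i ⊗ₘ E.p j)) (by
    have h2 := D.pure_comp_tensor E i j (i + j)
    rw [if_pos rfl] at h2
    rw [← h2, ← Category.assoc]
    exact (D.tensor E).H_comp_p (by omega) _)
  rwa [Category.assoc, D.pure_idem] at h1

omit [MonoidalPreadditive C] in
lemma Kill.factor {p : M ⟶ N} {t : X ⟶ Y} {w : ℤ} (h : Kill W (p ⊗ₘ t) w) {X' Y' : C}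
    (a : X' ⟶ X) (b : Y ⟶ Y') : Kill W (p ⊗ₘ (a ≫ t ≫ b)) w := by
  have h1 := h.comp (M ◁ a) (N ◁ b)
  have h2 : (M ◁ a) ≫ (p ⊗ₘ t) ≫ (N ◁ b) = p ⊗ₘ (a ≫ t ≫ b) := by
    simp only [← MonoidalCategory.id_tensorHom, MonoidalCategory.tensorHom_comp_tensorHom,
      Category.id_comp, Category.comp_id]
  rwa [h2] at h1

lemma Kill.whisker_tate {p : M ⟶ N} {t : X ⟶ Y} {w : ℤ} (h : Kill W (p ⊗ₘ t) w) (n : ℤ) :
    Kill W (p ⊗ₘ (t ▷ W.T n)) (w + 2 * n) := by
  have h1 := (h.twist n).comp (α_ M X (W.T n)).inv (α_ N Y (W.T n)).hom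
  have h2 : (α_ M X (W.T n)).inv ≫ ((p ⊗ₘ t) ▷ W.T n) ≫ (α_ N Y (W.T n)).hom
      = p ⊗ₘ (t ▷ W.T n) := by
    rw [← MonoidalCategory.tensorHom_id, ← MonoidalCategory.tensorHom_id,
      MonoidalCategory.associator_naturality, Iso.inv_hom_id_assoc]
  rwa [h2] at h1

lemma Kill.tate {p : M ⟶ N} {w : ℤ} (h : Kill W p w) (n : ℤ) :
    Kill W (p ⊗ₘ 𝟙 (W.T n)) (w + 2 * n) := by
  rw [MonoidalCategory.tensorHom_id]
  exact h.twist n

lemma Kill.factor_tate {p : M ⟶ N} {w : ℤ} (h : Kill W p w) (n : ℤ) {X' Y' : C}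
    (a : X' ⟶ W.T n) (b : W.T n ⟶ Y') : Kill W (p ⊗ₘ (a ≫ b)) (w + 2 * n) := by
  have := (h.tate n).factor a b
  simpa using this

end Pool.Agent.Helper15.Murre
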