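import Mathlib
import Pool.Agent.Helper15.Murre.Twist

open CategoryTheory MonoidalCategory Limits TensorProduct

universe w v u

namespace Pool.Agent.Helper15.Murre

section basic

variable {C : Type u} [Category.{v} C] [Preadditive C] [Linear ℚ C]
  [MonoidalCategory C] [SymmetricCategory C] [RigidCategory C]
  {F : Type w} [Field F]
variable {W : MotivicHomology C F} {M N : C}

lemma MotivicHomology.map_zero_of_subsingleton (W : MotivicHomology C F) {X Y : C} (f : X ⟶ Y)
    (h : Subsingleton (W.H.obj X)) : W.H.map f = 0 := by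
  ext x
  have : x = 0 := Subsingleton.elim _ _
  rw [this, map_zero, map_zero]

lemma MotivicHomology.map_zero_of_subsingleton' (W : MotivicHomology C F) {X Y : C} (f : X ⟶ Y)
    (h : Subsingleton (W.H.obj Y)) : W.H.map f = 0 := by
  ext x
  exact Subsingleton.elim _ _

lemma MotivicHomology.subsingleton_of_id (W : MotivicHomology C F) {X : C}
    (h : W.H.map (𝟙 X) = 0) : Subsingleton (W.H.obj X) := by
  refine ⟨fun a b => ?_⟩
  rw [← W.map_id_apply a, ← W.map_id_apply b, h]
  rfl

lemma MotivicHomology.mem_gr_of_map (W : MotivicHomology C F) {X Y : C} (f : X ⟶ Y)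
    (i : ℤ) (h : ∀ x : W.H.obj X, x ∈ W.gr X i) (x : W.H.obj X) :
    (W.H.map f).hom x ∈ W.gr Y i := W.map_gr _ _ _ (h x)

/-- the Chow-Kunneth decomposition of an object whose homology is concentrated in degree `i` -/
noncomputable def CK.single (N : C) (i : ℤ) (h : ∀ x : W.H.obj N, x ∈ W.gr N i) : CK W N :=
  CK.ofPure {i} (fun j => if j = i then 𝟙 _ else 0)
    (fun j hj => if_neg (by simpa using hj))
    (by
      intro j
      split_ifs <;> simp)
    (by
      intro a b hab
      split_ifs with h1 h2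
      · exact absurd (h1.trans h2.symm) hab
      all_goals simp)
    (by simp)
    (by
      intro a b hab x hx
      have hx0 : a = i → x = 0 := by
        intro h'
        exact W.eq_zero_of_mem (by rw [← h']; exact hab) hx (h x)
      split_ifs with h'
      · rw [hx0 h', map_zero]
      · exact W.map_zero_apply _)

lemma CK.single_p (N : C) (i : ℤ) (h : ∀ x : W.H.obj N, x ∈ W.gr N i) :
    (CK.single N i h).p i = 𝟙 N := if_pos rfl

/-- the Chow-Kunneth decomposition of a direct sum -/
noncomputable def CK.biprod [HasBinaryBiproducts C] (D : CK W M) (E : CK W N) :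
    CK W (M ⊞ N) := by
  classical
  exact CK.ofPure (D.s ∪ E.s) (fun i => biprod.map (D.p i) (E.p i))
    (by
      intro i hi
      simp only [Finset.mem_union, not_or] at hi
      simp only [D.p_eq_zero hi.1, E.p_eq_zero hi.2]
      apply biprod.hom_ext' <;> simp)
    (by
      intro i
      apply biprod.hom_ext' <;> apply biprod.hom_ext <;> simp [D.idem, E.idem])
    (by
      intro i j hij
      apply biprod.hom_ext' <;> apply biprod.hom_ext <;> simp [D.orth i j hij, E.orth i j hij])
    (by
      have h1 : ∑ i ∈ D.s ∪ E.s, D.p i = 𝟙 M := by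
        rw [← D.sum_s]
        symm
        exact Finset.sum_subset Finset.subset_union_left (fun i _ hi => D.p_eq_zero hi)
      have h2 : ∑ i ∈ D.s ∪ E.s, E.p i = 𝟙 N := by
        rw [← E.sum_s]
        symm
        exact Finset.sum_subset Finset.subset_union_right (fun i _ hi => E.p_eq_zero hi)
      have h3 : ∀ i, biprod.map (D.p i) (E.p i) = biprod.fst ≫ D.p i ≫ biprod.inl
          + biprod.snd ≫ E.p i ≫ biprod.inr := by
        intro i
        apply biprod.hom_ext' <;> apply biprod.hom_ext <;> simp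
      simp only [h3]
      rw [Finset.sum_add_distrib, ← Preadditive.comp_sum, ← Preadditive.comp_sum,
        ← Preadditive.sum_comp, ← Preadditive.sum_comp, h1, h2]
      simp)
    (by
      intro i j hij x hx
      have h3 : biprod.map (D.p i) (E.p i) = biprod.fst ≫ D.p i ≫ biprod.inl
          + biprod.snd ≫ E.p i ≫ biprod.inr := by
        apply biprod.hom_ext' <;> apply biprod.hom_ext <;> simp
      rw [h3, W.map_add_apply]
      simp only [W.map_comp_apply]
      rw [D.homology i j _ (W.map_gr _ _ _ hx), E.homology i j _ (W.map_gr _ _ _ hx), if_neg hij,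
        if_neg hij]
      simp)

lemma CK.biprod_p [HasBinaryBiproducts C] (D : CK W M) (E : CK W N) (i : ℤ) :
    (D.biprod E).p i = biprod.map (D.p i) (E.p i) := rfl

end basic

variable {C : Type u} [Category.{v} C] [Preadditive C] [Linear ℚ C]
  [MonoidalCategory C] [SymmetricCategory C] [MonoidalPreadditive C] [MonoidalLinear ℚ C]
  [RigidCategory C] {F : Type w} [Field F]
variable {W : MotivicHomology C F} {M N : C}

/-- (C) for all objects implies (B) for all Chow-Kunneth decompositions -/
theorem murreB_of_murreC [HasBinaryBiproducts C] (hC : ∀ M, MurreC W M) (D : CK W M) :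
    D.MurreB := by
  rw [CK.MurreB_iff]
  intro l i hi α
  have h1 := (hC (M ⊞ W.T l)).vanish l ⟨biprod.inr, biprod.snd, by simp⟩
    (D.biprod (CK.tate W l)) i hi (α ≫ biprod.inl)
  rw [CK.biprod_p] at h1
  have h2 := congrArg (· ≫ biprod.fst) h1
  simpa using h2

omit [MonoidalLinear ℚ C] in
/-- (B) for all Chow-Kunneth decompositions implies (C) -/
theorem murreC_of_murreB (hB : ∀ (M : C) (D : CK W M), D.MurreB) : MurreC W M := by
  rw [MurreC_iff]
  intro D D' l i j hij α
  have key : D.p i ≫ D'.p j = 0 := by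
    apply name_injective (W := W)
    have h1 := hB _ (D'.tensor D.dual)
    rw [CK.MurreB_iff] at h1
    have h1' := h1 0 (j - i) (by omega) (name W (D.p i ≫ D'.p j))
    have h2 : name W (D.p i ≫ D'.p j) ≫ (D'.tensor D.dual).p (j - i)
        = name W (D.p i ≫ D'.p j) := by
      change _ ≫ (∑ a ∈ D'.s, D'.p a ⊗ₘ (D.p (-(j - i - a)))ᘁ) = _
      rw [Preadditive.comp_sum]
      by_cases hj : j ∈ D'.s
      · rw [Finset.sum_eq_single_of_mem j hj]
        · rw [name_comp]
          congr 1
          have : -(j - i - j) = i := by ring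
          rw [this]
          simp only [Category.assoc, D'.idem]
          rw [← Category.assoc, D.idem]
        · intro a _ ha
          rw [name_comp]
          simp only [Category.assoc]
          rw [D'.orth j a (Ne.symm ha)]
          simp [name]
      · rw [D'.p_eq_zero hj]
        simp [name]
    rw [← h2, h1']
  rw [key, comp_zero]

omit [MonoidalLinear ℚ C] in
/-- if (B) holds for all Chow-Kunneth decompositions, then objects without homology vanish -/
theorem id_eq_zero_of_murreB (hB : ∀ (M : C) (D : CK W M), D.MurreB) (N : C)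
    (hN : Subsingleton (W.H.obj N)) : 𝟙 N = 0 := by
  apply name_injective (W := W)
  have h1 : Subsingleton (W.H.obj (N ⊗ Nᘁ)) := by
    apply W.subsingleton_of_id
    have := W.H_tensor_zero (𝟙 N) (𝟙 (Nᘁ)) (W.map_zero_of_subsingleton _ hN)
    simpa using this
  have h2 := hB _ (CK.single (W := W) (N ⊗ Nᘁ) (-1) (fun x => by
    have : x = 0 := Subsingleton.elim _ _
    rw [this]
    exact Submodule.zero_mem _))
  rw [CK.MurreB_iff] at h2
  have h3 := h2 0 (-1) (by omega) (name W (𝟙 N))
  rw [CK.single_p, Category.comp_id] at h3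
  exact h3

/-- an object without homology whose identity is nonzero is excluded -/
def NoPhantom (W : MotivicHomology C F) : Prop :=
  ∀ N : C, Subsingleton (W.H.obj N) → IsZero N

omit [MonoidalPreadditive C] [MonoidalLinear ℚ C] in
lemma NoPhantom.idem [IsIdempotentComplete C] (h : NoPhantom W) (t : M ⟶ M) (ht : t ≫ t = t)
    (h0 : W.H.map t = 0) : t = 0 := by
  obtain ⟨P, i, e, hie, hei⟩ := IsIdempotentComplete.idempotents_split M t ht
  have h1 : (𝟙 P : P ⟶ P) = i ≫ t ≫ e := by
    rw [← hei]
    simp only [Category.assoc]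
    rw [reassoc_of% hie, hie]
  have h2 : Subsingleton (W.H.obj P) := by
    apply W.subsingleton_of_id
    rw [h1, Functor.map_comp, Functor.map_comp W.H t, h0]
    simp
  have h3 := h P h2
  rw [← hei, h3.eq_of_tgt e 0, zero_comp]

omit [MonoidalPreadditive C] [MonoidalLinear ℚ C] in
/-- an object whose homology is concentrated in degree `i` has no other Chow-Kunneth
components, if there are no phantoms -/
lemma NoPhantom.pure [IsIdempotentComplete C] (h : NoPhantom W) (D : CK W M) (i : ℤ)
    (hi : ∀ x : W.H.obj M, x ∈ W.gr M i) {j : ℤ} (hj : j ≠ i) : D.p j = 0 := by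
  apply h.idem _ (D.idem j)
  ext x
  rw [D.homology j i x (hi x), if_neg (Ne.symm hj)]
  rfl

omit [MonoidalPreadditive C] [MonoidalLinear ℚ C] in
lemma NoPhantom.pure_id [IsIdempotentComplete C] (h : NoPhantom W) (D : CK W M) (i : ℤ)
    (hi : ∀ x : W.H.obj M, x ∈ W.gr M i) : D.p i = 𝟙 M := by
  rw [← D.sum_s]
  by_cases hi' : i ∈ D.s
  · rw [Finset.sum_eq_single_of_mem i hi' (fun j _ hj => h.pure D i hi hj)]
  · rw [Finset.sum_eq_zero]
    · exact D.p_eq_zero hi'
    · intro j hj
      exact h.pure D i hi (by rintro rfl; exact hi' hj)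

omit [MonoidalPreadditive C] [MonoidalLinear ℚ C] in
/-- without phantoms, (B) for one Chow-Kunneth decomposition of every object implies (B) for
all Chow-Kunneth decompositions -/
theorem NoPhantom.murreB [IsIdempotentComplete C] (h : NoPhantom W)
    (hB : ∀ M : C, ∃ D : CK W M, D.MurreB) (D : CK W M) : D.MurreB := by
  rw [CK.MurreB_iff]
  intro l i hi α
  obtain ⟨P, f, e, hfe, hef⟩ := IsIdempotentComplete.idempotents_split M (D.p i) (D.idem i)
  have hP : ∀ x : W.H.obj P, x ∈ W.gr P i := by
    intro x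
    have h1 : (𝟙 P : P ⟶ P) = f ≫ D.p i ≫ e := by
      rw [← hef]
      simp only [Category.assoc]
      rw [reassoc_of% hfe, hfe]
    have h2 := W.range_of_pure (f ≫ D.p i ≫ e) i (by
      intro j hj y hy
      simp only [W.map_comp_apply]
      rw [D.homology i j _ (W.map_gr _ _ _ hy), if_neg hj, map_zero]) x
    rwa [← h1, W.map_id_apply] at h2
  obtain ⟨E, hE⟩ := hB P
  rw [CK.MurreB_iff] at hE
  have h1 := hE l i hi (α ≫ e)
  rw [h.pure_id E i hP, Category.comp_id] at h1
  rw [← hef, ← Category.assoc, h1, zero_comp]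

omit [MonoidalPreadditive C] [MonoidalLinear ℚ C] in
/-- the image of the projector `p i` -/
lemma CK.split [IsIdempotentComplete C] (D : CK W M) (i : ℤ) : ∃ (P : C) (f : P ⟶ M) (e : M ⟶ P),
    f ≫ e = 𝟙 P ∧ e ≫ f = D.p i ∧ ∀ x : W.H.obj P, x ∈ W.gr P i := by
  obtain ⟨P, f, e, hfe, hef⟩ := IsIdempotentComplete.idempotents_split M (D.p i) (D.idem i)
  refine ⟨P, f, e, hfe, hef, ?_⟩
  intro x
  have h1 : (𝟙 P : P ⟶ P) = f ≫ D.p i ≫ e := by
    rw [← hef]
    simp only [Category.assoc]
    rw [reassoc_of% hfe, hfe]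
  have h2 := W.range_of_pure (f ≫ D.p i ≫ e) i (by
    intro j hj y hy
    simp only [W.map_comp_apply]
    rw [D.homology i j _ (W.map_gr _ _ _ hy), if_neg hj, map_zero]) x
  rwa [← h1, W.map_id_apply] at h2

variable (W) in
/-- the vanishing statement: if the homology of `N` is concentrated in one degree `w ≤ 0`, then
`CH_0(N)_hom = 0` -/
def WeightVanishing : Prop :=
  ∀ (N : C) (w : ℤ), w ≤ 0 → W.gr N w = ⊤ → W.CHhom 0 N = ⊥

omit [MonoidalLinear ℚ C] in
lemma WeightVanishing.vanish [IsIdempotentComplete C] (h : WeightVanishing W) (D : CK W M)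
    (l i : ℤ) (hi : i ≤ 2 * l) (α : W.CH l M) (hα : W.H.map (α ≫ D.p i) = 0) :
    α ≫ D.p i = 0 := by
  obtain ⟨P, f, e, hfe, hef, hP⟩ := D.split i
  have h1 : W.H.map (α ≫ e) = 0 := by
    have : α ≫ e = (α ≫ D.p i) ≫ e := by
      rw [← hef]
      simp only [Category.assoc]
      rw [hfe, Category.comp_id]
    rw [this, Functor.map_comp, hα, zero_comp]
  have h2 : ∀ x : W.H.obj (P ⊗ W.T (-l)), x ∈ W.gr (P ⊗ W.T (-l)) (i + 2 * (-l)) := by
    intro x
    have := W.tensor_range (𝟙 P) (𝟙 (W.T (-l))) i (2 * (-l))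
      (fun x => W.map_gr _ _ _ (hP x)) (fun x => W.map_gr _ _ _ (W.mem_gr_tate _ x)) x
    rwa [MonoidalCategory.id_tensorHom_id, W.map_id_apply] at this
  have h3 : ∀ m : ℤ, m = 0 → ∀ β : W.CH m (P ⊗ W.T (-l)), W.H.map β = 0 → β = 0 := by
    rintro m rfl β hβ
    have h4 := h (P ⊗ W.T (-l)) (i + 2 * (-l)) (by omega) (by
      rw [eq_top_iff]
      intro x _
      exact h2 x)
    have h5 : β ∈ W.CHhom 0 (P ⊗ W.T (-l)) := hβ
    rw [h4] at h5
    simpa using h5
  let u : (P ⊗ W.T (-l)) ⊗ W.T l ≅ P :=
    eqToIso (by rw [neg_neg]) ≪≫ untwist W P (-l)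
  have h4 : α ≫ e ≫ u.inv = 0 := by
    apply shiftCH_injective (W := W) (M := P ⊗ W.T (-l)) l l
    apply h3 _ (by ring)
    apply shiftCH_hom
    rw [← Category.assoc, Functor.map_comp, h1, zero_comp]
  have h5 : α ≫ e = 0 := by
    have := congrArg (· ≫ u.hom) h4
    simpa using this
  rw [← hef, ← Category.assoc, h5, zero_comp]

omit [MonoidalLinear ℚ C] in
lemma WeightVanishing.murreB [IsIdempotentComplete C] (h : WeightVanishing W) (D : CK W M) :
    D.MurreB := by
  rw [CK.MurreB_iff]
  intro l i hi α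
  apply h.vanish D l i (by omega)
  ext x
  rw [W.map_comp_apply, D.homology i (2 * l) _ (W.map_gr _ _ _ (W.mem_gr_tate l x)),
    if_neg (by omega)]
  rfl

omit [MonoidalLinear ℚ C] in
lemma WeightVanishing.murreD [IsIdempotentComplete C] (h : WeightVanishing W) (D : CK W M) :
    D.MurreD := by
  rw [CK.MurreD_iff]
  intro l α h1 h2
  rw [← h1]
  apply h.vanish D l (2 * l) le_rfl
  rwa [h1]

end Pool.Agent.Helper15.Murre
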