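import Mathlib

/-!
# Symmetric and exterior powers, Kimura-O'Sullivan finiteness
-/

open CategoryTheory MonoidalCategory Limits

universe v u

namespace Pool.Agent.Helper15.Murre

section basic

variable {C : Type u} [Category.{v} C] [MonoidalCategory C]

/-- the tensor power `M^{⊗n}` -/
@[reducible] def tpow (M : C) : ℕ → C
  | 0 => 𝟙_ C
  | n + 1 => tpow M n ⊗ M

variable [SymmetricCategory C]

/-- the exchange of the last two factors of `X ⊗ M ⊗ M` -/
def sw (X M : C) : (X ⊗ M) ⊗ M ⟶ (X ⊗ M) ⊗ M :=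
  (α_ X M M).hom ≫ (X ◁ (β_ M M).hom) ≫ (α_ X M M).inv

/-- the action on `M^{⊗n}` of the transposition of the factors number `i` and `i + 1`
(numbered from `0` to `n - 1`), for `i + 1 < n` (and the identity for other `i`) -/
def adj (M : C) : (n i : ℕ) → (tpow M n ⟶ tpow M n)
  | 0, _ => 𝟙 _
  | 1, _ => 𝟙 _
  | n + 2, i => if i = n then sw (tpow M n) M else adj M (n + 1) i ▷ M

lemma adj_last (M : C) (n : ℕ) : adj M (n + 2) n = sw (tpow M n) M := if_pos rfl

lemma adj_succ (M : C) (n i : ℕ) (h : i + 1 < n) : adj M (n + 1) i = adj M n i ▷ M := by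
  cases n with
  | zero => omega
  | succ n => exact if_neg (by omega)

lemma sw_sq (X M : C) : sw X M ≫ sw X M = 𝟙 _ := by
  simp only [sw, Category.assoc, Iso.inv_hom_id_assoc]
  rw [← MonoidalCategory.whiskerLeft_comp_assoc]
  simp

lemma sw_natural {X Y : C} (M : C) (f : X ⟶ Y) :
    (f ▷ M ▷ M) ≫ sw Y M = sw X M ≫ (f ▷ M ▷ M) := by
  simp only [sw, Category.assoc]
  rw [associator_naturality_left_assoc, ← whisker_exchange_assoc, associator_inv_naturality_left]

lemma sw_braid (X M : C) : sw (X ⊗ M) M ≫ (sw X M ▷ M) ≫ sw (X ⊗ M) M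
    = (sw X M ▷ M) ≫ sw (X ⊗ M) M ≫ (sw X M ▷ M) := by
  have h := congrArg (fun t => (α_ (X ⊗ M) M M).hom ≫ (α_ X M (M ⊗ M)).hom ≫ (X ◁ t) ≫
    (α_ X M (M ⊗ M)).inv ≫ (α_ (X ⊗ M) M M).inv) (BraidedCategory.yang_baxter M M M)
  simp only [sw]
  simp only [MonoidalCategory.whiskerLeft_comp] at h
  calc _ = _ := by monoidal
    _ = _ := h.symm
    _ = _ := by monoidal

end basic

section defs

variable {C : Type u} [Category.{v} C] [Preadditive C] [MonoidalCategory C] [SymmetricCategory C]

/-- `Λ^n M = 0`: there is no nonzero antisymmetric morphism out of `M^{⊗n}` -/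
def ExtVanish (M : C) (n : ℕ) : Prop :=
  ∀ (Y : C) (g : tpow M n ⟶ Y), (∀ i, i + 1 < n → adj M n i ≫ g = -g) → g = 0

/-- `Sym^n M = 0`: there is no nonzero symmetric morphism out of `M^{⊗n}` -/
def SymVanish (M : C) (n : ℕ) : Prop :=
  ∀ (Y : C) (g : tpow M n ⟶ Y), (∀ i, i + 1 < n → adj M n i ≫ g = g) → g = 0

/-- `M` is finite-dimensional in the sense of Kimura and O'Sullivan: `M = P ⊕ Q` with
`Λ^n P = 0` and `Sym^m Q = 0` for some `n`, `m` -/
def KimuraFinite [HasBinaryBiproducts C] (M : C) : Prop :=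
  ∃ (P Q : C) (n m : ℕ), Nonempty (M ≅ P ⊞ Q) ∧ ExtVanish P n ∧ SymVanish Q m

end defs

/-- the induction step for (anti)symmetrizers, in a ring -/
lemma ring_step {R : Type*} [Ring R] [Algebra ℚ R] (m ε : ℚ) (hε : ε * ε = 1) (x y s t : R)
    (hs : s * s = 1) (hst : s * t * s = t * s * t) (hys : y * s = s * y) (hxy : x * y = x)
    (hyx : y * x = x) (hxt : x * t = -(ε • x)) (htx : t * x = -(ε • x)) (hxx : x * x = x)
    (hm : m • x = y - ((m - 1) * ε) • (y * t * y)) :
    s * (x - (m * ε) • (x * s * x)) = -(ε • (x - (m * ε) • (x * s * x))) ∧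
    (x - (m * ε) • (x * s * x)) * s = -(ε • (x - (m * ε) • (x * s * x))) ∧
    (x - (m * ε) • (x * s * x)) * (x - (m * ε) • (x * s * x))
      = (m + 1) • (x - (m * ε) • (x * s * x)) := by
  have hyy : y * t * y * t = y * t * y * t := rfl
  -- `m x s x`
  have e1 : m • (x * s * x) = s * x - ((m - 1) * ε) • (y * t * s * x) := by
    have : m • (x * s * x) = (m • x) * (s * x) := by
      rw [smul_mul_assoc, mul_assoc]
    rw [this, hm, sub_mul, smul_mul_assoc]
    congr 1
    · rw [← mul_assoc, hys, mul_assoc, hyx]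
    · congr 1
      simp only [mul_assoc]
      rw [← mul_assoc y s x, hys, mul_assoc, hyx]
  have e1' : m • (x * s * x) = x * s - ((m - 1) * ε) • (x * s * t * y) := by
    have : m • (x * s * x) = (x * s) * (m • x) := by
      rw [mul_smul_comm]
    rw [this, hm, mul_sub, mul_smul_comm]
    congr 1
    · rw [mul_assoc, ← hys, ← mul_assoc, hxy]
    · congr 1
      simp only [← mul_assoc]
      rw [mul_assoc x s y, ← hys, ← mul_assoc, hxy]
  -- `m s x s x`
  have e2 : m • (s * x * s * x) = x + (m - 1) • (y * t * s * x) := by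
    have h1 : m • (s * x * s * x) = s * (m • (x * s * x)) := by
      rw [mul_smul_comm]; simp only [mul_assoc]
    rw [h1, e1, mul_sub, mul_smul_comm]
    have h2 : s * (s * x) = x := by rw [← mul_assoc, hs, one_mul]
    have h3 : s * (y * t * s * x) = -(ε • (y * t * s * x)) := by
      calc s * (y * t * s * x) = y * (s * t * s) * x := by
            simp only [← mul_assoc]; rw [← hys]
        _ = y * t * s * (t * x) := by rw [hst]; simp only [mul_assoc]
        _ = -(ε • (y * t * s * x)) := by
            rw [htx, mul_neg, mul_smul_comm]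
    rw [h2, h3, smul_neg, sub_neg_eq_add, smul_smul]
    congr 2
    rw [mul_assoc, hε, mul_one]
  have e2' : m • (x * s * x * s) = x + (m - 1) • (x * s * t * y) := by
    have h1 : m • (x * s * x * s) = (m • (x * s * x)) * s := by
      rw [smul_mul_assoc]
    rw [h1, e1', sub_mul, smul_mul_assoc]
    have h2 : x * s * s = x := by rw [mul_assoc, hs, mul_one]
    have h3 : (x * s * t * y) * s = -(ε • (x * s * t * y)) := by
      calc (x * s * t * y) * s = x * (s * t * s) * y := by
            simp only [mul_assoc]; rw [hys]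
        _ = (x * t) * (s * t * y) := by rw [hst]; simp only [mul_assoc]
        _ = -(ε • (x * s * t * y)) := by
            rw [hxt, neg_mul, smul_mul_assoc]; simp only [mul_assoc]
    rw [h2, h3, smul_neg, sub_neg_eq_add, smul_smul]
    congr 2
    rw [mul_assoc, hε, mul_one]
  have f1 : s * (x - (m * ε) • (x * s * x)) = -(ε • (x - (m * ε) • (x * s * x))) := by
    have h1 : (m * ε) • (x * s * x) = ε • (m • (x * s * x)) := by rw [smul_smul, mul_comm]
    have h2 : s * ((m * ε) • (x * s * x)) = ε • (m • (s * x * s * x)) := by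
      rw [mul_smul_comm, smul_smul, mul_comm m ε]; simp only [mul_assoc]
    rw [mul_sub, h2, e2, smul_sub, h1, smul_smul, hε, one_smul, e1]
    rw [smul_add, smul_smul, mul_comm ε (m - 1)]
    abel
  have f2 : (x - (m * ε) • (x * s * x)) * s = -(ε • (x - (m * ε) • (x * s * x))) := by
    have h1 : (m * ε) • (x * s * x) = ε • (m • (x * s * x)) := by rw [smul_smul, mul_comm]
    have h2 : ((m * ε) • (x * s * x)) * s = ε • (m • (x * s * x * s)) := by
      rw [smul_mul_assoc, smul_smul, mul_comm m ε]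
    rw [sub_mul, h2, e2', smul_sub, h1, smul_smul, hε, one_smul, e1']
    rw [smul_add, smul_smul, mul_comm ε (m - 1)]
    abel
  refine ⟨f1, f2, ?_⟩
  set z := x - (m * ε) • (x * s * x) with hz
  have g1 : z * x = z := by
    rw [hz, sub_mul, smul_mul_assoc, hxx, mul_assoc (x * s), hxx]
  have g2 : z * (x * s * x) = -(ε • z) := by
    rw [← mul_assoc, ← mul_assoc, g1, f2, neg_mul, smul_mul_assoc, g1]
  calc z * z = z * x - (m * ε) • (z * (x * s * x)) := by
        conv_lhs => rw [hz]
        rw [mul_sub, mul_smul_comm, ← hz]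
    _ = z + (m * ε * ε) • z := by rw [g1, g2, smul_neg, sub_neg_eq_add, smul_smul]
    _ = (m + 1) • z := by rw [mul_assoc, hε, mul_one, add_smul, one_smul, add_comm]

end Pool.Agent.Helper15.Murre
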