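import Mathlib
import Pool.Agent.Helper15.Murre.Sym

open CategoryTheory MonoidalCategory Limits

universe v u

namespace Pool.Agent.Helper15.Murre

variable {C : Type u} [Category.{v} C] [Preadditive C] [Linear ℚ C] [MonoidalCategory C]
  [SymmetricCategory C]

/-- the antisymmetrizer (`ε = 1`) and the symmetrizer (`ε = -1`) of `M^{⊗n}` -/
noncomputable def asym (ε : ℚ) (M : C) : (n : ℕ) → (tpow M n ⟶ tpow M n)
  | 0 => 𝟙 _
  | 1 => 𝟙 _
  | n + 2 => ((n : ℚ) + 2)⁻¹ • (asym ε M (n + 1) ▷ M -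
      (((n : ℚ) + 1) * ε) • ((asym ε M (n + 1) ▷ M) ≫ sw (tpow M n) M ≫ (asym ε M (n + 1) ▷ M)))

lemma asym_succ (ε : ℚ) (M : C) (n : ℕ) : ((n : ℚ) + 2) • asym ε M (n + 2) =
    asym ε M (n + 1) ▷ M -
      (((n : ℚ) + 1) * ε) • ((asym ε M (n + 1) ▷ M) ≫ sw (tpow M n) M ≫
        (asym ε M (n + 1) ▷ M)) := by
  change ((n : ℚ) + 2) • ((n : ℚ) + 2)⁻¹ • _ = _
  rw [smul_smul, mul_inv_cancel₀ (by positivity), one_smul]

omit [Linear ℚ C] [SymmetricCategory C] in
lemma neg_whisk [MonoidalPreadditive C] {X Y : C} (f : X ⟶ Y) (Z : C) :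
    (-f) ▷ Z = -(f ▷ Z) := by
  rw [eq_neg_iff_add_eq_zero, ← MonoidalPreadditive.add_whiskerRight, neg_add_cancel,
    MonoidalPreadditive.zero_whiskerRight]

omit [Linear ℚ C] [SymmetricCategory C] in
lemma sub_whisk [MonoidalPreadditive C] {X Y : C} (f g : X ⟶ Y) (Z : C) :
    (f - g) ▷ Z = f ▷ Z - g ▷ Z := by
  rw [sub_eq_add_neg, MonoidalPreadditive.add_whiskerRight, neg_whisk, ← sub_eq_add_neg]

lemma asym_absorb (ε : ℚ) (M : C) (n : ℕ) (h : asym ε M n ≫ asym ε M n = asym ε M n) :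
    asym ε M n ▷ M ≫ asym ε M (n + 1) = asym ε M (n + 1) ∧
    asym ε M (n + 1) ≫ asym ε M n ▷ M = asym ε M (n + 1) := by
  cases n with
  | zero =>
    have h0 : asym ε M 0 = 𝟙 _ := rfl
    have h1 : asym ε M (0 + 1) = 𝟙 (tpow M 0 ⊗ M) := rfl
    rw [h0, h1, id_whiskerRight]
    simp
  | succ n =>
    have hx : asym ε M (n + 1) ▷ M ≫ asym ε M (n + 1) ▷ M = asym ε M (n + 1) ▷ M := by
      rw [← comp_whiskerRight, h]
    have h2 : asym ε M (n + 1 + 1) = ((n : ℚ) + 2)⁻¹ • (asym ε M (n + 1) ▷ M -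
      (((n : ℚ) + 1) * ε) • ((asym ε M (n + 1) ▷ M) ≫ sw (tpow M n) M ≫
        (asym ε M (n + 1) ▷ M))) := rfl
    rw [h2]
    constructor
    · rw [Linear.comp_smul, Preadditive.comp_sub, Linear.comp_smul, hx, reassoc_of% hx]
    · rw [Linear.smul_comp, Preadditive.sub_comp, Linear.smul_comp]
      simp only [Category.assoc]
      rw [hx]

variable [MonoidalPreadditive C] [MonoidalLinear ℚ C]

lemma asym_props {ε : ℚ} (hε : ε * ε = 1) (M : C) : ∀ n : ℕ,
    (asym ε M n ≫ asym ε M n = asym ε M n) ∧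
    (∀ i, i + 1 < n → adj M n i ≫ asym ε M n = -(ε • asym ε M n)) ∧
    (∀ i, i + 1 < n → asym ε M n ≫ adj M n i = -(ε • asym ε M n))
  | 0 => ⟨Category.id_comp _, fun i hi => by omega, fun i hi => by omega⟩
  | 1 => ⟨Category.id_comp _, fun i hi => by omega, fun i hi => by omega⟩
  | 2 => by
    have h2 : asym ε M 2 = ((0 : ℚ) + 2)⁻¹ • (𝟙 _ - ε • sw (tpow M 0) M) := by
      have : asym ε M 2 = (((0 : ℕ) : ℚ) + 2)⁻¹ • ((𝟙 (tpow M 1)) ▷ M -
        ((((0 : ℕ) : ℚ) + 1) * ε) • (((𝟙 (tpow M 1)) ▷ M) ≫ sw (tpow M 0) M ≫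
        ((𝟙 (tpow M 1)) ▷ M))) := rfl
      rw [this]
      simp only [id_whiskerRight]
      rw [Nat.cast_zero, zero_add, zero_add, one_mul]
      congr 3
      exact (Category.id_comp _).trans (Category.comp_id _)
    have hs := sw_sq (tpow M 0) M
    have e1 : sw (tpow M 0) M ≫ asym ε M 2 = -(ε • asym ε M 2) := by
      rw [h2, Linear.comp_smul, Preadditive.comp_sub, Linear.comp_smul, hs,
        smul_comm ε, ← smul_neg]
      congr 1
      rw [smul_sub, smul_smul, hε, one_smul, neg_sub]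
      congr 1
      exact Category.comp_id _
    have e2 : asym ε M 2 ≫ sw (tpow M 0) M = -(ε • asym ε M 2) := by
      rw [h2, Linear.smul_comp, Preadditive.sub_comp, Linear.smul_comp, hs,
        smul_comm ε, ← smul_neg]
      congr 1
      rw [smul_sub, smul_smul, hε, one_smul, neg_sub]
      congr 1
      exact Category.id_comp _
    refine ⟨?_, ?_, ?_⟩
    · have h3 : asym ε M 2 ≫ asym ε M 2 =
          (((0 : ℚ) + 2)⁻¹ • (𝟙 _ - ε • sw (tpow M 0) M)) ≫ asym ε M 2 := by
        rw [← h2]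
      rw [h3, Linear.smul_comp, Preadditive.sub_comp, Linear.smul_comp, e1]
      have : 𝟙 ((tpow M 0 ⊗ M) ⊗ M) ≫ asym ε M 2 = asym ε M 2 := Category.id_comp _
      rw [this, smul_neg, smul_smul, hε, one_smul, sub_neg_eq_add, ← two_smul ℚ, smul_smul]
      norm_num
    · intro i hi
      have : i = 0 := by omega
      subst this
      exact e1
    · intro i hi
      have : i = 0 := by omega
      subst this
      exact e2
  | k + 3 => by
    obtain ⟨i1, i2, i3⟩ := asym_props hε M (k + 2)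
    obtain ⟨j1, j2, j3⟩ := asym_props hε M (k + 1)
    obtain ⟨b1, b2⟩ := asym_absorb ε M (k + 1) j1
    let R := End (tpow M (k + 3))
    let x : R := asym ε M (k + 2) ▷ M
    let y : R := (asym ε M (k + 1) ▷ M) ▷ M
    let s : R := sw (tpow M (k + 1)) M
    let t : R := (sw (tpow M k) M) ▷ M
    have hs : s * s = 1 := sw_sq _ _
    have hst : s * t * s = t * s * t := sw_braid _ _
    have hys : y * s = s * y := (sw_natural M (asym ε M (k + 1))).symm
    have hxy : x * y = x := by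
      change ((asym ε M (k + 1) ▷ M) ▷ M) ≫ (asym ε M (k + 2) ▷ M) = asym ε M (k + 2) ▷ M
      rw [← comp_whiskerRight, b1]
    have hyx : y * x = x := by
      change (asym ε M (k + 2) ▷ M) ≫ ((asym ε M (k + 1) ▷ M) ▷ M) = asym ε M (k + 2) ▷ M
      rw [← comp_whiskerRight, b2]
    have hxt : x * t = -(ε • x) := by
      change ((sw (tpow M k) M) ▷ M) ≫ (asym ε M (k + 2) ▷ M) = -(ε • (asym ε M (k + 2) ▷ M))
      rw [← comp_whiskerRight]
      have := i2 k (by omega)
      rw [adj_last] at this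
      rw [this, neg_whisk, MonoidalLinear.smul_whiskerRight]
    have htx : t * x = -(ε • x) := by
      change (asym ε M (k + 2) ▷ M) ≫ ((sw (tpow M k) M) ▷ M) = -(ε • (asym ε M (k + 2) ▷ M))
      rw [← comp_whiskerRight]
      have := i3 k (by omega)
      rw [adj_last] at this
      rw [this, neg_whisk, MonoidalLinear.smul_whiskerRight]
    have hxx : x * x = x := by
      change (asym ε M (k + 2) ▷ M) ≫ (asym ε M (k + 2) ▷ M) = (asym ε M (k + 2) ▷ M)
      rw [← comp_whiskerRight, i1]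
    have hm : ((k : ℚ) + 2) • x = y - (((k : ℚ) + 2 - 1) * ε) • (y * t * y) := by
      change ((k : ℚ) + 2) • (asym ε M (k + 2) ▷ M) = ((asym ε M (k + 1) ▷ M) ▷ M) -
        (((k : ℚ) + 2 - 1) * ε) • (((asym ε M (k + 1) ▷ M) ▷ M) ≫ ((sw (tpow M k) M) ▷ M) ≫
          ((asym ε M (k + 1) ▷ M) ▷ M))
      rw [← MonoidalLinear.smul_whiskerRight, asym_succ, ← comp_whiskerRight,
        ← comp_whiskerRight, ← MonoidalLinear.smul_whiskerRight]
      have h5 : (k : ℚ) + 2 - 1 = (k : ℚ) + 1 := by ring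
      rw [h5, sub_whisk]
    obtain ⟨r1, r2, r3⟩ := ring_step ((k : ℚ) + 2) ε hε x y s t hs hst hys hxy hyx hxt htx hxx hm
    set z : R := x - (((k : ℚ) + 2) * ε) • (x * s * x) with hz
    have hA : asym ε M (k + 3) = ((k : ℚ) + 3)⁻¹ • z := by
      have : asym ε M (k + 3) = (((k + 1 : ℕ) : ℚ) + 2)⁻¹ • (asym ε M (k + 2) ▷ M -
        ((((k + 1 : ℕ) : ℚ) + 1) * ε) • ((asym ε M (k + 2) ▷ M) ≫ sw (tpow M (k + 1)) M ≫
        (asym ε M (k + 2) ▷ M))) := rfl
      rw [this]
      have h5 : (((k + 1 : ℕ) : ℚ) + 2) = (k : ℚ) + 3 := by push_cast; ring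
      have h6 : (((k + 1 : ℕ) : ℚ) + 1) = (k : ℚ) + 2 := by push_cast; ring
      rw [h5, h6]
      rfl
    have r1' : (z : tpow M (k + 3) ⟶ tpow M (k + 3)) ≫ sw (tpow M (k + 1)) M = -(ε • z) := r1
    have r2' : sw (tpow M (k + 1)) M ≫ (z : tpow M (k + 3) ⟶ tpow M (k + 3)) = -(ε • z) := r2
    have r3' : (z : tpow M (k + 3) ⟶ tpow M (k + 3)) ≫ z = ((k : ℚ) + 2 + 1) • z := r3
    have hlast1 : adj M (k + 3) (k + 1) ≫ asym ε M (k + 3) = -(ε • asym ε M (k + 3)) := by
      have : adj M (k + 3) (k + 1) = sw (tpow M (k + 1)) M := adj_last M (k + 1)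
      rw [this, hA]
      erw [Linear.comp_smul, r2']
      rw [smul_neg, smul_comm]
    have hlast2 : asym ε M (k + 3) ≫ adj M (k + 3) (k + 1) = -(ε • asym ε M (k + 3)) := by
      have : adj M (k + 3) (k + 1) = sw (tpow M (k + 1)) M := adj_last M (k + 1)
      rw [this, hA]
      erw [Linear.smul_comp, r1']
      rw [smul_neg, smul_comm]
    obtain ⟨c1, c2⟩ := asym_absorb ε M (k + 2) i1
    refine ⟨?_, ?_, ?_⟩
    · rw [hA]
      erw [Linear.smul_comp, Linear.comp_smul, r3', smul_smul, smul_smul]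
      congr 1
      have : (k : ℚ) + 3 ≠ 0 := by positivity
      field_simp
      ring
    · intro i hi
      by_cases hik : i = k + 1
      · subst hik; exact hlast1
      · have h5 : adj M (k + 3) i = adj M (k + 2) i ▷ M := adj_succ M (k + 2) i (by omega)
        have h6 := i2 i (by omega)
        have c1' : asym ε M (k + 2) ▷ M ≫ asym ε M (k + 3) = asym ε M (k + 3) := c1
        rw [h5, ← c1', ← Category.assoc, ← comp_whiskerRight, h6,
          neg_whisk, MonoidalLinear.smul_whiskerRight,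
          Preadditive.neg_comp, Linear.smul_comp]
    · intro i hi
      by_cases hik : i = k + 1
      · subst hik; exact hlast2
      · have h5 : adj M (k + 3) i = adj M (k + 2) i ▷ M := adj_succ M (k + 2) i (by omega)
        have h6 := i3 i (by omega)
        have c2' : asym ε M (k + 3) ≫ asym ε M (k + 2) ▷ M = asym ε M (k + 3) := c2
        rw [h5, ← c2', Category.assoc, ← comp_whiskerRight, h6,
          neg_whisk, MonoidalLinear.smul_whiskerRight,
          Preadditive.comp_neg, Linear.comp_smul]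

end Pool.Agent.Helper15.Murre
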