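import Mathlib
import Pool.Agent.Helper15.Murre.Asym

open CategoryTheory MonoidalCategory Limits

universe v u

namespace Pool.Agent.Helper15.Murre

section universal

variable {C : Type u} [Category.{v} C] [Preadditive C] [Linear ℚ C] [MonoidalCategory C]
  [SymmetricCategory C] [MonoidalPreadditive C] [MonoidalLinear ℚ C]

lemma asym_univ_whisker {ε : ℚ} (hε : ε * ε = 1) (M : C) : ∀ (n : ℕ) (Z Y : C)
    (g : tpow M n ⊗ Z ⟶ Y), (∀ i, i + 1 < n → (adj M n i ▷ Z) ≫ g = -(ε • g)) →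
      (asym ε M n ▷ Z) ≫ g = g
  | 0, Z, Y, g, _ => by
    change (𝟙 _ ▷ Z) ≫ g = g
    rw [id_whiskerRight, Category.id_comp]
  | 1, Z, Y, g, _ => by
    change (𝟙 _ ▷ Z) ≫ g = g
    rw [id_whiskerRight, Category.id_comp]
  | n + 2, Z, Y, g, hg => by
    have h1 : ((asym ε M (n + 1) ▷ M) ▷ Z) ≫ g = g := by
      have h2 := asym_univ_whisker hε M (n + 1) (M ⊗ Z) Y ((α_ (tpow M (n + 1)) M Z).inv ≫ g)
        (by
          intro i hi
          rw [associator_inv_naturality_left_assoc]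
          have h3 := hg i (by omega)
          have h4 : adj M (n + 2) i = adj M (n + 1) i ▷ M := adj_succ M (n + 1) i (by omega)
          rw [h4] at h3
          rw [h3, Preadditive.comp_neg, Linear.comp_smul])
      rw [associator_inv_naturality_left_assoc] at h2
      have h5 := congrArg ((α_ (tpow M (n + 1)) M Z).hom ≫ ·) h2
      simpa using h5
    have h2 : (sw (tpow M n) M ▷ Z) ≫ g = -(ε • g) := by
      have := hg n (by omega)
      rwa [adj_last] at this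
    have h3 : (((n : ℚ) + 2) • asym ε M (n + 2)) ▷ Z ≫ g = ((n : ℚ) + 2) • g := by
      rw [asym_succ, sub_whisk, MonoidalLinear.smul_whiskerRight, comp_whiskerRight,
        comp_whiskerRight, Preadditive.sub_comp, Linear.smul_comp]
      simp only [Category.assoc]
      rw [h1, h2, Preadditive.comp_neg, Linear.comp_smul, h1, smul_neg, sub_neg_eq_add, smul_smul,
        mul_assoc, hε, mul_one]
      have h6 : (n : ℚ) + 2 = 1 + ((n : ℚ) + 1) := by ring
      rw [h6, add_smul 1, one_smul]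
    rw [MonoidalLinear.smul_whiskerRight, Linear.smul_comp] at h3
    have h4 : ((n : ℚ) + 2) ≠ 0 := by positivity
    have h5 := congrArg (((n : ℚ) + 2)⁻¹ • ·) h3
    simpa [smul_smul, h4] using h5

lemma asym_univ {ε : ℚ} (hε : ε * ε = 1) (M : C) (n : ℕ) (Y : C) (g : tpow M n ⟶ Y)
    (hg : ∀ i, i + 1 < n → adj M n i ≫ g = -(ε • g)) : asym ε M n ≫ g = g := by
  have h := asym_univ_whisker hε M n (𝟙_ C) Y ((ρ_ _).hom ≫ g) (by
    intro i hi
    rw [rightUnitor_naturality_assoc, hg i hi, Preadditive.comp_neg, Linear.comp_smul])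
  rw [rightUnitor_naturality_assoc] at h
  have h5 := congrArg ((ρ_ _).inv ≫ ·) h
  simpa using h5

lemma extVanish_iff (M : C) (n : ℕ) : ExtVanish M n ↔ asym 1 M n = 0 := by
  constructor
  · intro h
    apply h
    intro i hi
    have := (asym_props (ε := 1) (by norm_num) M n).2.1 i hi
    rwa [one_smul] at this
  · intro h Y g hg
    have := asym_univ (ε := 1) (by norm_num) M n Y g (by
      intro i hi
      rw [one_smul]
      exact hg i hi)
    rw [← this, h, zero_comp]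

lemma symVanish_iff (M : C) (n : ℕ) : SymVanish M n ↔ asym (-1) M n = 0 := by
  constructor
  · intro h
    apply h
    intro i hi
    have := (asym_props (ε := -1) (by norm_num) M n).2.1 i hi
    rwa [neg_smul, one_smul, neg_neg] at this
  · intro h Y g hg
    have := asym_univ (ε := -1) (by norm_num) M n Y g (by
      intro i hi
      rw [neg_smul, one_smul, neg_neg]
      exact hg i hi)
    rw [← this, h, zero_comp]

end universal

section trace

variable {C : Type u} [Category.{v} C] [MonoidalCategory C]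
  [SymmetricCategory C] [RigidCategory C]

/-- the partial trace of `f : X ⊗ M ⟶ Y ⊗ M` -/
noncomputable def ptr (X Y M : C) (f : X ⊗ M ⟶ Y ⊗ M) : X ⟶ Y :=
  (ρ_ X).inv ≫ X ◁ (η_ M (Mᘁ)) ≫ (α_ X M (Mᘁ)).inv ≫ f ▷ (Mᘁ) ≫ (α_ Y M (Mᘁ)).hom ≫
    Y ◁ ((β_ M (Mᘁ)).hom ≫ ε_ M (Mᘁ)) ≫ (ρ_ Y).hom

lemma ptr_natural {X Y X' Y' : C} (M : C) (g : X' ⟶ X) (f : X ⊗ M ⟶ Y ⊗ M) (h : Y ⟶ Y') :
    ptr X' Y' M ((g ▷ M) ≫ f ≫ (h ▷ M)) = g ≫ ptr X Y M f ≫ h := by
  unfold ptr
  simp only [comp_whiskerRight, Category.assoc]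
  rw [associator_naturality_left_assoc, ← whisker_exchange_assoc, rightUnitor_naturality,
    ← associator_inv_naturality_left_assoc, whisker_exchange_assoc,
    rightUnitor_inv_naturality_assoc]

lemma ptr_sw (X M : C) : ptr (X ⊗ M) (X ⊗ M) M (sw X M) = 𝟙 _ := by
  have h1 : (ρ_ M).inv ≫ (M ◁ (η_ M (Mᘁ))) ≫ (α_ M M (Mᘁ)).inv ≫ ((β_ M M).hom ▷ (Mᘁ)) ≫
      (α_ M M (Mᘁ)).hom ≫ (M ◁ ((β_ M (Mᘁ)).hom ≫ ε_ M (Mᘁ))) ≫ (ρ_ M).hom = 𝟙 M := by
    have h2 := BraidedCategory.hexagon_forward M M (Mᘁ)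
    rw [MonoidalCategory.whiskerLeft_comp]
    simp only [Category.assoc]
    rw [← reassoc_of% h2, Iso.inv_hom_id_assoc, BraidedCategory.braiding_naturality_right_assoc]
    have h3 := ExactPairing.evaluation_coevaluation M (Mᘁ)
    rw [reassoc_of% h3]
    simp
  have h2 := congrArg (fun t => X ◁ t) h1
  simp only [MonoidalCategory.whiskerLeft_comp, MonoidalCategory.whiskerLeft_id] at h2
  rw [← h2]
  unfold ptr sw
  monoidal

variable [Preadditive C] [Linear ℚ C] [MonoidalPreadditive C] [MonoidalLinear ℚ C]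

omit [Linear ℚ C] [MonoidalLinear ℚ C] in
lemma ptr_sub {X Y : C} (M : C) (f g : X ⊗ M ⟶ Y ⊗ M) :
    ptr X Y M (f - g) = ptr X Y M f - ptr X Y M g := by
  unfold ptr
  rw [sub_whisk]
  simp only [Preadditive.sub_comp, Preadditive.comp_sub]

lemma ptr_smul {X Y : C} (M : C) (q : ℚ) (f : X ⊗ M ⟶ Y ⊗ M) :
    ptr X Y M (q • f) = q • ptr X Y M f := by
  unfold ptr
  rw [MonoidalLinear.smul_whiskerRight]
  simp only [Linear.smul_comp, Linear.comp_smul]

omit [Linear ℚ C] [MonoidalLinear ℚ C] in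
lemma ptr_id (X M : C) (h : η_ M (Mᘁ) ≫ (β_ M (Mᘁ)).hom ≫ ε_ M (Mᘁ) = 0) :
    ptr X X M (𝟙 _) = 0 := by
  unfold ptr
  rw [id_whiskerRight]
  simp only [Category.id_comp, Iso.inv_hom_id_assoc]
  rw [← MonoidalCategory.whiskerLeft_comp_assoc, h]
  simp

/-- if the dimension of `M` vanishes, then vanishing of `Λ^{n+2} M` or `Sym^{n+2} M` implies
vanishing of `Λ^{n+1} M` or `Sym^{n+1} M` -/
lemma asym_descend {ε : ℚ} (hε : ε * ε = 1) (M : C)
    (h : η_ M (Mᘁ) ≫ (β_ M (Mᘁ)).hom ≫ ε_ M (Mᘁ) = 0) (n : ℕ)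
    (h0 : asym ε M (n + 2) = 0) : asym ε M (n + 1) = 0 := by
  have h1 := asym_succ ε M n
  rw [h0, smul_zero] at h1
  have h2 := congrArg (ptr (tpow M (n + 1)) (tpow M (n + 1)) M) h1
  rw [ptr_sub, ptr_smul, ptr_natural] at h2
  have h3 : ptr (tpow M (n + 1)) (tpow M (n + 1)) M (asym ε M (n + 1) ▷ M) = 0 := by
    have h4 := ptr_natural M (asym ε M (n + 1)) (𝟙 (tpow M (n + 1) ⊗ M)) (𝟙 _)
    rw [id_whiskerRight, Category.comp_id, Category.comp_id, ptr_id _ _ h] at h4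
    rw [h4]
    simp
  have h5 : ptr (tpow M (n + 1)) (tpow M (n + 1)) M 0 = 0 := by
    unfold ptr; simp
  have h6 : ptr (tpow M (n + 1)) (tpow M (n + 1)) M (sw (tpow M n) M) = 𝟙 _ := ptr_sw _ _
  rw [h3, h5, h6, Category.id_comp, (asym_props hε M (n + 1)).1, zero_sub] at h2
  have h7 : (((n : ℚ) + 1) * ε) ≠ 0 := by
    have : ε ≠ 0 := by rintro rfl; simp at hε
    positivity
  have h8 := neg_eq_zero.1 h2.symm
  exact (smul_eq_zero.1 h8).resolve_left h7

lemma id_eq_zero_of_asym {ε : ℚ} (hε : ε * ε = 1) (M : C)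
    (h : η_ M (Mᘁ) ≫ (β_ M (Mᘁ)).hom ≫ ε_ M (Mᘁ) = 0) (n : ℕ)
    (h0 : asym ε M (n + 1) = 0) : 𝟙 M = 0 := by
  induction n with
  | zero =>
    have h1 : 𝟙 (𝟙_ C ⊗ M) = 0 := h0
    have h2 := congrArg (fun t => (λ_ M).inv ≫ t ≫ (λ_ M).hom) h1
    simpa using h2
  | succ n ih => exact ih (asym_descend hε M h n h0)

end trace

end Pool.Agent.Helper15.Murre
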