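import Mathlib
import Pool.Agent.Helper15.Murre.PTrace
import Pool.Agent.Helper15.Murre.Global

open CategoryTheory MonoidalCategory Limits TensorProduct

universe w v u

namespace Pool.Agent.Helper15.Murre

section phi

variable {C : Type u} [Category.{v} C] [Preadditive C] [Linear ℚ C]
  [MonoidalCategory C] [SymmetricCategory C] [RigidCategory C]
  {F : Type w} [Field F]
variable {W : MotivicHomology C F} {M : C}

variable (W) in
/-- iterated cross product of the first `n` terms of a sequence -/
noncomputable def phi (M : C) : (n : ℕ) → (ℕ → W.H.obj M) → W.H.obj (tpow M n)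
  | 0, _ => W.unit
  | n + 1, v => W.cross (phi M n v) (v n)

lemma phi_congr (n : ℕ) (v v' : ℕ → W.H.obj M) (h : ∀ i, i < n → v i = v' i) :
    phi W M n v = phi W M n v' := by
  induction n with
  | zero => rfl
  | succ n ih =>
    change W.cross (phi W M n v) (v n) = W.cross (phi W M n v') (v' n)
    rw [ih (fun i hi => h i (by omega)), h n (by omega)]

lemma MotivicHomology.cross_zsmul_left (W : MotivicHomology C F) {M N : C} (c : ℤ)
    (x : W.H.obj M) (y : W.H.obj N) : W.cross (c • x) y = c • W.cross x y := by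
  have h1 : c • x = (c : F) • x := (Int.cast_smul_eq_zsmul F c x).symm
  have h2 : c • W.cross x y = (c : F) • W.cross x y := (Int.cast_smul_eq_zsmul F c _).symm
  rw [h1, h2, W.cross_smul_left]

lemma MotivicHomology.cross_zsmul_right (W : MotivicHomology C F) {M N : C} (c : ℤ)
    (x : W.H.obj M) (y : W.H.obj N) : W.cross x (c • y) = c • W.cross x y := by
  have h1 : c • y = (c : F) • y := (Int.cast_smul_eq_zsmul F c y).symm
  have h2 : c • W.cross x y = (c : F) • W.cross x y := (Int.cast_smul_eq_zsmul F c _).symm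
  rw [h1, h2, W.cross_smul_right]

variable (W) in
/-- the exchange of factors acts on the homology of `M ⊗ M` with the uniform sign `e` -/
def HasSign (M : C) (e : ℤ) : Prop := ∀ x y : W.H.obj M,
  (W.H.map (β_ M M).hom).hom (W.cross x y) = e • W.cross y x

lemma HasSign.sw {e : ℤ} (h : HasSign W M e) {X : C} (a : W.H.obj X) (b c : W.H.obj M) :
    (W.H.map (sw X M)).hom (W.cross (W.cross a b) c) = e • W.cross (W.cross a c) b := by
  unfold Murre.sw
  simp only [W.map_comp_apply]
  rw [W.cross_assoc, W.map_whiskerLeft_cross, h, W.cross_zsmul_right, map_zsmul, W.cross_assoc']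

lemma HasSign.adj {e : ℤ} (h : HasSign W M e) : ∀ (n i : ℕ), i + 1 < n → ∀ (v : ℕ → W.H.obj M),
    (W.H.map (adj M n i)).hom (phi W M n v) = e • phi W M n (v ∘ Equiv.swap i (i + 1))
  | 0, i, hi, _ => by omega
  | 1, i, hi, _ => by omega
  | n + 2, i, hi, v => by
    by_cases hin : i = n
    · subst hin
      rw [adj_last]
      change (W.H.map (Murre.sw (tpow M i) M)).hom
        (W.cross (W.cross (phi W M i v) (v i)) (v (i + 1))) = e • W.cross (W.cross
          (phi W M i (v ∘ Equiv.swap i (i + 1))) ((v ∘ Equiv.swap i (i + 1)) i))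
            ((v ∘ Equiv.swap i (i + 1)) (i + 1))
      rw [h.sw]
      simp only [Function.comp_apply, Equiv.swap_apply_left, Equiv.swap_apply_right]
      rw [phi_congr i v (v ∘ Equiv.swap i (i + 1))]
      intro j hj
      simp only [Function.comp_apply]
      rw [Equiv.swap_apply_of_ne_of_ne (by omega) (by omega)]
    · have h4 : Murre.adj M (n + 2) i = Murre.adj M (n + 1) i ▷ M := adj_succ M (n + 1) i (by omega)
      rw [h4]
      change (W.H.map (Murre.adj M (n + 1) i ▷ M)).hom
        (W.cross (phi W M (n + 1) v) (v (n + 1))) = e • W.cross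
          (phi W M (n + 1) (v ∘ Equiv.swap i (i + 1))) ((v ∘ Equiv.swap i (i + 1)) (n + 1))
      rw [W.map_whiskerRight_cross, HasSign.adj h (n + 1) i (by omega) v, W.cross_zsmul_left]
      simp only [Function.comp_apply]
      rw [Equiv.swap_apply_of_ne_of_ne (by omega) (by omega)]

lemma MotivicHomology.map_neg_apply (W : MotivicHomology C F) {X Y : C} (f : X ⟶ Y)
    (x : W.H.obj X) : (W.H.map (-f)).hom x = -(W.H.map f).hom x := by
  have := W.additive
  rw [Functor.map_neg]; rfl

lemma MotivicHomology.map_zsmul_apply (W : MotivicHomology C F) {X Y : C} (c : ℤ) (f : X ⟶ Y)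
    (x : W.H.obj X) : (W.H.map (c • f)).hom x = c • (W.H.map f).hom x := by
  have := W.additive
  rw [Functor.map_zsmul]; rfl

lemma HasSign.alt [MonoidalPreadditive C] [MonoidalLinear ℚ C] {e : ℤ} (he : e * e = 1)
    (h : HasSign W M e) (n i : ℕ) (hi : i + 1 < n)
    (v : ℕ → W.H.obj M) :
    (W.H.map (asym (e : ℚ) M n)).hom (phi W M n (v ∘ Equiv.swap i (i + 1))) =
      -(W.H.map (asym (e : ℚ) M n)).hom (phi W M n v) := by
  have h1 := (asym_props (ε := (e : ℚ)) (by exact_mod_cast he) M n).2.1 i hi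
  have h2 := congrArg (fun t => (W.H.map t).hom (phi W M n v)) h1
  rw [Int.cast_smul_eq_zsmul] at h2
  simp only [W.map_comp_apply, W.map_neg_apply, W.map_zsmul_apply] at h2
  rw [h.adj n i hi v, map_zsmul] at h2
  have h3 := congrArg (e • ·) h2
  simp only [smul_neg, smul_smul, he, one_smul] at h3
  exact h3

variable (W) in
/-- the field `F` has characteristic different from `2`, as `C` is `ℚ`-linear -/
lemma MotivicHomology.two_ne_zero (W : MotivicHomology C F) : (2 : F) ≠ 0 := by
  intro h2
  have hadd := W.additive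
  have h1 : (2 : ℤ) • ((2 : ℚ)⁻¹ • 𝟙 (W.T 0)) = 𝟙 (W.T 0) := by
    rw [← Int.cast_smul_eq_zsmul ℚ, smul_smul]
    norm_num
  have h3 := congrArg W.H.map h1
  rw [Functor.map_zsmul, CategoryTheory.Functor.map_id] at h3
  have h4 : Subsingleton (W.H.obj (W.T 0)) := by
    refine ⟨fun a b => ?_⟩
    have h5 : ∀ a : W.H.obj (W.T 0), a = 0 := by
      intro a
      have h6 := congrArg (fun t => t.hom a) h3
      have h7 : (𝟙 (W.H.obj (W.T 0)) : _ ⟶ _).hom a = a := rfl
      have h8 : ((2 : ℤ) • W.H.map ((2 : ℚ)⁻¹ • 𝟙 (W.T 0))).hom a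
        = (2 : ℤ) • (W.H.map ((2 : ℚ)⁻¹ • 𝟙 (W.T 0))).hom a := rfl
      simp only [h7, h8] at h6
      rw [← h6, ← Int.cast_smul_eq_zsmul F]
      push_cast
      rw [h2, zero_smul]
    rw [h5 a, h5 b]
  have h5 := W.tateRank 0
  rw [Module.finrank_zero_of_subsingleton] at h5
  omega

lemma MotivicHomology.eq_zero_of_eq_neg (W : MotivicHomology C F) {X : C} {x : W.H.obj X}
    (h : x = -x) : x = 0 := by
  have h1 : (2 : F) • x = 0 := by
    rw [two_smul]
    nth_rewrite 2 [h]
    exact add_neg_cancel x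
  exact (smul_eq_zero.1 h1).resolve_left W.two_ne_zero

lemma HasSign.alt_zero [MonoidalPreadditive C] [MonoidalLinear ℚ C] {e : ℤ} (he : e * e = 1)
    (h : HasSign W M e) (n : ℕ) : ∀ (k i : ℕ), i + k + 1 < n → ∀ (v : ℕ → W.H.obj M),
      v i = v (i + k + 1) → (W.H.map (asym (e : ℚ) M n)).hom (phi W M n v) = 0 := by
  intro k
  induction k with
  | zero =>
    intro i hi v hv
    have h1 := h.alt he n i hi v
    have h2 : v ∘ Equiv.swap i (i + 1) = v := by
      funext j
      simp only [Function.comp_apply]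
      by_cases hj : j = i
      · subst hj; rw [Equiv.swap_apply_left]; exact hv.symm
      · by_cases hj' : j = i + 1
        · subst hj'; rw [Equiv.swap_apply_right]; exact hv
        · rw [Equiv.swap_apply_of_ne_of_ne hj hj']
    rw [h2] at h1
    exact W.eq_zero_of_eq_neg h1
  | succ k ih =>
    intro i hi v hv
    have h1 := h.alt he n (i + k + 1) (by omega) v
    have h2 := ih i (by omega) (v ∘ Equiv.swap (i + k + 1) (i + k + 1 + 1)) (by
      simp only [Function.comp_apply]
      rw [Equiv.swap_apply_left, Equiv.swap_apply_of_ne_of_ne (by omega) (by omega), hv]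
      rfl)
    rw [h2] at h1
    exact (neg_eq_zero.1 h1.symm)

lemma MotivicHomology.unit_span (W : MotivicHomology C F) (z : W.H.obj (𝟙_ C)) :
    ∃ c : F, z = c • W.unit := by
  let _ := W.monoidal
  refine ⟨(Functor.OplaxMonoidal.η W.H).hom z, ?_⟩
  have h1 : (Functor.OplaxMonoidal.η W.H) ≫ (Functor.LaxMonoidal.ε W.H) = 𝟙 _ :=
    Functor.Monoidal.η_ε W.H
  have h2 := congrArg (fun t => t.hom z) h1
  have h3 : (Functor.LaxMonoidal.ε W.H).hom ((Functor.OplaxMonoidal.η W.H).hom z) = z := h2
  have h4 : (Functor.OplaxMonoidal.η W.H).hom z = ((Functor.OplaxMonoidal.η W.H).hom z : F) • (1 : F) := by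
    rw [smul_eq_mul, mul_one]
  conv_lhs => rw [← h3, h4, map_smul]
  rfl

lemma MotivicHomology.cross_span (W : MotivicHomology C F) {X Y : C} (S : Set (W.H.obj X))
    (T : Set (W.H.obj Y)) (hS : Submodule.span F S = ⊤) (hT : Submodule.span F T = ⊤)
    (z : W.H.obj (X ⊗ Y)) :
    z ∈ Submodule.span F {z | ∃ x ∈ S, ∃ y ∈ T, z = W.cross x y} := by
  induction z using W.cross_induction with
  | h1 i j x hx0 y hy0 =>
    clear hx0 hy0
    have hx : x ∈ Submodule.span F S := by rw [hS]; trivial
    have hy : y ∈ Submodule.span F T := by rw [hT]; trivial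
    induction hx using Submodule.span_induction with
    | mem x hx =>
      induction hy using Submodule.span_induction with
      | mem y hy => exact Submodule.subset_span ⟨x, hx, y, hy, rfl⟩
      | zero => rw [W.cross_zero_right]; exact Submodule.zero_mem _
      | add a b _ _ ha hb => rw [W.cross_add_right]; exact Submodule.add_mem _ ha hb
      | smul c a _ ha => rw [W.cross_smul_right]; exact Submodule.smul_mem _ _ ha
    | zero => rw [W.cross_zero_left]; exact Submodule.zero_mem _
    | add a b _ _ ha hb => rw [W.cross_add_left]; exact Submodule.add_mem _ ha hb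
    | smul c a _ ha => rw [W.cross_smul_left]; exact Submodule.smul_mem _ _ ha
  | h2 x y hx hy => exact Submodule.add_mem _ hx hy

lemma phi_span {d : ℕ} (b : Module.Basis (Fin d) F (W.H.obj M)) (n : ℕ) :
    Submodule.span F {z | ∃ k : ℕ → Fin d, z = phi W M n (b ∘ k)} = ⊤ ∨ d = 0 := by
  rcases Nat.eq_zero_or_pos d with hd | hd
  · right; exact hd
  left
  induction n with
  | zero =>
    rw [eq_top_iff]
    intro z _
    obtain ⟨c, hc⟩ := W.unit_span z
    rw [hc]
    apply Submodule.smul_mem
    exact Submodule.subset_span ⟨fun _ => ⟨0, hd⟩, rfl⟩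
  | succ n ih =>
    rw [eq_top_iff]
    intro z _
    have h1 := W.cross_span _ _ ih b.span_eq z
    refine Submodule.span_le.2 ?_ h1
    rintro z ⟨x, ⟨k, rfl⟩, y, ⟨m, rfl⟩, rfl⟩
    apply Submodule.subset_span
    refine ⟨fun i => if i < n then k i else m, ?_⟩
    change _ = W.cross (phi W M n _) ((b ∘ _) n)
    congr 1
    · apply phi_congr
      intro i hi
      simp [hi]
    · simp

/-- the (anti)symmetrizer acts as zero in homology -/
lemma HasSign.asym_zero [MonoidalPreadditive C] [MonoidalLinear ℚ C] {e : ℤ} (he : e * e = 1)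
    (h : HasSign W M e) (n : ℕ) (hn : Module.finrank F (W.H.obj M) < n) :
    W.H.map (asym (e : ℚ) M n) = 0 := by
  have := W.finite M
  let b := Module.finBasis F (W.H.obj M)
  rcases phi_span (W := W) b n with hb | hd
  · ext z
    have hz : z ∈ Submodule.span F {z | ∃ k : ℕ → Fin _, z = phi W M n (b ∘ k)} := by
      rw [hb]; trivial
    induction hz using Submodule.span_induction with
    | mem z hz =>
      obtain ⟨k, rfl⟩ := hz
      obtain ⟨i, hi, j, hj, hij, hk⟩ := Finset.exists_ne_map_eq_of_card_lt_of_maps_to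
        (s := Finset.range n) (t := Finset.univ) (f := k) (by simpa using hn)
        (fun x _ => Finset.mem_univ _)
      have key : ∀ i j, i < j → j < n → k i = k j →
          (W.H.map (asym (e : ℚ) M n)).hom (phi W M n (b ∘ k)) = 0 := by
        intro i j hij hj hk
        obtain ⟨m, rfl⟩ : ∃ m, j = i + m + 1 := ⟨j - i - 1, by omega⟩
        exact h.alt_zero he n m i hj (b ∘ k) (by simp [hk])
      have hi' := Finset.mem_range.1 hi
      have hj' := Finset.mem_range.1 hj
      rcases lt_or_gt_of_ne hij with hlt | hgt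
      · rw [key i j hlt hj' hk]; rfl
      · rw [key j i hgt hi' hk.symm]; rfl
    | zero => rw [map_zero, map_zero]
    | add a b _ _ ha hb => rw [map_add, map_add, ha, hb]
    | smul c a _ ha => rw [map_smul, map_smul, ha]
  · -- no homology
    have hM : Subsingleton (W.H.obj M) := Module.finrank_zero_iff.1 hd
    obtain ⟨m, rfl⟩ : ∃ m, n = m + 1 := ⟨n - 1, by omega⟩
    have h2 : Subsingleton (W.H.obj (tpow M (m + 1))) := by
      apply W.subsingleton_of_id
      have h3 := W.H_tensor_zero' (𝟙 (tpow M m)) (𝟙 M) (W.map_zero_of_subsingleton _ hM)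
      simpa using h3
    exact W.map_zero_of_subsingleton _ h2

end phi

section main

variable {C : Type u} [Category.{v} C] [Preadditive C] [Linear ℚ C]
  [MonoidalCategory C] [SymmetricCategory C] [MonoidalPreadditive C] [MonoidalLinear ℚ C]
  [RigidCategory C] {F : Type w} [Field F]
variable {W : MotivicHomology C F} {M : C}

omit [MonoidalPreadditive C] [MonoidalLinear ℚ C] in
lemma hasSign_of_parity (r : ℤ) (hr : r = 0 ∨ r = 1)
    (h : ∀ i, i % 2 ≠ r → ∀ x ∈ W.gr M i, x = 0) : HasSign W M (1 - 2 * r) := by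
  intro x y
  induction x using W.induction with
  | h1 i x hx =>
    induction y using W.induction with
    | h1 j y hy =>
      by_cases hi : i % 2 = r
      · by_cases hj : j % 2 = r
        · rw [W.cross_swap hx hy]
          rcases hr with rfl | rfl
          · have h1 : (i * j).negOnePow = 1 := by
              apply Int.negOnePow_even
              exact (Int.even_iff.2 hi).mul_right j
            rw [h1]; simp
          · have h1 : (i * j).negOnePow = -1 := by
              apply Int.negOnePow_odd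
              exact (Int.odd_iff.2 hi).mul (Int.odd_iff.2 hj)
            rw [h1]; simp
        · rw [h j hj y hy, W.cross_zero_right, W.cross_zero_left, map_zero, smul_zero]
      · rw [h i hi x hx, W.cross_zero_right, W.cross_zero_left, map_zero, smul_zero]
    | h2 y y' hy hy' => rw [W.cross_add_right, W.cross_add_left, map_add, hy, hy', smul_add]
  | h2 x x' hx hx' => rw [W.cross_add_right, W.cross_add_left, map_add, hx, hx', smul_add]

/-- without phantoms, objects with homology in degrees of one parity are finite-dimensional -/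
lemma NoPhantom.asym_zero [IsIdempotentComplete C] (hph : NoPhantom W) (r : ℤ)
    (hr : r = 0 ∨ r = 1) (h : ∀ i, i % 2 ≠ r → ∀ x ∈ W.gr M i, x = 0) :
    asym (((1 - 2 * r : ℤ)) : ℚ) M (Module.finrank F (W.H.obj M) + 1) = 0 := by
  have he : (1 - 2 * r) * (1 - 2 * r) = 1 := by
    rcases hr with rfl | rfl <;> norm_num
  exact hph.idem _ (asym_props (by exact_mod_cast he) M _).1
    ((hasSign_of_parity r hr h).asym_zero he _ (Nat.lt_succ_self _))

/-- the sum of the projectors of one parity -/
noncomputable def CK.par (D : CK W M) (r : ℤ) : M ⟶ M :=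
  ∑ i ∈ D.s.filter (fun i => i % 2 = r), D.p i

omit [MonoidalPreadditive C] [MonoidalLinear ℚ C] in
lemma CK.par_idem (D : CK W M) (r : ℤ) : D.par r ≫ D.par r = D.par r := by
  unfold CK.par
  rw [Preadditive.sum_comp]
  apply Finset.sum_congr rfl
  intro i hi
  rw [Preadditive.comp_sum, Finset.sum_eq_single_of_mem i hi, D.idem]
  intro j _ hj
  exact D.orth _ _ (Ne.symm hj)

omit [MonoidalPreadditive C] [MonoidalLinear ℚ C] in
lemma CK.par_orth (D : CK W M) {r r' : ℤ} (h : r ≠ r') : D.par r ≫ D.par r' = 0 := by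
  unfold CK.par
  rw [Preadditive.sum_comp]
  apply Finset.sum_eq_zero
  intro i hi
  rw [Preadditive.comp_sum]
  apply Finset.sum_eq_zero
  intro j hj
  apply D.orth
  rintro rfl
  simp only [Finset.mem_filter] at hi hj
  exact h (hi.2.symm.trans hj.2)

omit [MonoidalPreadditive C] [MonoidalLinear ℚ C] in
lemma CK.par_sum (D : CK W M) : D.par 0 + D.par 1 = 𝟙 M := by
  unfold CK.par
  rw [← D.sum_s, ← Finset.sum_filter_add_sum_filter_not D.s (fun i => i % 2 = 0)]
  congr 1
  apply Finset.sum_congr _ (fun _ _ => rfl)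
  ext i
  simp only [Finset.mem_filter]
  constructor
  · rintro ⟨h1, h2⟩; exact ⟨h1, by omega⟩
  · rintro ⟨h1, h2⟩; exact ⟨h1, by omega⟩

omit [MonoidalPreadditive C] [MonoidalLinear ℚ C] in
lemma CK.par_homology (D : CK W M) (r i : ℤ) (hi : i % 2 ≠ r) (x : W.H.obj M)
    (hx : x ∈ W.gr M i) : (W.H.map (D.par r)).hom x = 0 := by
  have := W.additive
  unfold CK.par
  rw [Functor.map_sum, ModuleCat.hom_sum, LinearMap.sum_apply]
  apply Finset.sum_eq_zero
  intro j hj
  rw [D.homology j i x hx, if_neg]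
  rintro rfl
  exact hi (Finset.mem_filter.1 hj).2

omit [MonoidalPreadditive C] [MonoidalLinear ℚ C] in
lemma CK.par_split [IsIdempotentComplete C] (D : CK W M) (r : ℤ) :
    ∃ (P : C) (f : P ⟶ M) (e : M ⟶ P), f ≫ e = 𝟙 P ∧ e ≫ f = D.par r ∧
      ∀ i, i % 2 ≠ r → ∀ x ∈ W.gr P i, x = 0 := by
  obtain ⟨P, f, e, hfe, hef⟩ := IsIdempotentComplete.idempotents_split M (D.par r) (D.par_idem r)
  refine ⟨P, f, e, hfe, hef, ?_⟩
  intro i hi x hx
  have h1 : (𝟙 P : P ⟶ P) = f ≫ D.par r ≫ e := by
    rw [← hef]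
    simp only [Category.assoc]
    rw [reassoc_of% hfe, hfe]
  rw [← W.map_id_apply x, h1]
  simp only [W.map_comp_apply]
  rw [D.par_homology r i hi _ (W.map_gr _ _ _ hx), map_zero]

/-- (A) and no phantoms imply finite-dimensionality in the sense of Kimura and O'Sullivan -/
theorem NoPhantom.kimura [IsIdempotentComplete C] [HasBinaryBiproducts C] (hph : NoPhantom W)
    (D : CK W M) : KimuraFinite M := by
  obtain ⟨P, f, e, hfe, hef, hP⟩ := D.par_split 0
  obtain ⟨Q, f', e', hfe', hef', hQ⟩ := D.par_split 1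
  refine ⟨P, Q, Module.finrank F (W.H.obj P) + 1, Module.finrank F (W.H.obj Q) + 1,
    ⟨⟨biprod.lift e e', biprod.desc f f', ?_, ?_⟩⟩, ?_, ?_⟩
  · rw [biprod.lift_desc, hef, hef', D.par_sum]
  · have h1 : f ≫ e' = 0 := by
      have : f ≫ e' = (f ≫ e) ≫ f ≫ e' ≫ f' ≫ e' := by rw [hfe, hfe']; simp
      rw [this]
      simp only [Category.assoc]
      rw [← Category.assoc e f, hef, ← Category.assoc e' f', hef', ← Category.assoc (D.par 0),
        D.par_orth (by norm_num)]
      simp
    have h2 : f' ≫ e = 0 := by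
      have : f' ≫ e = (f' ≫ e') ≫ f' ≫ e ≫ f ≫ e := by rw [hfe, hfe']; simp
      rw [this]
      simp only [Category.assoc]
      rw [← Category.assoc e' f', hef', ← Category.assoc e f, hef, ← Category.assoc (D.par 1),
        D.par_orth (by norm_num)]
      simp
    apply biprod.hom_ext' <;> apply biprod.hom_ext <;> simp [hfe, hfe', h1, h2]
  · rw [extVanish_iff]
    have := hph.asym_zero 0 (Or.inl rfl) hP
    norm_num at this
    exact this
  · rw [symVanish_iff]
    have := hph.asym_zero 1 (Or.inr rfl) hQ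
    norm_num at this
    exact this

/-- an object of vanishing homology with vanishing exterior or symmetric power vanishes -/
lemma id_eq_zero_of_vanish {ε : ℚ} (hε : ε * ε = 1) (hM : Subsingleton (W.H.obj M)) (n : ℕ)
    (h : asym ε M n = 0) : 𝟙 M = 0 := by
  have hδ : η_ M (Mᘁ) ≫ (β_ M (Mᘁ)).hom ≫ ε_ M (Mᘁ) = 0 := by
    have h1 : Subsingleton (W.H.obj (M ⊗ Mᘁ)) := by
      apply W.subsingleton_of_id
      have := W.H_tensor_zero (𝟙 M) (𝟙 (Mᘁ)) (W.map_zero_of_subsingleton _ hM)
      simpa using this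
    have h2 := W.endTate_eq_zero 0
      (W.tateZero.hom ≫ (η_ M (Mᘁ) ≫ (β_ M (Mᘁ)).hom ≫ ε_ M (Mᘁ)) ≫ W.tateZero.inv)
      (by
        simp only [Functor.map_comp]
        rw [W.map_zero_of_subsingleton (β_ M (Mᘁ)).hom h1]
        simp)
    have h3 := congrArg (fun t => W.tateZero.inv ≫ t ≫ W.tateZero.hom) h2
    simpa using h3
  cases n with
  | zero =>
    have h1 : 𝟙 (𝟙_ C) = 0 := h
    have h2 := congrArg (fun t => (λ_ M).inv ≫ (t ▷ M) ≫ (λ_ M).hom) h1
    simpa using h2
  | succ n => exact id_eq_zero_of_asym hε M hδ n h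

/-- if all objects are finite-dimensional then there are no phantoms -/
theorem noPhantom_of_kimura [HasBinaryBiproducts C] (h : ∀ M : C, KimuraFinite M) :
    NoPhantom W := by
  intro N hN
  rw [IsZero.iff_id_eq_zero]
  obtain ⟨P, Q, n, m, ⟨e⟩, hP, hQ⟩ := h N
  rw [extVanish_iff] at hP
  rw [symVanish_iff] at hQ
  have h1 : ∀ (X : C) (i : X ⟶ N) (r : N ⟶ X), i ≫ r = 𝟙 X → Subsingleton (W.H.obj X) := by
    intro X i r hir
    apply W.subsingleton_of_id
    rw [← hir, Functor.map_comp, W.map_zero_of_subsingleton r hN, comp_zero]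
  have hP' : 𝟙 P = 0 := id_eq_zero_of_vanish (W := W) (by norm_num)
    (h1 P (biprod.inl ≫ e.inv) (e.hom ≫ biprod.fst) (by simp)) n hP
  have hQ' : 𝟙 Q = 0 := id_eq_zero_of_vanish (W := W) (by norm_num)
    (h1 Q (biprod.inr ≫ e.inv) (e.hom ≫ biprod.snd) (by simp)) m hQ
  have h2 : 𝟙 (P ⊞ Q) = 0 := by
    rw [← biprod.total]
    have e1 : (biprod.fst : P ⊞ Q ⟶ P) = biprod.fst ≫ 𝟙 P := by simp
    have e2 : (biprod.snd : P ⊞ Q ⟶ Q) = biprod.snd ≫ 𝟙 Q := by simp
    rw [e1, e2, hP', hQ']
    simp
  have h3 : 𝟙 N = e.hom ≫ 𝟙 (P ⊞ Q) ≫ e.inv := by simp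
  rw [h3, h2]
  simp

end main

end Pool.Agent.Helper15.Murre
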