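import Mathlib
import Pool.Agent.Helper15.Murre.Defs

open CategoryTheory MonoidalCategory Limits TensorProduct

universe w v u

namespace Pool.Agent.Helper15.Murre

variable {C : Type u} [Category.{v} C] [Preadditive C] [Linear ℚ C]
  [MonoidalCategory C] [SymmetricCategory C] [RigidCategory C] {F : Type w} [Field F]

/-- `f` factors through the Tate object `1(n)` -/
def ThroughTate (W : MotivicHomology C F) {M : C} (n : ℤ) (f : M ⟶ M) : Prop :=
  ∃ (a : M ⟶ W.T n) (b : W.T n ⟶ M), f = a ≫ b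

/-- `f` factors through the projector `g` -/
def Through {M N : C} (g : N ⟶ N) (f : M ⟶ M) : Prop :=
  ∃ (a : M ⟶ N) (b : N ⟶ M), f = a ≫ g ≫ b

variable {W : MotivicHomology C F}

/-- `M` has dual `M(-n)`, and the Chow-Kunneth decomposition `D` is self-dual, `M_j` being dual
to `M_{2n-j}(-n)` -/
def SelfDual {M : C} (D : CK W M) (n : ℤ) : Prop :=
  ∃ d : Mᘁ ≅ M ⊗ W.T (-n), ∀ j, (D.p j)ᘁ ≫ d.hom = d.hom ≫ (D.p (2 * n - j) ▷ W.T (-n))

/-- the properties of the Chow-Kunneth decomposition of a curve: it is self-dual, and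
`h(X) = h_0(X) ⊕ h_1(X) ⊕ h_2(X)`, where `h_0(X)` factors through `1(0)` and `h_2(X)` factors
through `1(1)` -/
structure CurveCK {M : C} (D : CK W M) : Prop where
  dual : SelfDual D 1
  zero : ∀ j, j ≠ 0 → j ≠ 1 → j ≠ 2 → D.p j = 0
  h₀ : ThroughTate W 0 (D.p 0)
  h₂ : ThroughTate W 1 (D.p 2)

/-- the properties of the Chow-Kunneth decomposition of a surface: it is self-dual, and
`h(S) = h_0(S) ⊕ h_1(S) ⊕ h_2(S) ⊕ h_3(S) ⊕ h_4(S)`, where `h_0(S)` factors through `1(0)`,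
`h_1(S)` through `h_1(X)` and `h_3(S)` through `h_1(X)(1)` for some curve `X`, `h_4(S)` through
`1(2)`, and `h_2(S)` is the sum of `t` (the transcendental part of `h_2(S)`) and an algebraic part
which factors through a sum of copies of `1(1)` -/
structure SurfaceCK {Curve : Type u} {hC : Curve → C} (e : ∀ X, CK W (hC X)) {M : C}
    (D : CK W M) (t : M ⟶ M) : Prop where
  dual : SelfDual D 2
  zero : ∀ j, j ≠ 0 → j ≠ 1 → j ≠ 2 → j ≠ 3 → j ≠ 4 → D.p j = 0
  h₀ : ThroughTate W 0 (D.p 0)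
  h₁ : ∃ X, Through ((e X).p 1) (D.p 1)
  h₂ : D.p 2 - t ∈ Submodule.span ℚ {f : M ⟶ M | ThroughTate W 1 f}
  idem : t ≫ t = t
  h₃ : ∃ X, Through ((e X).p 1 ▷ W.T 1) (D.p 3)
  h₄ : ThroughTate W 2 (D.p 4)

variable (W) in
/-- Let `r : h(X) ⟶ 1(1)` be given by a point of the curve `X` which is generic over a field of
definition of `M` and `α`. If the restriction of `α ∈ CH_l(M ⊗ h(X))` to this point is zero,
then `α` is supported over finitely many points of `X`. -/
def GenericPoint (hX : C) : Prop :=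
  ∀ (M : C) (l : ℤ) (α : W.CH l (M ⊗ hX)), ∃ r : hX ⟶ W.T 1,
    α ≫ (M ◁ r) = 0 → α ∈ Submodule.span ℚ {γ : W.CH l (M ⊗ hX) |
      ∃ (i : W.T 0 ⟶ hX) (β : W.CH l (M ⊗ W.T 0)), γ = β ≫ (M ◁ i)}

/-- Let `r : h(S) ⟶ h(X)(1)` be given by restriction to the generic member `X` of a pencil on
the surface `S` (over a field of definition of `M` and `α`) through the base point. If the
restriction of `α ∈ CH_l(M ⊗ h(S))` to `X` is zero, then `α` is supported over finitely many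
curves on `S`; and the composition `h_2^tr(S) ⟶ h(S) ⟶ h(X)(1) ⟶ h_2(X)(1) = 1(2)` is zero,
being given by the class of the base point. -/
def GenericCurve {Curve : Type u} {hC : Curve → C} (e : ∀ X, CK W (hC X)) (hS : C)
    (t : hS ⟶ hS) : Prop :=
  ∀ (M : C) (l : ℤ) (α : W.CH l (M ⊗ hS)), ∃ (X : Curve) (r : hS ⟶ hC X ⊗ W.T 1),
    t ≫ r ≫ ((e X).p 2 ▷ W.T 1) = 0 ∧
      (α ≫ (M ◁ r) = 0 → α ∈ Submodule.span ℚ {γ : W.CH l (M ⊗ hS) |
        ∃ (Y : Curve) (i : hC Y ⟶ hS) (β : W.CH l (M ⊗ hC Y)), γ = β ≫ (M ◁ i)})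

/-- The formal properties of the Chow motives of (pointed, smooth projective) curves and
surfaces over a universal domain `Ω`. -/
structure CurvesSurfaces (W : MotivicHomology C F) where
  /-- the curves -/
  Curve : Type u
  /-- the surfaces -/
  Surf : Type u
  /-- the motive `h(X)` of a curve -/
  hC : Curve → C
  /-- the motive `h(S)` of a surface -/
  hS : Surf → C
  /-- the Chow-Kunneth decomposition of `h(X)` -/
  e : ∀ X, CK W (hC X)
  /-- the Chow-Kunneth decomposition of `h(S)` -/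
  q : ∀ S, CK W (hS S)
  /-- the transcendental part `h_2^tr(S)` of `h_2(S)` -/
  t : ∀ S, hS S ⟶ hS S
  /-- `CH_l(pt) = 0` for `l > 0` -/
  point : ∀ l : ℤ, 0 < l → ∀ f : W.T l ⟶ 𝟙_ C, f = 0
  curveCK : ∀ X, CurveCK (e X)
  surfaceCK : ∀ S, SurfaceCK e (q S) (t S)
  genericPoint : ∀ X, GenericPoint W (hC X)
  genericCurve : ∀ S, GenericCurve e (hS S) (t S)

variable {W : MotivicHomology C F} (G : CurvesSurfaces W)

namespace CurvesSurfaces

/-- `Piece M f i`: `M` is the motive of a product `Y₁ × ⋯ × Yₙ` of curves and surfaces, and `f`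
is the projector onto the summand `h_{j₁}(Y₁) ⊗ ⋯ ⊗ h_{jₙ}(Yₙ)` of its product Chow-Kunneth
decomposition, of weight `i = j₁ + ⋯ + jₙ`. -/
inductive Piece : ∀ M : C, (M ⟶ M) → ℤ → Prop
  | unit : Piece (𝟙_ C) (𝟙 (𝟙_ C)) 0
  | curve (M : C) (f : M ⟶ M) (i : ℤ) (X : G.Curve) (j : ℤ) : Piece M f i →
      Piece (M ⊗ G.hC X) (f ⊗ₘ (G.e X).p j) (i + j)
  | surf (M : C) (f : M ⟶ M) (i : ℤ) (S : G.Surf) (j : ℤ) : Piece M f i →
      Piece (M ⊗ G.hS S) (f ⊗ₘ (G.q S).p j) (i + j)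

/-- Murre's conjecture (D) for all finite products of curves and surfaces, with the product
Chow-Kunneth decomposition: `CH_l(h_{j₁}(Y₁) ⊗ ⋯ ⊗ h_{jₙ}(Yₙ))_hom = 0` if
`j₁ + ⋯ + jₙ = 2l`. -/
def ProductsD : Prop := ∀ (M : C) (f : M ⟶ M) (l : ℤ), G.Piece M f (2 * l) →
  ∀ α : W.CH l M, α ≫ f = α → α ∈ W.CHhom l M → α = 0

/-- the thick tensor subcategory generated by the motives of curves and surfaces and the Tate
objects -/
inductive Gen [HasBinaryBiproducts C] : C → Prop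
  | tate (n : ℤ) : Gen (W.T n)
  | curve (X : G.Curve) : Gen (G.hC X)
  | surf (S : G.Surf) : Gen (G.hS S)
  | tensor (M N : C) : Gen M → Gen N → Gen (M ⊗ N)
  | sum (M N : C) : Gen M → Gen N → Gen (M ⊞ N)
  | summand (M N : C) : Retract N M → Gen M → Gen N

end CurvesSurfaces

end Pool.Agent.Helper15.Murre
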