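import Mathlib
import Pool.Agent.Helper15.Murre.Kill
import Pool.Agent.Helper15.Murre.Global
import Pool.Agent.Helper15.Murre.CSDefs

open CategoryTheory MonoidalCategory Limits TensorProduct

universe w v u

namespace Pool.Agent.Helper15.Murre

variable {C : Type u} [Category.{v} C] [Preadditive C] [Linear ℚ C]
  [MonoidalCategory C] [SymmetricCategory C] [MonoidalPreadditive C] [MonoidalLinear ℚ C]
  [RigidCategory C] {F : Type w} [Field F]

variable {W : MotivicHomology C F} (G : CurvesSurfaces W)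

namespace CurvesSurfaces

/-- the motive of a curve or surface -/
def gen : G.Curve ⊕ G.Surf → C := Sum.elim G.hC G.hS

/-- the Chow-Kunneth decomposition of a curve or surface -/
noncomputable def genCK : ∀ Z : G.Curve ⊕ G.Surf, CK W (G.gen Z)
  | Sum.inl X => G.e X
  | Sum.inr S => G.q S

/-- the motive of a finite product of curves and surfaces -/
def prod : List (G.Curve ⊕ G.Surf) → C
  | [] => 𝟙_ C
  | Z :: L => prod L ⊗ G.gen Z

/-- the product Chow-Kunneth decomposition of a finite product of curves and surfaces -/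
noncomputable def prodCK : ∀ L : List (G.Curve ⊕ G.Surf), CK W (G.prod L)
  | [] => CK.single (𝟙_ C) 0 W.unit_mem
  | Z :: L => (prodCK L).tensor (G.genCK Z)

variable {G}
variable {M : C} {D : CK W M}

omit [MonoidalPreadditive C] [MonoidalLinear ℚ C]

lemma curve (G : CurvesSurfaces W) (X : G.Curve) : ∀ j, j ≠ 0 → j ≠ 1 → j ≠ 2 →
    (G.e X).p j = 0 := (G.curveCK X).zero

lemma curve₀ (G : CurvesSurfaces W) (X : G.Curve) :
    ∃ (a : G.hC X ⟶ W.T 0) (b : W.T 0 ⟶ G.hC X), (G.e X).p 0 = a ≫ b := (G.curveCK X).h₀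

lemma curve₂ (G : CurvesSurfaces W) (X : G.Curve) :
    ∃ (a : G.hC X ⟶ W.T 1) (b : W.T 1 ⟶ G.hC X), (G.e X).p 2 = a ≫ b := (G.curveCK X).h₂

lemma surf (G : CurvesSurfaces W) (S : G.Surf) : ∀ j, j ≠ 0 → j ≠ 1 → j ≠ 2 → j ≠ 3 → j ≠ 4 →
    (G.q S).p j = 0 := (G.surfaceCK S).zero

lemma surf₀ (G : CurvesSurfaces W) (S : G.Surf) :
    ∃ (a : G.hS S ⟶ W.T 0) (b : W.T 0 ⟶ G.hS S), (G.q S).p 0 = a ≫ b := (G.surfaceCK S).h₀

lemma surf₁ (G : CurvesSurfaces W) (S : G.Surf) :
    ∃ (X : G.Curve) (a : G.hS S ⟶ G.hC X) (b : G.hC X ⟶ G.hS S),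
      (G.q S).p 1 = a ≫ (G.e X).p 1 ≫ b := (G.surfaceCK S).h₁

lemma surf₂ (G : CurvesSurfaces W) (S : G.Surf) : (G.q S).p 2 - G.t S ∈ Submodule.span ℚ
    {f : G.hS S ⟶ G.hS S | ∃ (a : G.hS S ⟶ W.T 1) (b : W.T 1 ⟶ G.hS S), f = a ≫ b} :=
  (G.surfaceCK S).h₂

lemma surf₃ (G : CurvesSurfaces W) (S : G.Surf) :
    ∃ (X : G.Curve) (a : G.hS S ⟶ G.hC X ⊗ W.T 1) (b : G.hC X ⊗ W.T 1 ⟶ G.hS S),
      (G.q S).p 3 = a ≫ ((G.e X).p 1 ▷ W.T 1) ≫ b := (G.surfaceCK S).h₃

lemma surf₄ (G : CurvesSurfaces W) (S : G.Surf) :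
    ∃ (a : G.hS S ⟶ W.T 2) (b : W.T 2 ⟶ G.hS S), (G.q S).p 4 = a ≫ b := (G.surfaceCK S).h₄

lemma t_idem (G : CurvesSurfaces W) (S : G.Surf) : G.t S ≫ G.t S = G.t S :=
  (G.surfaceCK S).idem

end CurvesSurfaces

namespace CurvesSurfaces

variable {G}
variable {M : C} {D : CK W M}

omit [MonoidalPreadditive C] [MonoidalLinear ℚ C] in
lemma Piece.idem {f : M ⟶ M} {i : ℤ} (h : G.Piece M f i) : f ≫ f = f := by
  induction h with
  | unit => simp
  | curve M f i X j _ ih =>
    rw [MonoidalCategory.tensorHom_comp_tensorHom, ih, (G.e X).idem]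
  | surf M f i S j _ ih =>
    rw [MonoidalCategory.tensorHom_comp_tensorHom, ih, (G.q S).idem]

omit [MonoidalLinear ℚ C] in
lemma prodCK_mem (L : List (G.Curve ⊕ G.Surf)) : ∀ n, (G.prodCK L).p n ∈
    AddSubmonoid.closure {g : G.prod L ⟶ G.prod L | G.Piece (G.prod L) g n} := by
  induction L with
  | nil =>
    intro n
    by_cases h0 : n = 0
    · subst h0
      apply AddSubmonoid.subset_closure
      have h1 : (G.prodCK []).p 0 = 𝟙 _ := CK.single_p _ _ _
      change G.Piece (𝟙_ C) ((G.prodCK []).p 0) 0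
      rw [h1]
      exact Piece.unit
    · have h1 : (G.prodCK []).p n = 0 := if_neg h0
      rw [h1]
      exact AddSubmonoid.zero_mem _
  | cons Z L ih =>
    intro n
    change (∑ a ∈ (G.prodCK L).s, (G.prodCK L).p a ⊗ₘ (G.genCK Z).p (n - a)) ∈ _
    apply AddSubmonoid.sum_mem
    intro a _
    have key : ∀ g ∈ AddSubmonoid.closure {g : G.prod L ⟶ G.prod L | G.Piece (G.prod L) g a},
        g ⊗ₘ (G.genCK Z).p (n - a) ∈ AddSubmonoid.closure
          {g : G.prod (Z :: L) ⟶ G.prod (Z :: L) | G.Piece (G.prod (Z :: L)) g n} := by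
      intro g hg
      induction hg using AddSubmonoid.closure_induction with
      | mem g hg =>
        apply AddSubmonoid.subset_closure
        change G.Piece (G.prod L ⊗ G.gen Z) (g ⊗ₘ (G.genCK Z).p (n - a)) n
        have hn : n = a + (n - a) := by omega
        cases Z with
        | inl X =>
          have := Piece.curve _ _ _ X (n - a) hg
          rw [← hn] at this
          exact this
        | inr S =>
          have := Piece.surf _ _ _ S (n - a) hg
          rw [← hn] at this
          exact this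
      | zero =>
        have : (0 : G.prod L ⟶ G.prod L) ⊗ₘ (G.genCK Z).p (n - a) = 0 := by simp
        rw [this]
        exact AddSubmonoid.zero_mem _
      | add x y _ _ hx hy =>
        have : (x + y) ⊗ₘ (G.genCK Z).p (n - a)
            = x ⊗ₘ (G.genCK Z).p (n - a) + y ⊗ₘ (G.genCK Z).p (n - a) := by
          simp only [MonoidalCategory.tensorHom_def, MonoidalPreadditive.add_whiskerRight,
            Preadditive.add_comp]
        rw [this]
        exact AddSubmonoid.add_mem _ hx hy
    exact key _ (ih a)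

omit [MonoidalLinear ℚ C] in
/-- (D) for the product decompositions -/
lemma prodCK_murreD (hD : G.ProductsD) (L : List (G.Curve ⊕ G.Surf)) :
    (G.prodCK L).MurreD := by
  rw [CK.MurreD_iff]
  intro l α hα hH
  have key : ∀ g ∈ AddSubmonoid.closure
      {g : G.prod L ⟶ G.prod L | G.Piece (G.prod L) g (2 * l)}, α ≫ g = 0 := by
    intro g hg
    induction hg using AddSubmonoid.closure_induction with
    | mem g hg =>
      refine hD _ g l hg (α ≫ g) ?_ ?_
      · rw [Category.assoc, hg.idem]
      · change W.H.map (α ≫ g) = 0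
        rw [Functor.map_comp, hH, zero_comp]
    | zero => rw [comp_zero]
    | add x y _ _ hx hy => rw [Preadditive.comp_add, hx, hy, add_zero]
  rw [← hα]
  exact key _ (prodCK_mem L _)

omit [MonoidalLinear ℚ C] in
lemma gen_dual (Z : G.Curve ⊕ G.Surf) :
    ∃ m, (G.genCK Z).dual.Eqv ((G.genCK Z).twist m) := by
  cases Z with
  | inl X =>
    obtain ⟨d, hd⟩ := (G.curveCK X).dual
    refine ⟨-1, d, fun i => ?_⟩
    have h1 := hd (-i)
    have h2 : 2 * (1 : ℤ) - -i = i - 2 * -1 := by ring
    rw [h2] at h1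
    rw [CK.twist_p]
    exact h1
  | inr S =>
    obtain ⟨d, hd⟩ := (G.surfaceCK S).dual
    refine ⟨-2, d, fun i => ?_⟩
    have h1 := hd (-i)
    have h2 : 2 * (2 : ℤ) - -i = i - 2 * -2 := by ring
    rw [h2] at h1
    rw [CK.twist_p]
    exact h1

/-- (B) for `M ⊗ h(X)` -/
lemma murreB_curve (h : D.MurreB ∧ D.MurreD) (X : G.Curve) : (D.tensor (G.e X)).MurreB := by
  have hK := D.murreBD_iff_kill.1 h
  apply murreB_tensor_of_kill
  intro i j
  by_cases h0 : j = 0
  · subst h0
    obtain ⟨a, b, hab⟩ := G.curve₀ X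
    rw [hab]
    exact ((hK i).factor_tate 0 a b).mono (by omega)
  by_cases h1 : j = 1
  · subst h1
    intro l hl α₀ hα₀
    set α : W.CH l (M ⊗ G.hC X) := α₀ ≫ (D.p i ⊗ₘ (G.e X).p 1) with hα
    have hαα : α ≫ (D.p i ⊗ₘ (G.e X).p 1) = α := by
      rw [hα, Category.assoc, D.pure_idem]
    have hH : W.H.map α = 0 := by rw [hα, Functor.map_comp, hα₀, zero_comp]
    obtain ⟨r, hr⟩ := G.genericPoint X M l α
    have h2 : α ≫ (M ◁ r) = 0 := by
      have h3 : α ≫ (M ◁ r) = (α ≫ M ◁ ((G.e X).p 1 ≫ r)) ≫ (D.p i ▷ W.T 1) := by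
        conv_lhs => rw [← hαα]
        simp only [Category.assoc]
        congr 1
        simp only [← MonoidalCategory.id_tensorHom, ← MonoidalCategory.tensorHom_id,
          MonoidalCategory.tensorHom_comp_tensorHom, Category.id_comp, Category.comp_id]
      rw [h3]
      exact (hK i).twist 1 l (by omega) _ (by rw [Functor.map_comp, hH, zero_comp])
    have h4 := hr h2
    have h5 : ∀ γ ∈ Submodule.span ℚ {γ : W.CH l (M ⊗ G.hC X) |
        ∃ (i : W.T 0 ⟶ G.hC X) (β : W.CH l (M ⊗ W.T 0)), γ = β ≫ (M ◁ i)},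
        γ ≫ (D.p i ⊗ₘ (G.e X).p 1) = 0 := by
      intro γ hγ
      induction hγ using Submodule.span_induction with
      | mem γ hγ =>
        obtain ⟨c, β, rfl⟩ := hγ
        have h6 : (β ≫ (M ◁ c)) ≫ (D.p i ⊗ₘ (G.e X).p 1)
            = (β ≫ (D.p i ▷ W.T 0)) ≫ (M ◁ (c ≫ (G.e X).p 1)) := by
          simp only [Category.assoc]
          congr 1
          simp only [← MonoidalCategory.id_tensorHom, ← MonoidalCategory.tensorHom_id,
            MonoidalCategory.tensorHom_comp_tensorHom, Category.id_comp, Category.comp_id]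
        have h7 := CK.twist_murreB h.1 0
        rw [CK.MurreB_iff] at h7
        have h8 := h7 l i (by omega) β
        rw [CK.twist_p] at h8
        have h9 : i - 2 * 0 = i := by omega
        rw [h9] at h8
        rw [h6, h8, zero_comp]
      | zero => rw [zero_comp]
      | add a b _ _ ha hb => rw [Preadditive.add_comp, ha, hb, add_zero]
      | smul c a _ ha => rw [Linear.smul_comp, ha, smul_zero]
    rw [← hαα]
    exact h5 α h4
  by_cases h2 : j = 2
  · subst h2
    obtain ⟨a, b, hab⟩ := G.curve₂ X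
    rw [hab]
    exact ((hK i).factor_tate 1 a b).mono (by omega)
  · rw [G.curve X j h0 h1 h2]
    have : D.p i ⊗ₘ (0 : G.hC X ⟶ G.hC X) = 0 := by simp
    rw [this]
    exact Kill.zero _

omit [MonoidalLinear ℚ C] in
/-- (B) for `M ⊗ h(S)` -/
lemma murreB_surf (h : D.MurreB ∧ D.MurreD)
    (hC : ∀ X : G.Curve, (D.tensor (G.e X)).MurreB ∧ (D.tensor (G.e X)).MurreD)
    (S : G.Surf) : (D.tensor (G.q S)).MurreB := by
  have hK := D.murreBD_iff_kill.1 h
  have hKC : ∀ (X : G.Curve) (i j : ℤ), Kill W (D.p i ⊗ₘ (G.e X).p j) (i + j) :=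
    fun X i j => Kill.of_tensor (hC X) i j
  apply murreB_tensor_of_kill
  intro i j
  by_cases h0 : j = 0
  · subst h0
    obtain ⟨a, b, hab⟩ := G.surf₀ S
    rw [hab]
    exact ((hK i).factor_tate 0 a b).mono (by omega)
  by_cases h1 : j = 1
  · subst h1
    obtain ⟨X, a, b, hab⟩ := G.surf₁ S
    rw [hab]
    exact ((hKC X i 1).factor a b).mono (by omega)
  by_cases h2 : j = 2
  · subst h2
    have halg : Kill W (D.p i ⊗ₘ ((G.q S).p 2 - G.t S)) (i + 2 + 1) := by
      have h3 : ∀ f ∈ Submodule.span ℚ {f : G.hS S ⟶ G.hS S |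
          ∃ (a : G.hS S ⟶ W.T 1) (b : W.T 1 ⟶ G.hS S), f = a ≫ b},
          Kill W (D.p i ⊗ₘ f) (i + 2 + 1) := by
        intro f hf
        have hlin : ∀ g : G.hS S ⟶ G.hS S, D.p i ⊗ₘ g = (D.p i ▷ G.hS S) ≫ (M ◁ g) :=
          fun g => MonoidalCategory.tensorHom_def _ _
        induction hf using Submodule.span_induction with
        | mem f hf =>
          obtain ⟨a, b, rfl⟩ := hf
          exact ((hK i).factor_tate 1 a b).mono (by omega)
        | zero =>
          have : D.p i ⊗ₘ (0 : G.hS S ⟶ G.hS S) = 0 := by simp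
          rw [this]
          exact Kill.zero _
        | add a b _ _ ha hb =>
          rw [hlin, MonoidalPreadditive.whiskerLeft_add, Preadditive.comp_add, ← hlin, ← hlin]
          exact ha.add hb
        | smul c a _ ha =>
          have hca : c • a = 𝟙 _ ≫ a ≫ (c • 𝟙 (G.hS S)) := by simp
          rw [hca]
          exact ha.factor _ _
      exact h3 _ (G.surf₂ S)
    have htr : Kill W (D.p i ⊗ₘ G.t S) (i + 2 + 1) := by
      intro l hl α₀ hα₀
      set α : W.CH l (M ⊗ G.hS S) := α₀ ≫ (D.p i ⊗ₘ G.t S) with hα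
      have hαα : α ≫ (D.p i ⊗ₘ G.t S) = α := by
        rw [hα, Category.assoc, MonoidalCategory.tensorHom_comp_tensorHom, D.idem, G.t_idem]
      have hH : W.H.map α = 0 := by rw [hα, Functor.map_comp, hα₀, zero_comp]
      obtain ⟨X, r, hr0, hr⟩ := G.genericCurve S M l α
      have h2 : α ≫ (M ◁ r) = 0 := by
        apply D.tensor_ext' ((G.e X).twist 1)
        intro i' j'
        rw [zero_comp, Category.assoc]
        have hαi : α ≫ (D.p i ⊗ₘ 𝟙 (G.hS S)) = α := by
          conv_lhs => rw [← hαα]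
          rw [Category.assoc, MonoidalCategory.tensorHom_comp_tensorHom, D.idem,
            Category.comp_id, hαα]
        by_cases hi' : i' = i
        · subst hi'
          rw [CK.twist_p]
          have h4 : α ≫ (M ◁ r) ≫ (D.p i' ⊗ₘ ((G.e X).p (j' - 2 * 1) ▷ W.T 1))
              = (α ≫ (M ◁ (G.t S ≫ r))) ≫ (D.p i' ⊗ₘ ((G.e X).p (j' - 2 * 1) ▷ W.T 1)) := by
            conv_lhs => rw [← hαα]
            simp only [Category.assoc]
            congr 1
            simp only [← MonoidalCategory.id_tensorHom,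
              MonoidalCategory.tensorHom_comp_tensorHom, Category.id_comp, Category.assoc]
            rw [D.idem]
          rw [h4]
          have hH' : W.H.map (α ≫ (M ◁ (G.t S ≫ r))) = 0 := by
            rw [Functor.map_comp, hH, zero_comp]
          by_cases hj2 : j' - 2 * 1 = 2
          · rw [hj2, Category.assoc]
            have h5 : (M ◁ (G.t S ≫ r)) ≫ (D.p i' ⊗ₘ ((G.e X).p 2 ▷ W.T 1)) = 0 := by
              simp only [← MonoidalCategory.id_tensorHom,
                MonoidalCategory.tensorHom_comp_tensorHom, Category.id_comp, Category.assoc]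
              rw [hr0]
              simp
            rw [h5, comp_zero]
          by_cases hj0 : j' - 2 * 1 = 0
          · rw [hj0]
            exact (hKC X i' 0).whisker_tate 1 l (by omega) _ hH'
          by_cases hj1 : j' - 2 * 1 = 1
          · rw [hj1]
            exact (hKC X i' 1).whisker_tate 1 l (by omega) _ hH'
          · rw [G.curve X _ hj0 hj1 hj2]
            simp
        · have h5 : α ≫ (M ◁ r) ≫ (D.p i' ⊗ₘ ((G.e X).twist 1).p j')
              = α ≫ ((D.p i ≫ D.p i') ⊗ₘ (r ≫ ((G.e X).twist 1).p j')) := by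
            conv_lhs => rw [← hαi]
            simp only [Category.assoc]
            congr 1
            simp only [← MonoidalCategory.id_tensorHom,
              MonoidalCategory.tensorHom_comp_tensorHom, Category.id_comp]
          rw [h5, D.orth _ _ (Ne.symm hi')]
          simp
      have h4 := hr h2
      have h5 : ∀ γ ∈ Submodule.span ℚ {γ : W.CH l (M ⊗ G.hS S) |
          ∃ (Y : G.Curve) (i : G.hC Y ⟶ G.hS S) (β : W.CH l (M ⊗ G.hC Y)),
            γ = β ≫ (M ◁ i)}, γ ≫ (D.p i ⊗ₘ G.t S) = 0 := by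
        intro γ hγ
        induction hγ using Submodule.span_induction with
        | mem γ hγ =>
          obtain ⟨Y, c, β, rfl⟩ := hγ
          have hB := (CK.tensor_murreB_iff D (G.e Y)).1 (hC Y).1
          have h6 : (β ≫ (M ◁ c)) ≫ (D.p i ⊗ₘ G.t S)
              = (β ≫ (D.p i ▷ G.hC Y)) ≫ (M ◁ (c ≫ G.t S)) := by
            simp only [Category.assoc]
            congr 1
            simp only [← MonoidalCategory.id_tensorHom, ← MonoidalCategory.tensorHom_id,
              MonoidalCategory.tensorHom_comp_tensorHom, Category.id_comp, Category.comp_id]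
          have h7 : β ≫ (D.p i ▷ G.hC Y) = 0 := by
            apply D.tensor_ext' (G.e Y)
            intro i' j'
            rw [zero_comp, Category.assoc]
            have h8 : (D.p i ▷ G.hC Y) ≫ (D.p i' ⊗ₘ (G.e Y).p j')
                = (D.p i ≫ D.p i') ⊗ₘ (G.e Y).p j' := by
              simp only [← MonoidalCategory.tensorHom_id,
                MonoidalCategory.tensorHom_comp_tensorHom, Category.id_comp]
            rw [h8]
            by_cases hi' : i' = i
            · subst hi'
              rw [D.idem]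
              by_cases hj0 : j' = 0
              · exact hB l _ _ (by omega) β
              by_cases hj1 : j' = 1
              · exact hB l _ _ (by omega) β
              by_cases hj2 : j' = 2
              · exact hB l _ _ (by omega) β
              · rw [G.curve Y _ hj0 hj1 hj2]
                simp
            · rw [D.orth _ _ (Ne.symm hi')]
              simp
          rw [h6, h7, zero_comp]
        | zero => rw [zero_comp]
        | add a b _ _ ha hb => rw [Preadditive.add_comp, ha, hb, add_zero]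
        | smul c a _ ha => rw [Linear.smul_comp, ha, smul_zero]
      rw [← hαα]
      exact h5 α h4
    have h3 : (G.q S).p 2 = ((G.q S).p 2 - G.t S) + G.t S := by abel
    have h4 : D.p i ⊗ₘ (G.q S).p 2
        = (D.p i ⊗ₘ ((G.q S).p 2 - G.t S)) + (D.p i ⊗ₘ G.t S) := by
      conv_lhs => rw [h3]
      simp only [MonoidalCategory.tensorHom_def, MonoidalPreadditive.whiskerLeft_add,
        Preadditive.comp_add]
    rw [h4]
    exact halg.add htr
  by_cases h3 : j = 3
  · subst h3
    obtain ⟨X, a, b, hab⟩ := G.surf₃ S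
    rw [hab]
    exact (((hKC X i 1).whisker_tate 1).factor a b).mono (by omega)
  by_cases h4 : j = 4
  · subst h4
    obtain ⟨a, b, hab⟩ := G.surf₄ S
    rw [hab]
    exact ((hK i).factor_tate 2 a b).mono (by omega)
  · rw [G.surf S j h0 h1 h2 h3 h4]
    have : D.p i ⊗ₘ (0 : G.hS S ⟶ G.hS S) = 0 := by simp
    rw [this]
    exact Kill.zero _

omit [MonoidalLinear ℚ C] in
lemma murreB_nil : (G.prodCK []).MurreB := by
  rw [CK.MurreB_iff]
  intro l i hi α
  by_cases h0 : i = 0
  · subst h0
    have h1 : (G.prodCK []).p 0 = 𝟙 _ := CK.single_p _ _ _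
    rw [h1, Category.comp_id]
    exact G.point l (by omega) α
  · have h1 : (G.prodCK []).p i = 0 := if_neg h0
    rw [h1, comp_zero]

/-- (D) for all products of curves and surfaces implies (B) for all products of curves and
surfaces -/
theorem prod_murreB (hP : G.ProductsD) (L : List (G.Curve ⊕ G.Surf)) :
    (G.prodCK L).MurreB := by
  have hD := prodCK_murreD hP
  induction L with
  | nil => exact murreB_nil
  | cons Z L ih =>
    have hc : ∀ X : G.Curve, (G.prodCK (Sum.inl X :: L)).MurreB :=
      fun X => murreB_curve ⟨ih, hD L⟩ X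
    cases Z with
    | inl X => exact hc X
    | inr S => exact murreB_surf ⟨ih, hD L⟩ (fun X => ⟨hc X, hD (Sum.inl X :: L)⟩) S

end CurvesSurfaces

end Pool.Agent.Helper15.Murre
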