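import Mathlib
import Pool.Agent.Helper15.Murre.Kill
import Pool.Agent.Helper15.Murre.Global

open CategoryTheory MonoidalCategory Limits TensorProduct

universe w v u

namespace Pool.Agent.Helper15.Murre

section basic

variable {C : Type u} [Category.{v} C] [Preadditive C] [Linear ℚ C]
  [MonoidalCategory C] [SymmetricCategory C] [RigidCategory C]
  {F : Type w} [Field F]
variable {W : MotivicHomology C F} {M N X Y : C}

/-- homologically trivial maps `M → N` have no components `M_i → N_j` with `j ≤ i` -/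
def HomKill (D : CK W M) (E : CK W N) : Prop :=
  ∀ i j : ℤ, j ≤ i → ∀ f : M ⟶ N, W.H.map f = 0 → D.p i ≫ f ≫ E.p j = 0

lemma HomKill.tri {D : CK W M} (h : HomKill D D) : D.Tri := by
  intro i j hij f
  have h0 : W.H.map (D.p i ≫ f ≫ D.p j) = 0 := by
    apply W.hext
    intro a x hx
    simp only [W.map_comp_apply]
    rw [D.homology i a x hx]
    split_ifs with h1
    · rw [D.homology j a _ (W.map_gr _ _ _ hx), if_neg (by omega)]
      rfl
    · simp
  have h1 := h i j hij.le _ h0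
  simp only [Category.assoc, D.idem] at h1
  rwa [← Category.assoc, D.idem] at h1

lemma HomKill.noPh {D : CK W M} (h : HomKill D D) : D.NoPh := by
  intro i t h1 h2 _ h0
  have h3 := h i i le_rfl t h0
  rwa [h2, h1] at h3

lemma HomKill.eqv {D : CK W M} {E : CK W N} {E' : CK W X} (h : HomKill D E) (he : E.Eqv E') :
    HomKill D E' := by
  obtain ⟨e, he⟩ := he.symm
  intro i j hij f hf
  have h1 := h i j hij (f ≫ e.hom) (by rw [Functor.map_comp, hf, zero_comp])
  rw [Category.assoc, ← he] at h1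
  have h2 := congrArg (· ≫ e.inv) h1
  simpa using h2

/-- (B) and (D) for `E` in terms of maps from the unit object -/
lemma homKill_unit {E : CK W N} (h : E.MurreB ∧ E.MurreD) :
    ∀ i j : ℤ, j ≤ i → ∀ f : 𝟙_ C ⟶ N, W.H.map f = 0 →
      (if i = 0 then 𝟙 (𝟙_ C) else 0) ≫ f ≫ E.p j = 0 := by
  intro i j hij f hf
  split_ifs with hi
  · subst hi
    rw [CK.murreBD_iff_kill] at h
    have h1 := h j 0 (by omega) (W.tateZero.hom ≫ f) (by rw [Functor.map_comp, hf, comp_zero])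
    have h2 := congrArg (W.tateZero.inv ≫ ·) h1
    simpa using h2
  · rw [zero_comp]

end basic

variable {C : Type u} [Category.{v} C] [Preadditive C] [Linear ℚ C]
  [MonoidalCategory C] [SymmetricCategory C] [MonoidalPreadditive C] [RigidCategory C]
  {F : Type w} [Field F]
variable {W : MotivicHomology C F} {M N X Y Z : C}

/-- the adjunct `M → N ⊗ Yᘁ` of `M ⊗ Y → N` -/
noncomputable def adj (f : M ⊗ Y ⟶ N) : M ⟶ N ⊗ Yᘁ :=
  (ρ_ M).inv ≫ M ◁ (η_ Y (Yᘁ)) ≫ (α_ M Y (Yᘁ)).inv ≫ f ▷ (Yᘁ)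

omit [Preadditive C] [Linear ℚ C] [SymmetricCategory C] [MonoidalPreadditive C] in
lemma adj_comp (f : M ⊗ Y ⟶ N) (p : M ⟶ M) (g : Y ⟶ Y) (e : N ⟶ N) :
    adj ((p ⊗ₘ g) ≫ f ≫ e) = p ≫ adj f ≫ (e ⊗ₘ (gᘁ)) := by
  unfold adj
  have h1 : (α_ M Y (Yᘁ)).inv ≫ ((p ⊗ₘ g) ≫ f ≫ e) ▷ (Yᘁ)
      = (p ⊗ₘ (g ▷ (Yᘁ))) ≫ (α_ M Y (Yᘁ)).inv ≫ f ▷ (Yᘁ) ≫ e ▷ (Yᘁ) := by
    rw [comp_whiskerRight, comp_whiskerRight, ← MonoidalCategory.tensorHom_id (p ⊗ₘ g),
      ← MonoidalCategory.tensorHom_id g, MonoidalCategory.associator_inv_naturality_assoc]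
  rw [h1]
  have h2 : M ◁ (η_ Y (Yᘁ)) ≫ (p ⊗ₘ (g ▷ (Yᘁ)))
      = (p ▷ _) ≫ M ◁ (η_ Y (Yᘁ)) ≫ M ◁ (Y ◁ (gᘁ)) := by
    have h3 := coevaluation_comp_rightAdjointMate g
    rw [← MonoidalCategory.whiskerLeft_comp, h3, MonoidalCategory.whiskerLeft_comp,
      MonoidalCategory.tensorHom_def', whisker_exchange, whisker_exchange_assoc]
  rw [← Category.assoc (M ◁ _), h2]
  simp only [Category.assoc]
  rw [← MonoidalCategory.rightUnitor_inv_naturality_assoc]
  have h4 : M ◁ (Y ◁ (gᘁ)) ≫ (α_ M Y (Yᘁ)).inv ≫ f ▷ (Yᘁ) ≫ e ▷ (Yᘁ)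
      = (α_ M Y (Yᘁ)).inv ≫ f ▷ (Yᘁ) ≫ (e ⊗ₘ (gᘁ)) := by
    rw [MonoidalCategory.tensorHom_def', MonoidalCategory.associator_inv_naturality_right_assoc,
      whisker_exchange_assoc]
  rw [h4]

omit [Linear ℚ C] [SymmetricCategory C] in
lemma adj_injective (f : M ⊗ Y ⟶ N) (h : adj f = 0) : f = 0 := by
  have h1 : tensorRightHomEquiv M Y (Yᘁ) N f = 0 := h
  have h2 : tensorRightHomEquiv M Y (Yᘁ) N 0 = 0 := by
    simp [tensorRightHomEquiv]
  exact (tensorRightHomEquiv M Y (Yᘁ) N).injective (h1.trans h2.symm)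

omit [MonoidalPreadditive C] in
lemma adj_H (f : M ⊗ Y ⟶ N) (h : W.H.map f = 0) : W.H.map (adj f) = 0 := by
  have h2 : W.H.map (f ▷ (Yᘁ)) = 0 := by
    have := W.H_tensor_zero f (𝟙 (Yᘁ)) h
    rwa [tensorHom_id] at this
  unfold adj
  rw [Functor.map_comp, Functor.map_comp, Functor.map_comp, h2]
  simp

/-- adjunction -/
lemma HomKill.tensor {D : CK W M} {G : CK W Y} {E : CK W N} (h : HomKill D (E.tensor G.dual)) :
    HomKill (D.tensor G) E := by
  intro i j hij f hf
  rw [CK.tensor_p, Preadditive.sum_comp]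
  apply Finset.sum_eq_zero
  intro a _
  apply adj_injective
  rw [adj_comp]
  have h1 := h a (j - (i - a)) (by omega) (adj f) (adj_H f hf)
  have h2 := E.tensor_comp_pure G.dual j (-(i - a)) (j - (i - a))
  rw [if_pos (by omega)] at h2
  have h3 : G.dual.p (-(i - a)) = (G.p (i - a))ᘁ := by
    change (G.p (- -(i - a)))ᘁ = _
    rw [neg_neg]
  rw [h3] at h2
  rw [← h2, ← Category.assoc (adj f), ← Category.assoc, h1, zero_comp]

section biprod

omit [MonoidalPreadditive C]

variable [HasBinaryBiproducts C]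

lemma HomKill.biprod_left {D : CK W M} {D' : CK W X} {E : CK W N} (h : HomKill D E)
    (h' : HomKill D' E) : HomKill (D.biprod D') E := by
  intro i j hij f hf
  rw [CK.biprod_p]
  apply biprod.hom_ext'
  · have := h i j hij (biprod.inl ≫ f) (by rw [Functor.map_comp, hf, comp_zero])
    simpa using this
  · have := h' i j hij (biprod.inr ≫ f) (by rw [Functor.map_comp, hf, comp_zero])
    simpa using this

lemma HomKill.biprod_right {D : CK W M} {E : CK W N} {E' : CK W X} (h : HomKill D E)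
    (h' : HomKill D E') : HomKill D (E.biprod E') := by
  intro i j hij f hf
  rw [CK.biprod_p]
  apply biprod.hom_ext
  · have := h i j hij (f ≫ biprod.fst) (by rw [Functor.map_comp, hf, zero_comp])
    simpa using this
  · have := h' i j hij (f ≫ biprod.snd) (by rw [Functor.map_comp, hf, zero_comp])
    simpa using this

lemma CK.biprod_murreBD {D : CK W M} {E : CK W N} (h : D.MurreB ∧ D.MurreD)
    (h' : E.MurreB ∧ E.MurreD) : (D.biprod E).MurreB ∧ (D.biprod E).MurreD := by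
  rw [CK.murreBD_iff_kill] at h h' ⊢
  intro i l hl α hα
  rw [CK.biprod_p]
  apply biprod.hom_ext
  · have := h i l hl (α ≫ biprod.fst) (by rw [Functor.map_comp, hα, zero_comp])
    simpa using this
  · have := h' i l hl (α ≫ biprod.snd) (by rw [Functor.map_comp, hα, zero_comp])
    simpa using this

end biprod

end Pool.Agent.Helper15.Murre
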