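import Mathlib
import Pool.Agent.Helper15.Murre.HomKill
import Pool.Agent.Helper15.Murre.CS

open CategoryTheory MonoidalCategory Limits TensorProduct

universe w v u

namespace Pool.Agent.Helper15.Murre

variable {C : Type u} [Category.{v} C] [Preadditive C] [Linear ℚ C]
  [MonoidalCategory C] [SymmetricCategory C] [MonoidalPreadditive C] [MonoidalLinear ℚ C]
  [RigidCategory C] {F : Type w} [Field F]
variable {W : MotivicHomology C F} (G : CurvesSurfaces W)

namespace CurvesSurfaces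

variable {G}
variable {M N : C}

section tw

omit [MonoidalLinear ℚ C]

variable (G) in
/-- `E` is a Tate twist of the product decomposition of a product of curves and surfaces -/
def Tw (E : CK W N) : Prop := ∃ (L : List (G.Curve ⊕ G.Surf)) (n : ℤ),
  ((G.prodCK L).twist n).Eqv E

lemma Tw.tensor_dual {E : CK W N} (h : G.Tw E) (Z : G.Curve ⊕ G.Surf) :
    G.Tw (E.tensor (G.genCK Z).dual) := by
  obtain ⟨L, n, hE⟩ := h
  obtain ⟨m, hm⟩ := gen_dual Z
  refine ⟨Z :: L, n + m, ?_⟩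
  refine CK.Eqv.trans ?_ (hE.tensor hm.symm)
  exact (CK.twist_tensor_twist (G.prodCK L) (G.genCK Z) n m).symm

lemma Tw.tensor_tate_dual {E : CK W N} (h : G.Tw E) (m : ℤ) :
    G.Tw (E.tensor (CK.tate W m).dual) := by
  obtain ⟨L, n, hE⟩ := h
  refine ⟨L, n + -m, ?_⟩
  refine CK.Eqv.trans ?_ (hE.tensor (CK.tate_dual m).symm)
  exact ((CK.Eqv.refl (G.prodCK L)).tensor (CK.tate_tensor_tate n (-m)).symm).trans
    (CK.tensor_assoc _ _ _).symm

end tw

lemma Tw.murreBD (hD : G.ProductsD) {E : CK W N} (h : G.Tw E) :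
    E.MurreB ∧ E.MurreD := by
  obtain ⟨L, n, hE⟩ := h
  exact ⟨hE.murreB (CK.twist_murreB (prod_murreB hD L) n),
    hE.murreD (CK.twist_murreD (prodCK_murreD hD L) n)⟩

lemma homKill_prod (hD : G.ProductsD) (L : List (G.Curve ⊕ G.Surf)) :
    ∀ {N : C} (E : CK W N), G.Tw E → HomKill (G.prodCK L) E := by
  induction L with
  | nil =>
    intro N E hE
    exact homKill_unit (hE.murreBD hD)
  | cons Z L ih =>
    intro N E hE
    exact HomKill.tensor (ih _ (hE.tensor_dual Z))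

lemma homKill_twist (hD : G.ProductsD) (L : List (G.Curve ⊕ G.Surf)) (n : ℤ)
    {N : C} (E : CK W N) (hE : G.Tw E) : HomKill ((G.prodCK L).twist n) E :=
  HomKill.tensor (homKill_prod hD L _ (hE.tensor_tate_dual n))

variable [HasBinaryBiproducts C]

variable (G) in
/-- direct sums of Tate twists of products of curves and surfaces, with the product
decomposition -/
inductive Std : ∀ {M : C}, CK W M → Prop
  | base (L : List (G.Curve ⊕ G.Surf)) (n : ℤ) : Std ((G.prodCK L).twist n)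
  | sum {M N : C} (D : CK W M) (E : CK W N) : Std D → Std E → Std (D.biprod E)

lemma Std.murreBD (hD : G.ProductsD) {D : CK W M} (h : G.Std D) :
    D.MurreB ∧ D.MurreD := by
  induction h with
  | base L n => exact Tw.murreBD hD ⟨L, n, CK.Eqv.refl _⟩
  | sum D E _ _ h1 h2 => exact CK.biprod_murreBD h1 h2

lemma Std.homKill (hD : G.ProductsD) {D : CK W M} {E : CK W N} (h : G.Std D)
    (h' : G.Std E) : HomKill D E := by
  induction h with
  | base L n =>
    induction h' with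
    | base L' n' => exact homKill_twist hD L n _ ⟨L', n', CK.Eqv.refl _⟩
    | sum E E' _ _ h1 h2 => exact HomKill.biprod_right h1 h2
  | sum D D' _ _ h1 h2 => exact HomKill.biprod_left h1 h2

/-- direct summands of objects in `Std` -/
def Ret (G : CurvesSurfaces W) (N : C) : Prop :=
  ∃ (M : C) (D : CK W M), G.Std D ∧ Nonempty (Retract N M)

omit [MonoidalLinear ℚ C] in
lemma Ret.of_retract (h : Ret G M) (R : Retract N M) : Ret G N := by
  obtain ⟨X, D, hD, ⟨R'⟩⟩ := h
  exact ⟨X, D, hD, ⟨R.trans R'⟩⟩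

omit [MonoidalLinear ℚ C] in
lemma Ret.of_iso (h : Ret G M) (e : M ≅ N) : Ret G N :=
  h.of_retract ⟨e.inv, e.hom, e.inv_hom_id⟩

omit [Linear ℚ C] [MonoidalCategory C] [SymmetricCategory C] [MonoidalPreadditive C]
  [MonoidalLinear ℚ C] [RigidCategory C] in
/-- retracts of direct sums -/
noncomputable def retractBiprod {X Y M N : C} (R : Retract X M) (R' : Retract Y N) :
    Retract (X ⊞ Y) (M ⊞ N) where
  i := biprod.map R.i R'.i
  r := biprod.map R.r R'.r
  retract := by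
    apply biprod.hom_ext' <;> apply biprod.hom_ext <;> simp

/-- retracts of tensor products -/
def retractTensor {X Y M N : C} (R : Retract X M) (R' : Retract Y N) :
    Retract (X ⊗ Y) (M ⊗ N) where
  i := R.i ⊗ₘ R'.i
  r := R.r ⊗ₘ R'.r
  retract := by
    rw [MonoidalCategory.tensorHom_comp_tensorHom, R.retract, R'.retract]
    simp

omit [MonoidalLinear ℚ C] in
lemma Ret.sum (h : Ret G M) (h' : Ret G N) : Ret G (M ⊞ N) := by
  obtain ⟨X, D, hD, ⟨R⟩⟩ := h
  obtain ⟨Y, E, hE, ⟨R'⟩⟩ := h'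
  exact ⟨X ⊞ Y, D.biprod E, Std.sum _ _ hD hE, ⟨retractBiprod R R'⟩⟩

/-- `(X ⊞ Y) ⊗ Z` is a retract of `(X ⊗ Z) ⊞ (Y ⊗ Z)` -/
noncomputable def distribRight (X Y Z : C) : Retract ((X ⊞ Y) ⊗ Z) ((X ⊗ Z) ⊞ (Y ⊗ Z)) where
  i := biprod.lift (biprod.fst ▷ Z) (biprod.snd ▷ Z)
  r := biprod.desc (biprod.inl ▷ Z) (biprod.inr ▷ Z)
  retract := by
    rw [biprod.lift_desc, ← comp_whiskerRight, ← comp_whiskerRight,
      ← MonoidalPreadditive.add_whiskerRight, biprod.total]
    simp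

/-- `Z ⊗ (X ⊞ Y)` is a retract of `(Z ⊗ X) ⊞ (Z ⊗ Y)` -/
noncomputable def distribLeft (X Y Z : C) : Retract (Z ⊗ (X ⊞ Y)) ((Z ⊗ X) ⊞ (Z ⊗ Y)) where
  i := biprod.lift (Z ◁ biprod.fst) (Z ◁ biprod.snd)
  r := biprod.desc (Z ◁ biprod.inl) (Z ◁ biprod.inr)
  retract := by
    rw [biprod.lift_desc, ← MonoidalCategory.whiskerLeft_comp,
      ← MonoidalCategory.whiskerLeft_comp,
      ← MonoidalPreadditive.whiskerLeft_add, biprod.total]
    simp

omit [MonoidalPreadditive C] [MonoidalLinear ℚ C] [HasBinaryBiproducts C] in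
lemma prod_append (L L' : List (G.Curve ⊕ G.Surf)) :
    Nonempty (G.prod L ⊗ G.prod L' ≅ G.prod (L' ++ L)) := by
  induction L' with
  | nil => exact ⟨ρ_ _⟩
  | cons Z L' ih =>
    obtain ⟨e⟩ := ih
    exact ⟨(α_ _ _ _).symm ≪≫ whiskerRightIso e (G.gen Z)⟩

omit [MonoidalLinear ℚ C] in
lemma Ret.prod (L : List (G.Curve ⊕ G.Surf)) (n : ℤ) : Ret G (G.prod L ⊗ W.T n) :=
  ⟨_, _, Std.base L n, ⟨Retract.refl _⟩⟩

omit [MonoidalLinear ℚ C] in
lemma Std.ret_tensor {D : CK W M} {E : CK W N} (h : G.Std D) (h' : G.Std E) :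
    Ret G (M ⊗ N) := by
  induction h with
  | base L n =>
    induction h' with
    | base L' n' =>
      obtain ⟨e⟩ := prod_append (G := G) L L'
      refine (Ret.prod (G := G) (L' ++ L) (n + n')).of_iso ?_
      exact (tensorIso e.symm (W.tateAdd n n')) ≪≫
        { hom := tensorδ (G.prod L) (W.T n) (G.prod L') (W.T n')
          inv := tensorμ (G.prod L) (W.T n) (G.prod L') (W.T n')
          hom_inv_id := tensorδ_tensorμ _ _ _ _
          inv_hom_id := tensorμ_tensorδ _ _ _ _ }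
    | sum E E' _ _ h1 h2 => exact (h1.sum h2).of_retract (distribLeft _ _ _)
  | sum D D' _ _ h1 h2 => exact (h1.sum h2).of_retract (distribRight _ _ _)

omit [MonoidalLinear ℚ C] in
lemma Ret.tensor (h : Ret G M) (h' : Ret G N) : Ret G (M ⊗ N) := by
  obtain ⟨X, D, hD, ⟨R⟩⟩ := h
  obtain ⟨Y, E, hE, ⟨R'⟩⟩ := h'
  exact (hD.ret_tensor hE).of_retract (retractTensor R R')

omit [MonoidalLinear ℚ C] in
lemma Ret.tate (n : ℤ) : Ret G (W.T n) :=
  (Ret.prod (G := G) [] n).of_iso (λ_ _)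

omit [MonoidalLinear ℚ C] in
lemma Ret.gen (Z : G.Curve ⊕ G.Surf) : Ret G (G.gen Z) := by
  refine (Ret.prod (G := G) [Z] 0).of_iso ?_
  exact whiskerRightIso (λ_ (G.gen Z)) (W.T 0) ≪≫ whiskerLeftIso (G.gen Z) W.tateZero ≪≫ ρ_ _

omit [MonoidalLinear ℚ C] in
theorem Gen.ret (h : G.Gen N) : Ret G N := by
  induction h with
  | tate n => exact Ret.tate n
  | curve X => exact Ret.gen (Sum.inl X)
  | surf S => exact Ret.gen (Sum.inr S)
  | tensor M N _ _ h1 h2 => exact h1.tensor h2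
  | sum M N _ _ h1 h2 => exact h1.sum h2
  | summand M N R _ h1 => exact h1.of_retract R

omit [MonoidalPreadditive C] [MonoidalLinear ℚ C] in
lemma gen_prod (L : List (G.Curve ⊕ G.Surf)) : G.Gen (G.prod L) := by
  induction L with
  | nil =>
    exact Gen.summand _ _ ⟨W.tateZero.inv, W.tateZero.hom, W.tateZero.inv_hom_id⟩ (Gen.tate 0)
  | cons Z L ih =>
    refine Gen.tensor _ _ ih ?_
    cases Z with
    | inl X => exact Gen.curve X
    | inr S => exact Gen.surf S

/-- **Main theorem.** -/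
theorem main (hD : G.ProductsD) (N : C) (hN : G.Gen N) :
    MurreA W N ∧ MurreC W N ∧ ∀ E : CK W N, E.MurreB ∧ E.MurreD := by
  obtain ⟨M, D, hM, ⟨R⟩⟩ := hN.ret
  have hk := hM.homKill hD hM
  have hBD := hM.murreBD hD
  exact ⟨hk.tri.exists_CK R, hk.tri.murreC hk.noPh R, fun E =>
    ⟨hk.tri.murreB hk.noPh hBD.1 R E, hk.tri.murreD hk.noPh hBD.2 R E⟩⟩

end CurvesSurfaces

end Pool.Agent.Helper15.Murre
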