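import Mathlib
import Pool.Agent.Helper15.Murre.CSGen
import Pool.Agent.Helper15.Murre.Descent

open CategoryTheory MonoidalCategory Limits TensorProduct

universe w v' u' v u

namespace Pool.Agent.Helper15.Murre

section one

variable {C : Type u} [Category.{v} C] [Preadditive C] [Linear ℚ C]
  [MonoidalCategory C] [SymmetricCategory C] [RigidCategory C] {F : Type w} [Field F]
variable {W : MotivicHomology C F} {M N : C}

lemma HomKill.of_retract {D : CK W M} (h : HomKill D D) {X Y : C} (R : Retract X M)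
    (R' : Retract Y M) (E : CK W X) (E' : CK W Y) : HomKill E E' := by
  intro i j hij f hf
  obtain ⟨u, v, h1⟩ := h.tri.factor h.noPh R E i
  obtain ⟨u', v', h2⟩ := h.tri.factor h.noPh R' E' j
  have h3 := h i j hij (v ≫ f ≫ u') (by
    rw [Functor.map_comp, Functor.map_comp, hf]; simp)
  rw [h1, h2]
  have h4 := congrArg (fun t => u ≫ t ≫ v') h3
  simpa using h4

end one

section two

variable {C : Type u} [Category.{v} C] [Preadditive C] [Linear ℚ C]
  [MonoidalCategory C] [SymmetricCategory C] [RigidCategory C] {F : Type w} [Field F]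
variable {C' : Type u'} [Category.{v'} C'] [Preadditive C'] [Linear ℚ C']
  [MonoidalCategory C'] [SymmetricCategory C'] [RigidCategory C']

variable {W : MotivicHomology C F} {W' : MotivicHomology C' F} {Φ : C ⥤ C'}

/-- descent of Chow-Kunneth decompositions -/
theorem KunnethDescends.exists_CK (B : BaseChange W W' Φ) (A : KunnethDescends W' Φ) {N : C}
    (D : CK W' (Φ.obj N)) (h : HomKill D D) : Nonempty (CK W N) := by
  classical
  have hadd := B.additive
  have hfaith := B.faithful
  let J' := h.tri.ideal (Retract.refl (Φ.obj N))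
  let φ := B.onEnd N
  choose y hyH using A N D
  have hy : ∀ i, φ (y i) - D.e i ∈ J' := by
    intro i
    rw [h.tri.mem_refl]
    intro a
    apply h a a le_rfl
    have := W'.additive
    have h2 : (φ (y i) - D.e i : End _).asHom = (φ (y i)).asHom - D.p i := rfl
    rw [h2, Functor.map_sub, sub_eq_zero]
    exact hyH i
  let J : TwoSidedIdeal (End N) := J'.comap φ
  have hJ : ∀ z, z ∈ J ↔ φ z ∈ J' := fun z => TwoSidedIdeal.mem_comap φ
  have hcompH : ∀ (f : N ⟶ N) (z : W.H.obj N), B.comp N ((W.H.map f).hom z) =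
      (W'.H.map (φ f).asHom).hom (B.comp N z) := fun f z => B.comp_nat f z
  apply exists_CK_of_lift (W := W) J ?_ ?_ D.s y ?_ ?_ ?_ ?_
  · intro z hz
    obtain ⟨m, hm⟩ := h.tri.nilpotent_of_mem _ _ ((hJ z).1 hz)
    refine ⟨m, ?_⟩
    have h1 : φ (z ^ m) = 0 := by rw [map_pow, hm]
    have h2 : Φ.map (z ^ m : End N).asHom = Φ.map 0 := by
      rw [Functor.map_zero]; exact h1
    exact Φ.map_injective h2
  · intro z hz
    have h1 := h.tri.H_of_mem _ _ ((hJ z).1 hz)
    ext a
    apply (B.comp N).injective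
    rw [hcompH, h1]
    change (0 : W'.H.obj _) = B.comp N 0
    rw [map_zero]
  · intro n m
    rw [hJ, map_sub, map_mul]
    have h1 : φ (y n) * φ (y m) - φ (if n = m then y n else 0) =
        (φ (y n) - D.e n) * φ (y m) + D.e n * (φ (y m) - D.e m) +
          (D.e n * D.e m - φ (if n = m then y n else 0)) := by
      rw [sub_mul, mul_sub]; abel
    rw [h1]
    refine J'.add_mem (J'.add_mem (J'.mul_mem_right _ _ (hy n)) (J'.mul_mem_left _ _ (hy m))) ?_
    by_cases hnm : n = m
    · subst hnm
      rw [if_pos rfl]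
      have h2 : D.e n * D.e n = D.e n := D.idem n
      rw [h2, ← neg_sub]
      exact J'.neg_mem (hy n)
    · rw [if_neg hnm, map_zero, sub_zero]
      have h2 : D.e n * D.e m = 0 := D.orth m n (Ne.symm hnm)
      rw [h2]
      exact J'.zero_mem
  · rw [hJ, map_sub, map_sum, map_one]
    have h1 : (∑ i ∈ D.s, D.e i) = 1 := D.sum_s
    rw [← h1, ← Finset.sum_sub_distrib]
    apply sum_mem
    intro i _
    exact hy i
  · intro n _ j z hz
    apply (B.comp N).injective
    have h2 : (φ (y n)).asHom = Φ.map (y n) := rfl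
    rw [hcompH, h2, hyH, D.homology n j _ ((B.comp_gr N j z).1 hz)]
    split_ifs
    · rfl
    · rw [map_zero]
  · intro n hn z hz
    apply (B.comp N).injective
    have h1 := D.homology n n _ ((B.comp_gr N n z).1 hz)
    rw [D.p_eq_zero hn, W'.map_zero_apply, if_pos rfl] at h1
    rw [← h1, map_zero]

/-- descent of (C) -/
lemma BaseChange.murreC (B : BaseChange W W' Φ) {N : C} (h : MurreC W' (Φ.obj N)) :
    MurreC W N := by
  have hadd := B.additive
  have hfaith := B.faithful
  rw [MurreC_iff] at h ⊢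
  intro E E' l i j hij α
  apply Φ.map_injective
  rw [Functor.map_comp, Functor.map_comp, Functor.map_zero]
  have h1 := h (E.baseChange B) (E'.baseChange B) l i j hij ((B.tate l).hom ≫ Φ.map α)
  change ((B.tate l).hom ≫ Φ.map α) ≫ Φ.map (E.p i) ≫ Φ.map (E'.p j) = 0 at h1
  have h2 := congrArg ((B.tate l).inv ≫ ·) h1
  simpa using h2

/-- descent of (B) and (D) -/
lemma BaseChange.murreBD (B : BaseChange W W' Φ) {N : C} (E : CK W N)
    (h : (E.baseChange B).MurreB ∧ (E.baseChange B).MurreD) : E.MurreB ∧ E.MurreD := by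
  have hadd := B.additive
  have hfaith := B.faithful
  rw [CK.murreBD_iff_kill] at h ⊢
  intro i l hl α hα
  apply Φ.map_injective
  rw [Functor.map_comp, Functor.map_zero]
  have h2 : W'.H.map (Φ.map α) = 0 := by
    ext y
    obtain ⟨x, rfl⟩ := (B.comp _).surjective y
    rw [← B.comp_nat, hα]
    exact map_zero _
  have h1 := h i l hl ((B.tate l).hom ≫ Φ.map α) (by rw [Functor.map_comp, h2, comp_zero])
  change ((B.tate l).hom ≫ Φ.map α) ≫ Φ.map (E.p i) = 0 at h1
  have h3 := congrArg ((B.tate l).inv ≫ ·) h1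
  simpa using h3

end two

section three

variable {C : Type u} [Category.{v} C] [Preadditive C] [Linear ℚ C]
  [MonoidalCategory C] [SymmetricCategory C] [RigidCategory C] {F : Type w} [Field F]
variable {C' : Type u'} [Category.{v'} C'] [Preadditive C'] [Linear ℚ C']
  [MonoidalCategory C'] [SymmetricCategory C'] [MonoidalPreadditive C'] [MonoidalLinear ℚ C']
  [RigidCategory C'] [HasBinaryBiproducts C']
variable {W : MotivicHomology C F} {W' : MotivicHomology C' F} {Φ : C ⥤ C'}
  {G : CurvesSurfaces W'}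

/-- **Main theorem**, over an arbitrary base field. -/
theorem CurvesSurfaces.main' (B : BaseChange W W' Φ) (A : KunnethDescends W' Φ)
    (hD : G.ProductsD) (N : C) (hN : G.Gen (Φ.obj N)) :
    MurreA W N ∧ MurreC W N ∧ ∀ E : CK W N, E.MurreB ∧ E.MurreD := by
  obtain ⟨⟨D'⟩, h2, h3⟩ := CurvesSurfaces.main hD _ hN
  obtain ⟨M, D, hM, ⟨R⟩⟩ := hN.ret
  have hk := (hM.homKill hD hM).of_retract R R D' D'
  exact ⟨A.exists_CK B D' hk, B.murreC h2, fun E => B.murreBD E (h3 _)⟩

end three

end Pool.Agent.Helper15.Murre
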