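import Mathlib
import Pool.Agent.Helper15.Murre.KO

open CategoryTheory MonoidalCategory Limits TensorProduct
open Pool.Agent.Helper15.Murre

universe w v u

/-- The following are equivalent: (1) all objects satisfy (A) and (C); (2) all objects satisfy
(A), and (B) for every Chow-Kunneth decomposition; (3) every object has a Chow-Kunneth
decomposition with (B), and objects without homology are zero; (4) every object has a
Chow-Kunneth decomposition with (B) and is finite-dimensional in the sense of Kimura and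
O'Sullivan. -/
theorem Pool.Agent.Helper15.Murre.kimuraEquiv
    {C : Type u} [Category.{v} C] [Preadditive C] [Linear ℚ C] [MonoidalCategory C]
    [SymmetricCategory C] [MonoidalPreadditive C] [MonoidalLinear ℚ C] [RigidCategory C]
    [HasBinaryBiproducts C] [IsIdempotentComplete C]
    {F : Type w} [Field F] (W : MotivicHomology C F) :
    List.TFAE [
      ∀ M : C, MurreA W M ∧ MurreC W M,
      ∀ M : C, MurreA W M ∧ ∀ D : CK W M, D.MurreB,
      ∀ M : C, (∃ D : CK W M, D.MurreB) ∧ (Subsingleton (W.H.obj M) → IsZero M),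
      ∀ M : C, (∃ D : CK W M, D.MurreB) ∧ KimuraFinite M] := by
  have h12 : (∀ M : C, MurreA W M ∧ MurreC W M) →
      ∀ M : C, MurreA W M ∧ ∀ D : CK W M, D.MurreB :=
    fun h M => ⟨(h M).1, fun D => murreB_of_murreC (fun M => (h M).2) D⟩
  have h23 : (∀ M : C, MurreA W M ∧ ∀ D : CK W M, D.MurreB) →
      ∀ M : C, (∃ D : CK W M, D.MurreB) ∧ (Subsingleton (W.H.obj M) → IsZero M) := by
    intro h M
    obtain ⟨D⟩ := (h M).1
    exact ⟨⟨D, (h M).2 D⟩, fun hM =>
      (IsZero.iff_id_eq_zero M).2 (id_eq_zero_of_murreB (fun M => (h M).2) M hM)⟩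
  have h34 : (∀ M : C, (∃ D : CK W M, D.MurreB) ∧ (Subsingleton (W.H.obj M) → IsZero M)) →
      ∀ M : C, (∃ D : CK W M, D.MurreB) ∧ KimuraFinite M := by
    intro h M
    have hph : NoPhantom W := fun N => (h N).2
    exact ⟨(h M).1, hph.kimura (h M).1.choose⟩
  have h41 : (∀ M : C, (∃ D : CK W M, D.MurreB) ∧ KimuraFinite M) →
      ∀ M : C, MurreA W M ∧ MurreC W M := by
    intro h M
    have hph : NoPhantom W := noPhantom_of_kimura (fun M => (h M).2)
    exact ⟨⟨(h M).1.choose⟩, murreC_of_murreB (fun M D => hph.murreB (fun M => (h M).1) D)⟩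
  tfae_have 1 → 2 := h12
  tfae_have 2 → 3 := h23
  tfae_have 3 → 4 := h34
  tfae_have 4 → 1 := h41
  tfae_finish
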