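import Mathlib
import Pool.Agent.Helper15.Murre.Global

open CategoryTheory MonoidalCategory Limits TensorProduct
open Pool.Agent.Helper15.Murre

universe w v u

/-- The following are equivalent: (1) Murre's conjectures (A)-(D) hold for all objects of `C`;
(2) every object has a Chow-Kunneth decomposition, and (B) and (D) hold for every Chow-Kunneth
decomposition; (3) every object has a Chow-Kunneth decomposition, and `CH_0(N)_hom = 0` for every
object `N` whose homology is concentrated in a single degree `w ≤ 0`. -/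
theorem Pool.Agent.Helper15.Murre.murreEquiv
    {C : Type u} [Category.{v} C] [Preadditive C] [Linear ℚ C] [MonoidalCategory C]
    [SymmetricCategory C] [MonoidalPreadditive C] [MonoidalLinear ℚ C] [RigidCategory C]
    [HasBinaryBiproducts C] [IsIdempotentComplete C]
    {F : Type w} [Field F] (W : MotivicHomology C F) :
    List.TFAE [
      ∀ M : C, (∃ D : CK W M, D.MurreB ∧ D.MurreD) ∧ MurreC W M,
      ∀ M : C, MurreA W M ∧ ∀ D : CK W M, D.MurreB ∧ D.MurreD,
      (∀ M : C, MurreA W M) ∧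
        ∀ (N : C) (w : ℤ), w ≤ 0 → W.gr N w = ⊤ → W.CHhom 0 N = ⊥] := by
  have h13 : (∀ M : C, (∃ D : CK W M, D.MurreB ∧ D.MurreD) ∧ MurreC W M) →
      (∀ M : C, MurreA W M) ∧
        ∀ (N : C) (w : ℤ), w ≤ 0 → W.gr N w = ⊤ → W.CHhom 0 N = ⊥ := by
    intro h
    have hB : ∀ (M : C) (D : CK W M), D.MurreB := fun M D =>
      murreB_of_murreC (fun M => (h M).2) D
    have hph : NoPhantom W := fun N hN =>
      (IsZero.iff_id_eq_zero N).2 (id_eq_zero_of_murreB hB N hN)
    refine ⟨fun M => ⟨(h M).1.choose⟩, ?_⟩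
    intro N w hw hN
    obtain ⟨D, hDB, hDD⟩ := (h N).1
    have h1 : ∀ x : W.H.obj N, x ∈ W.gr N w := by
      intro x
      rw [hN]; trivial
    have h2 := hph.pure_id D w h1
    rw [eq_bot_iff]
    intro α hα
    rcases lt_or_eq_of_le hw with hlt | rfl
    · rw [CK.MurreB_iff] at hDB
      have := hDB 0 w (by omega) α
      rw [h2, Category.comp_id] at this
      simpa using this
    · rw [CK.MurreD_iff] at hDD
      have := hDD 0 α (by rw [mul_zero, h2, Category.comp_id]) hα
      simpa using this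
  have h32 : ((∀ M : C, MurreA W M) ∧
        ∀ (N : C) (w : ℤ), w ≤ 0 → W.gr N w = ⊤ → W.CHhom 0 N = ⊥) →
      ∀ M : C, MurreA W M ∧ ∀ D : CK W M, D.MurreB ∧ D.MurreD := by
    rintro ⟨hA, hE⟩ M
    have hE' : WeightVanishing W := hE
    exact ⟨hA M, fun D => ⟨hE'.murreB D, hE'.murreD D⟩⟩
  have h21 : (∀ M : C, MurreA W M ∧ ∀ D : CK W M, D.MurreB ∧ D.MurreD) →
      ∀ M : C, (∃ D : CK W M, D.MurreB ∧ D.MurreD) ∧ MurreC W M := by
    intro h M
    obtain ⟨D⟩ := (h M).1
    exact ⟨⟨D, (h M).2 D⟩, murreC_of_murreB (fun M D => ((h M).2 D).1)⟩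
  tfae_have 1 → 3 := h13
  tfae_have 3 → 2 := h32
  tfae_have 2 → 1 := h21
  tfae_finish
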