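import Mathlib
import Pool.Agent.Helper15.Murre.Twist

open CategoryTheory MonoidalCategory Limits TensorProduct
open Pool.Agent.Helper15.Murre

universe w v u

/-- Let `M` be an object with a Chow-Kunneth decomposition such that for every `l` either
`CH_l(M) = 0` or the Tate object `1(l)` is a direct summand of `M`, the latter for at least one
`l` (for instance the motive of a nonempty smooth projective variety `X`). If (C) holds for
`M ⊗ Mᘁ` (for `X`: if (C) holds for `X × X`), then every direct summand `N` of every Tate twist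
`M(n)` satisfies (A) and (C), and (B) holds for every Chow-Kunneth decomposition of `N`; if
moreover (D) holds for some Chow-Kunneth decomposition of `M`, then (D) holds for every
Chow-Kunneth decomposition of `N`. -/
theorem Pool.Agent.Results.MP_38de51_ag.SummandsFromC.result
    {C : Type u} [Category.{v} C] [Preadditive C] [Linear ℚ C] [MonoidalCategory C]
    [SymmetricCategory C] [MonoidalPreadditive C] [MonoidalLinear ℚ C] [RigidCategory C]
    {F : Type w} [Field F] (W : MotivicHomology C F) (M : C)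
    (hA : MurreA W M)
    (hT : ∀ l, (∀ α : W.CH l M, α = 0) ∨ Nonempty (Retract (W.T l) M))
    (hT' : ∃ l, Nonempty (Retract (W.T l) M))
    (hC : MurreC W (M ⊗ Mᘁ)) (N : C) (n : ℤ) (hN : Nonempty (Retract N (M ⊗ W.T n))) :
    MurreA W N ∧ MurreC W N ∧ (∀ E : CK W N, E.MurreB) ∧
      ((∃ D : CK W M, D.MurreD) → ∀ E : CK W N, E.MurreD) := by
  obtain ⟨l₀, ⟨R₀⟩⟩ := hT'
  obtain ⟨R⟩ := hN
  have hC' : MurreC W ((M ⊗ W.T n) ⊗ (M ⊗ W.T n)ᘁ) := hC.ofIso (twistEnd W M n)
  have key : ∀ D : CK W (M ⊗ W.T n), D.Tri ∧ D.NoPh := fun D =>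
    ⟨D.tri_of_murreC hC' (l₀ + n) (twistRetract W l₀ n R₀),
      D.noPh_of_murreC hC' (l₀ + n) (twistRetract W l₀ n R₀)⟩
  obtain ⟨D⟩ := hA
  have hCn : MurreC W (M ⊗ W.T n) :=
    (key (D.twist n)).1.murreC (key (D.twist n)).2 (Retract.refl _)
  have hB : (D.twist n).MurreB := by
    rw [CK.MurreB_iff]
    intro l i hi α
    rcases hT (l - n) with h | ⟨⟨R'⟩⟩
    · have : α = 0 := shiftCH_injective l n α (h _)
      rw [this, zero_comp]
    · have hl : l - n + n = l := by ring
      have R'' := twistRetract W (l - n) n R'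
      rw [hl] at R''
      exact hCn.vanish l R'' _ i hi α
  refine ⟨(key (D.twist n)).1.exists_CK R, (key (D.twist n)).1.murreC (key (D.twist n)).2 R,
    fun E => (key (D.twist n)).1.murreB (key (D.twist n)).2 hB R E, ?_⟩
  rintro ⟨D', hD'⟩ E
  exact (key (D'.twist n)).1.murreD (key (D'.twist n)).2 (CK.twist_murreD hD' n) R E
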