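import Mathlib
import Pool.Agent.Helper15.Murre.CSDescent

open CategoryTheory MonoidalCategory Limits TensorProduct
open Pool.Agent.Helper15.Murre

universe w v' u' v u

/-- Formal setting: `C` stands for the Chow motives over a field `k`, `C'` for the Chow motives
over a universal domain `Ω` containing `k`, and `Φ` for the base change functor `N ↦ N_Ω`.
If Murre's conjecture (D) holds for all finite products of curves and surfaces over `Ω` (for the
product Chow-Kunneth decomposition), then every motive `N` over `k` such that `N_Ω` is in the
thick tensor subcategory generated by the motives of curves and surfaces and the Tate objects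
satisfies (A) and (C), and (B) and (D) for every Chow-Kunneth decomposition. -/
theorem Pool.Agent.Helper15.Murre.surfacesFromD
    {C : Type u} [Category.{v} C] [Preadditive C] [Linear ℚ C] [MonoidalCategory C]
    [SymmetricCategory C] [RigidCategory C]
    {C' : Type u'} [Category.{v'} C'] [Preadditive C'] [Linear ℚ C'] [MonoidalCategory C']
    [SymmetricCategory C'] [MonoidalPreadditive C'] [MonoidalLinear ℚ C'] [RigidCategory C']
    [HasBinaryBiproducts C'] {F : Type w} [Field F]
    (W : MotivicHomology C F) (W' : MotivicHomology C' F) (Φ : C ⥤ C')
    (B : BaseChange W W' Φ) (A : KunnethDescends W' Φ) (G : CurvesSurfaces W')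
    (hD : G.ProductsD) (N : C) (hN : G.Gen (Φ.obj N)) :
    MurreA W N ∧ MurreC W N ∧ ∀ E : CK W N, E.MurreB ∧ E.MurreD :=
  CurvesSurfaces.main' B A hD N hN
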